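import Pool.Agent.E8helper66.BM.Up

/-!
# The converse: growth of the Borel integral and zeros
-/

set_option autoImplicit false

open MeasureTheory Filter Topology Set Complex
open Pool.Agent.TH942.LS (Dat P P_le)
open Pool.Agent.TH942.SL
open Pool.Agent.TH270.MS (Sh)
open Pool.Agent.W263.BSD (LInt lap lapC lapC_ofReal lapC_differentiableAt)

namespace Pool.Agent.E8helper66.BM

variable {S : ℝ → ℝ} {v₀ b C : ℝ}

/-- the reciprocal of the Gamma function, a measurable version -/
noncomputable def Gi (v : ℝ) : ℝ := (Ioi (0 : ℝ)).indicator (fun v => (Real.Gamma (1 + v))⁻¹) v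

lemma Gi_meas : Measurable Gi := by
  classical
  have h : ContinuousOn (fun v : ℝ => (Real.Gamma (1 + v))⁻¹) (Ioi 0) := by
    refine (gam_cont.mono (Ioi_subset_Ioi (by norm_num))).inv₀ fun v hv => ?_
    have hv0 : (0 : ℝ) < v := hv
    exact (Real.Gamma_pos_of_pos (by linarith)).ne'
  have := ContinuousOn.measurable_piecewise (f := fun v : ℝ => (Real.Gamma (1 + v))⁻¹)
    (g := fun _ : ℝ => (0 : ℝ)) h continuousOn_const measurableSet_Ioi
  have e : Gi = (Ioi (0 : ℝ)).piecewise (fun v : ℝ => (Real.Gamma (1 + v))⁻¹) (fun _ => 0) := by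
    funext v
    unfold Gi Set.piecewise indicator
    rfl
  rw [e]
  exact this

lemma Kr_eq {l v : ℝ} (hv : 0 < v) : Kr l v = l ^ v * Gi v := by
  unfold Kr Gi
  rw [indicator_of_mem (show v ∈ Ioi (0 : ℝ) from hv), div_eq_mul_inv]

lemma Gi_nonneg (v : ℝ) : 0 ≤ Gi v := by
  unfold Gi
  refine indicator_nonneg (fun v hv => ?_) v
  have hv0 : (0 : ℝ) < v := hv
  have := Real.Gamma_pos_of_pos (show 0 < 1 + v by linarith)
  positivity

lemma BI_eq (S : ℝ → ℝ) (l : ℝ) : BI S l = ∫ v in Ioi (0 : ℝ), l ^ v * Gi v * S v := by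
  unfold BI
  refine setIntegral_congr_fun measurableSet_Ioi fun v hv => ?_
  rw [Kr_eq hv]

theorem BI_meas (hS : Measurable S) : Measurable (BI S) := by
  have hG := Gi_meas
  have h1 : Measurable (fun p : ℝ × ℝ => p.1 ^ p.2 * Gi p.2 * S p.2) := by fun_prop
  have h2 := (h1.stronglyMeasurable).integral_prod_right' (ν := volume.restrict (Ioi (0 : ℝ)))
  have h3 : BI S = fun l => ∫ v in Ioi (0 : ℝ), l ^ v * Gi v * S v := funext fun l => BI_eq S l
  rw [h3]
  exact h2.measurable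

/-- **The Laplace transform of the Borel integral.** -/
theorem lap_BI (H : Ld S v₀ b C) {z : ℂ} (hz : Real.exp b < z.re) : lapC (BI S) z = Ph S z := by
  have hz0 : 0 < z.re := (Real.exp_pos b).trans hz
  have hG := Gi_meas
  have hS := H.meas
  set μ : Measure ℝ := volume.restrict (Ioi (0 : ℝ)) with hμ
  set F : ℝ → ℝ → ℂ := fun l v => ((l ^ v * Gi v * S v : ℝ) : ℂ) * exp (-(z * l)) with hF
  have hFm : Measurable (Function.uncurry F) := by
    rw [hF]
    fun_prop
  -- the inner integrals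
  have hin : ∀ v : ℝ, 0 < v → Integrable (fun l => F l v) μ ∧
      ∫ l, ‖F l v‖ ∂μ = ‖(S v : ℂ) * ek v (z.re : ℂ)‖ ∧ ∫ l, F l v ∂μ = (S v : ℂ) * ek v z := by
    intro v hv
    have hΓ : 0 < Real.Gamma (1 + v) := Real.Gamma_pos_of_pos (by linarith)
    have hGv : Gi v = (Real.Gamma (1 + v))⁻¹ := by
      unfold Gi
      rw [indicator_of_mem (show v ∈ Ioi (0 : ℝ) from hv)]
    have hL := rpow_lint (v := v) (w := z.re) (by linarith) hz0
    have hLc := LInt.complex (measurable_id.pow_const v) hL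
    refine ⟨?_, ?_, ?_⟩
    · refine (hLc.const_mul ((Gi v * S v : ℝ) : ℂ)).congr (ae_of_all _ fun l => ?_)
      simp only [hF, id_eq]
      push_cast
      ring
    · have e1 : ∫ l, ‖F l v‖ ∂μ = ∫ l in Ioi (0 : ℝ), (Gi v * |S v|) *
          (l ^ v * Real.exp (-(z.re * l))) := by
        refine setIntegral_congr_fun measurableSet_Ioi fun l hl => ?_
        have hl0 : (0 : ℝ) < l := hl
        simp only [hF]
        rw [norm_mul, Complex.norm_exp, Complex.norm_real, Real.norm_eq_abs, abs_mul, abs_mul,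
          abs_of_nonneg (Gi_nonneg v), abs_of_pos (Real.rpow_pos_of_pos hl0 v), Complex.neg_re,
          Complex.re_mul_ofReal]
        ring
      have e2 := lap_rpow_real (v := v) (w := z.re) (by linarith) hz0
      unfold lap at e2
      rw [e1, integral_const_mul, e2, norm_mul, norm_ek v (by exact_mod_cast hz0.ne'),
        Complex.norm_real, Complex.norm_real, Real.norm_eq_abs, Real.norm_eq_abs,
        abs_of_pos hz0, hGv, add_comm v 1]
      field_simp
    · have e1 : ∫ l, F l v ∂μ = ∫ l in Ioi (0 : ℝ), ((Gi v * S v : ℝ) : ℂ) *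
          (((l ^ v : ℝ) : ℂ) * exp (-(z * l))) := by
        refine integral_congr_ae (ae_of_all _ fun l => ?_)
        simp only [hF]
        push_cast
        ring
      have e2 := lap_rpow hv hz0
      unfold lapC at e2
      rw [e1, integral_const_mul, e2, hGv, add_comm v 1]
      have : (Real.Gamma (1 + v) : ℂ) ≠ 0 := by exact_mod_cast hΓ.ne'
      push_cast
      field_simp
  have hprod : Integrable (Function.uncurry F) (μ.prod μ) := by
    rw [integrable_prod_iff' hFm.aestronglyMeasurable]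
    constructor
    · filter_upwards [ae_restrict_mem measurableSet_Ioi] with v hv
      exact (hin v hv).1
    · have h1 := (H.int (z := (z.re : ℂ)) (by
        rw [Complex.norm_real, Real.norm_eq_abs, abs_of_pos hz0]
        exact hz)).norm
      refine h1.congr ?_
      filter_upwards [ae_restrict_mem measurableSet_Ioi] with v hv
      exact (hin v hv).2.1.symm
  have h5 := integral_integral_swap hprod
  have h6 : ∫ v, ∫ l, F l v ∂μ ∂μ = Ph S z := by
    unfold Ph
    exact setIntegral_congr_fun measurableSet_Ioi fun v hv => (hin v hv).2.2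
  rw [h6] at h5
  rw [← h5]
  unfold lapC
  refine integral_congr_ae (ae_of_all _ fun l => ?_)
  simp only
  rw [BI_eq, ← integral_complex_ofReal, ← integral_mul_const]

/-- bound near `0` -/
lemma BI_small (H : Ld S v₀ b C) {l₀ : ℝ} (hl₀ : 0 < l₀) : ∃ B : ℝ, 0 ≤ B ∧
    ∀ l : ℝ, 0 < l → l ≤ l₀ → |BI S l| ≤ B := by
  have hx : Real.exp b < Real.exp b + 1 := lt_add_one _
  have h0 := (BI_rep H hl₀ hx).1
  refine ⟨∫ v in Ioi (0 : ℝ), |Kr l₀ v * S v|, integral_nonneg fun v => abs_nonneg _,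
    fun l hl hl2 => ?_⟩
  unfold BI
  rw [← Real.norm_eq_abs]
  refine (norm_integral_le_integral_norm _).trans ?_
  refine setIntegral_mono_on (BI_rep H hl hx).1.norm h0.abs measurableSet_Ioi fun v hv => ?_
  have hv0 : (0 : ℝ) < v := hv
  rw [Real.norm_eq_abs, abs_mul, abs_mul, abs_of_nonneg (Kr_nonneg hl hv0.le),
    abs_of_nonneg (Kr_nonneg hl₀ hv0.le)]
  refine mul_le_mul_of_nonneg_right ?_ (abs_nonneg _)
  unfold Kr
  refine div_le_div_of_nonneg_right ?_ (Real.Gamma_pos_of_pos (by linarith)).le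
  exact Real.rpow_le_rpow hl.le hl2 hv0.le

/-- growth implies convergence of the Laplace transform -/
theorem BI_lint (H : Ld S v₀ b C) (hg : ∀ ε : ℝ, 0 < ε → ∃ K : ℝ, ∀ᶠ l : ℝ in atTop,
    |BI S l| ≤ K * Real.exp ((1 + ε) * l)) {w : ℝ} (hw : 1 < w) : LInt (BI S) w := by
  obtain ⟨K, hK⟩ := hg ((w - 1) / 2) (by linarith)
  obtain ⟨l₀, hl₀⟩ := hK.exists_forall_of_atTop
  obtain ⟨B, hB, hB2⟩ := BI_small H (l₀ := max l₀ 1) (by positivity)
  have hb : ∀ l : ℝ, 0 < l → |BI S l| ≤ (B + |K|) * Real.exp ((1 + (w - 1) / 2) * l) := by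
    intro l hl
    have h1 : 1 ≤ Real.exp ((1 + (w - 1) / 2) * l) := Real.one_le_exp (by
      have : 0 < 1 + (w - 1) / 2 := by linarith
      positivity)
    rcases le_total l (max l₀ 1) with h | h
    · refine (hB2 l hl h).trans ?_
      have : 0 ≤ |K| := abs_nonneg K
      nlinarith
    · refine (hl₀ l ((le_max_left _ _).trans h)).trans ?_
      refine mul_le_mul_of_nonneg_right ?_ (Real.exp_pos _).le
      have := le_abs_self K
      linarith
  unfold LInt
  have h1 : IntegrableOn (fun u : ℝ => (B + |K|) * Real.exp (-((w - 1) / 2) * u)) (Ioi 0) :=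
    (integrableOn_exp_mul_Ioi (by linarith) 0).const_mul _
  refine Integrable.mono' h1 ((BI_meas H.meas).mul (by fun_prop)).aestronglyMeasurable ?_
  filter_upwards [ae_restrict_mem measurableSet_Ioi] with u hu
  rw [norm_mul, Real.norm_eq_abs, Real.norm_of_nonneg (Real.exp_pos _).le]
  calc |BI S u| * Real.exp (-(w * u)) ≤
        (B + |K|) * Real.exp ((1 + (w - 1) / 2) * u) * Real.exp (-(w * u)) :=
        mul_le_mul_of_nonneg_right (hb u hu) (Real.exp_pos _).le
    _ = _ := by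
      rw [mul_assoc, ← Real.exp_add]
      congr 2
      ring

/-- **The continuation.** -/
theorem cont (H : Ld S v₀ b C) (hg : ∀ ε : ℝ, 0 < ε → ∃ K : ℝ, ∀ᶠ l : ℝ in atTop,
    |BI S l| ≤ K * Real.exp ((1 + ε) * l)) :
    ∃ E : ℂ → ℂ, (∀ z ∈ HP, DifferentiableAt ℂ E z) ∧
      ∀ z : ℂ, Real.exp b < z.re → E z = Ph S z :=
  ⟨lapC (BI S), fun _ hz => lapC_differentiableAt (BI_meas H.meas)
    (fun _ hw => BI_lint H hg hw) (HP_re hz), fun _ hz => lap_BI H hz⟩

variable {lam c : ℕ → ℝ} {δ σ κ : ℝ}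

/-- the continuation of the logarithm -/
theorem cont_log (D : Dat lam c δ σ) (hκ : 0 < κ)
    (hg : ∀ ε : ℝ, 0 < ε → ∃ K : ℝ, ∀ᶠ l : ℝ in atTop,
      |BI (fun v => Sh lam c (κ * v)) l| ≤ K * Real.exp ((1 + ε) * l)) :
    ∃ f : ℂ → ℂ, (∀ z ∈ HP, DifferentiableAt ℂ f z) ∧
      ∀ z ∈ HP, X₀ κ σ < z.re → f z = fz lam c κ z := by
  obtain ⟨E, hE, hE2⟩ := cont (Ld_Sh D hκ) hg
  refine ⟨fun z => E z * (z * log z), fun z hz => ?_, fun z hz hzX => ?_⟩
  · have h1 : DifferentiableAt ℂ (fun z : ℂ => log z) z :=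
      (Complex.hasDerivAt_log (slit (HP_pos hz))).differentiableAt
    exact (hE z hz).mul (differentiableAt_id.mul h1)
  · have hxe : Real.exp (κ * σ) < z.re := by
      refine lt_of_le_of_lt (Real.exp_le_exp.2 ?_) hzX
      nlinarith
    simp only
    rw [hE2 z hxe, Ph_Sh D hκ (hxe.trans_le (re_le_norm z))]
    have hz0 := ne_zero' (HP_pos hz)
    have hl0 := log_ne (HP_norm hz)
    unfold fz
    field_simp

/-- **The converse.** -/
theorem conv_ne (D : Dat lam c δ σ) (hκ : 0 < κ) {G : ℂ → ℂ}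
    (hG : ∀ z ∈ HP, DifferentiableAt ℂ G z)
    (hfar : ∀ z ∈ HP, Real.exp (κ * (σ + 1)) ≤ ‖z‖ → G z = exp (-DD lam c (log z / κ)))
    (hg : ∀ ε : ℝ, 0 < ε → ∃ K : ℝ, ∀ᶠ l : ℝ in atTop,
      |BI (fun v => Sh lam c (κ * v)) l| ≤ K * Real.exp ((1 + ε) * l)) :
    ∀ z ∈ HP, G z ≠ 0 := by
  obtain ⟨f, hf, hff⟩ := cont_log D hκ hg
  have a1 : AnalyticOnNhd ℂ G HP :=
    DifferentiableOn.analyticOnNhd (fun z hz => (hG z hz).differentiableWithinAt) HP_open
  have a2 : AnalyticOnNhd ℂ (fun z => exp (-f z)) HP :=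
    DifferentiableOn.analyticOnNhd (fun z hz => ((hf z hz).neg.cexp).differentiableWithinAt)
      HP_open
  have hX1 := X₀_gt hκ D.σ0
  set w₀ : ℂ := ((X₀ κ σ + 1 : ℝ) : ℂ) with hw₀
  have hre : w₀.re = X₀ κ σ + 1 := by rw [hw₀, Complex.ofReal_re]
  have hw₀H : w₀ ∈ HP := by
    change 1 < w₀.re
    rw [hre]
    linarith
  have hEq := a1.eqOn_of_preconnected_of_eventuallyEq a2 HP_convex.isPreconnected hw₀H (by
    have ho : IsOpen {s : ℂ | X₀ κ σ < s.re} := isOpen_lt continuous_const Complex.continuous_re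
    filter_upwards [ho.mem_nhds (show X₀ κ σ < w₀.re by rw [hre]; linarith)] with s hs
    have hs' : X₀ κ σ < s.re := hs
    have hsH : s ∈ HP := hX1.trans hs'
    rw [hff s hsH hs', hfar s hsH (hs'.le.trans (re_le_norm s))]
    rfl)
  intro z hz
  rw [hEq hz]
  exact Complex.exp_ne_zero _

end Pool.Agent.E8helper66.BM
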