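import Pool.Agent.E8helper66.BM.Gen
import Pool.Agent.TH270.MS.EQ3

/-!
# Elliptic curves over `ℚ`
-/

set_option autoImplicit false

open MeasureTheory Filter Topology Set Complex
open Pool.Agent.TH942.LS (Dat P P_le)
open Pool.Agent.TH942.SL
open Pool.Agent.TH942.ES
open Pool.Agent.TH270.MS (Sh sh_le sh_zero sh_meas sh_eq Pl)
open Pool.Agent.TH270.RS (cS' dat' DD_neg)
open Pool.Agent.TH270.MS.EQ
open Pool.Agent.W263.BSD (GoodPrime pointCount IsLSeries bsdProduct bsdStar bsdProduct_pos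
  bsdStar_pos rsSum corr_tendsto)

namespace Pool.Agent.E8helper66.BM

variable {a b : ℤ} {F : ℂ → ℂ} {κ : ℝ}

/-- the data of a curve -/
theorem curve_data (hF : IsLSeries a b F) {m : ℕ} (hm : analyticOrderAt F 1 = m) :
    ∃ (lam c : ℕ → ℝ) (g : ℂ → ℂ), Gn lam c (Real.log 2) 1 (fun s => F (1 + s)) g m ∧
      g 0 = iteratedDeriv m F 1 / (m.factorial : ℂ) ∧
      ∀ T, Sh lam c T = -Pl (nQ a b) (alQ a b) (Real.exp T) := by
  have E := sysQ a b
  have := E.cnt
  obtain ⟨e, he⟩ := Countable.exists_injective_nat ({p : ℕ // GoodPrime a b p} × ℕ)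
  have hFa : AnalyticAt ℂ F 1 := hF.1.analyticAt 1
  have hm' := hm
  rw [hFa.analyticOrderAt_eq_natCast] at hm'
  obtain ⟨g₁, hg, hg1, hge⟩ := hm'
  have hc : Tendsto (fun s : ℂ => 1 + s) (𝓝 0) (𝓝 1) := by
    have : Continuous fun s : ℂ => 1 + s := by fun_prop
    simpa using this.tendsto 0
  have hga : AnalyticAt ℂ (fun s : ℂ => g₁ (1 + s)) 0 := by
    have h1 : AnalyticAt ℂ (fun s : ℂ => 1 + s) 0 := by fun_prop
    exact AnalyticAt.comp (f := fun s : ℂ => 1 + s) (by simpa using hg) h1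
  have hnear : ∀ᶠ s in 𝓝 (0 : ℂ), F (1 + s) = s ^ m * g₁ (1 + s) := by
    filter_upwards [hc.eventually hge] with s hs
    rw [hs, add_sub_cancel_left, smul_eq_mul]
  refine ⟨lamS (nQ a b) e, cS' (nQ a b) (alQ a b) e, fun s => g₁ (1 + s),
    ⟨dat' E he, ?_, fun s hs => ?_, hga, ?_, hnear⟩, ?_, fun T => sh_eq E he T⟩
  · exact hF.1.comp (by fun_prop)
  · rw [DD_neg, E.exp_DD (fun v k => hrealQ v k) he (by linarith), ← LE_Q hF (by linarith)]
  · simpa using hg1
  · -- the leading coefficient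
    have h1 := (coeff_lim hF.1 hm).2
    have h2 : Tendsto (fun s : ℂ => F (1 + s) / s ^ m) (𝓝[≠] 0) (𝓝 (g₁ (1 + 0))) := by
      refine (hga.continuousAt.tendsto.mono_left nhdsWithin_le_nhds).congr' ?_
      filter_upwards [nhdsWithin_le_nhds hnear, self_mem_nhdsWithin] with s h3 h4
      have h5 : s ≠ 0 := h4
      rw [h3]
      field_simp
    exact tendsto_nhds_unique h2 h1

/-! ### the products -/

lemma floor_lt_three {x : ℝ} (hx : x < 3) {p : ℕ} (hp : p ∈ Finset.range (⌊x⌋₊ + 1)) :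
    ¬ GoodPrime a b p := by
  intro h
  rw [Finset.mem_range] at hp
  have h1 : ⌊x⌋₊ < 3 := by
    rcases le_or_gt 0 x with h2 | h2
    · exact (Nat.floor_lt h2).2 hx
    · rw [Nat.floor_of_nonpos h2.le]
      norm_num
  have h2 := h.1.two_le
  have h3 : p = 2 := by omega
  rw [h3] at h
  exact h.2 (Dvd.intro _ rfl)

lemma product_small {x : ℝ} (hx : x < 3) : bsdProduct a b x = 1 := by
  classical
  unfold bsdProduct
  rw [Finset.filter_false_of_mem fun p hp => floor_lt_three hx hp, Finset.prod_empty]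

lemma star_small {x : ℝ} (hx : x < 3) : bsdStar a b x = 1 := by
  classical
  unfold bsdStar
  rw [product_small hx, Finset.filter_false_of_mem fun p hp h => floor_lt_three hx hp h.1,
    Finset.sum_empty, Real.exp_zero, one_mul]

lemma product_meas (a b : ℤ) : Measurable fun x : ℝ => Real.log (bsdProduct a b x) := by
  classical
  have h1 : Measurable fun n : ℕ => Real.log (∏ p ∈ (Finset.range (n + 1)).filter (GoodPrime a b),
      (((pointCount a b p : ℝ) + 1) / p)) := measurable_from_top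
  exact h1.comp Nat.measurable_floor

lemma corr_meas (a b : ℤ) : Measurable fun x : ℝ =>
    Real.log (bsdStar a b x) - Real.log (bsdProduct a b x) := by
  classical
  set w : ℕ → ℝ := fun p => (((p : ℝ) - pointCount a b p) ^ 2 - 2 * p) / (2 * (p : ℝ) ^ 2) with hw
  have h1 : ∀ n : ℕ, Measurable fun x : ℝ => ∑ p ∈ Finset.range (n + 1),
      if GoodPrime a b p ∧ √x < p then w p else 0 := by
    intro n
    refine Finset.measurable_fun_sum _ fun p _ => ?_
    by_cases hp : GoodPrime a b p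
    · simp only [hp, true_and]
      exact Measurable.ite (measurableSet_lt (by fun_prop) measurable_const) measurable_const
        measurable_const
    · simp only [hp, false_and, if_false]
      exact measurable_const
  have h2 : Measurable fun q : ℕ × ℝ => ∑ p ∈ Finset.range (q.1 + 1),
      if GoodPrime a b p ∧ √q.2 < p then w p else 0 :=
    measurable_from_prod_countable_right h1
  have h3 : (fun x : ℝ => Real.log (bsdStar a b x) - Real.log (bsdProduct a b x)) =
      fun x : ℝ => ∑ p ∈ Finset.range (⌊x⌋₊ + 1), if GoodPrime a b p ∧ √x < p then w p else 0 := by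
    funext x
    unfold bsdStar
    rw [Real.log_mul (bsdProduct_pos x).ne' (Real.exp_pos _).ne', Real.log_exp,
      add_sub_cancel_left, Finset.sum_filter]
  rw [h3]
  exact h2.comp (Nat.measurable_floor.prodMk measurable_id)

lemma star_meas (a b : ℤ) : Measurable fun x : ℝ => Real.log (bsdStar a b x) := by
  have := (corr_meas a b).add (product_meas a b)
  simpa only [Pi.add_def, sub_add_cancel] using this

/-- `v ↦ log P (exp (κ v))` -/
noncomputable def SP (a b : ℤ) (κ v : ℝ) : ℝ := Real.log (bsdProduct a b (Real.exp (κ * v)))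

/-- `v ↦ log P* (exp (κ v))` -/
noncomputable def SPs (a b : ℤ) (κ v : ℝ) : ℝ := Real.log (bsdStar a b (Real.exp (κ * v)))

lemma SP_meas (a b : ℤ) (κ : ℝ) : Measurable (SP a b κ) :=
  (product_meas a b).comp (Real.measurable_exp.comp (measurable_const_mul κ))

lemma SPs_meas (a b : ℤ) (κ : ℝ) : Measurable (SPs a b κ) :=
  (star_meas a b).comp (Real.measurable_exp.comp (measurable_const_mul κ))

lemma exp_lt_three {t : ℝ} (ht : t < 1) : Real.exp t < 3 := by
  have h1 : Real.exp t < Real.exp 1 := Real.exp_lt_exp.2 ht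
  have := Real.exp_one_lt_d9
  linarith

/-- the star product is the sharp sum up to an exponentially small error -/
theorem star_diff (hκ : 0 < κ) {lam c : ℕ → ℝ} {δ σ : ℝ} (D : Dat lam c δ σ)
    (hS : ∀ T, Sh lam c T = -Pl (nQ a b) (alQ a b) (Real.exp T)) :
    ∃ K : ℝ, 0 ≤ K ∧ ∀ v : ℝ, 0 < v →
      |SPs a b κ v - Sh lam c (κ * v)| ≤ K * Real.exp (-(κ / 12 * v)) := by
  obtain ⟨K, hK⟩ := star_close a b
  have hσ := D.σ0
  set S₁ : ℝ := S₀ lam c σ with hS₁
  have hS₁0 : 0 ≤ S₁ := S₀_nonneg lam c σ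
  refine ⟨|K| + Real.exp σ * S₁ * Real.exp (1 / 12), by positivity, fun v hv => ?_⟩
  rcases lt_or_ge (κ * v) 1 with h | h
  · unfold SPs
    rw [star_small (exp_lt_three h), Real.log_one, zero_sub, abs_neg]
    have h1 := sh_le D (κ * v)
    have h2 : Real.exp (σ * (κ * v)) ≤ Real.exp σ := Real.exp_le_exp.2 (by nlinarith)
    have h3 : 1 ≤ Real.exp (1 / 12) * Real.exp (-(κ / 12 * v)) := by
      rw [← Real.exp_add]
      exact Real.one_le_exp (by linarith)
    calc |Sh lam c (κ * v)| ≤ Real.exp σ * S₁ := h1.trans (mul_le_mul_of_nonneg_right h2 hS₁0)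
      _ = Real.exp σ * S₁ * 1 := (mul_one _).symm
      _ ≤ Real.exp σ * S₁ * (Real.exp (1 / 12) * Real.exp (-(κ / 12 * v))) := by gcongr
      _ ≤ _ := by
        have : 0 ≤ |K| * Real.exp (-(κ / 12 * v)) := by positivity
        nlinarith
  · have h1 := hK (Real.exp (κ * v)) (Real.exp_le_exp.2 h)
    rw [← Real.exp_mul] at h1
    have e1 : κ * v * -(1 / 12) = -(κ / 12 * v) := by ring
    rw [e1] at h1
    unfold SPs
    rw [hS, sub_neg_eq_add]
    have h2 : K ≤ |K| := le_abs_self K
    have h3 := Real.exp_pos (-(κ / 12 * v))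
    have h4 : 0 ≤ Real.exp σ * S₁ * Real.exp (1 / 12) := by positivity
    calc _ ≤ K * Real.exp (-(κ / 12 * v)) := h1
      _ ≤ _ := mul_le_mul_of_nonneg_right (by linarith) h3.le

/-- the difference of the two products -/
theorem prod_diff (hΔ : 4 * a ^ 3 + 27 * b ^ 2 ≠ 0) (hrs : Tendsto (rsSum a b) atTop (𝓝 0))
    (hκ : 0 < κ) :
    (∃ M : ℝ, ∀ v : ℝ, 0 < v → |SP a b κ v - SPs a b κ v| ≤ M) ∧
      Tendsto (fun v => SP a b κ v - SPs a b κ v) atTop (𝓝 (Real.log 2 / 2)) := by
  constructor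
  · obtain ⟨M, hM⟩ := product_close hΔ hrs
    obtain ⟨K, hK⟩ := star_close a b
    refine ⟨|M| + |K|, fun v hv => ?_⟩
    rcases lt_or_ge (κ * v) 1 with h | h
    · unfold SP SPs
      rw [star_small (exp_lt_three h), product_small (exp_lt_three h), sub_self, abs_zero]
      positivity
    · have hx : Real.exp 1 ≤ Real.exp (κ * v) := Real.exp_le_exp.2 h
      have h1 := hM _ hx
      have h2 := hK _ hx
      have h3 : Real.exp (κ * v) ^ (-(1 / 12 : ℝ)) ≤ 1 :=
        Real.rpow_le_one_of_one_le_of_nonpos (by linarith [Real.add_one_le_exp (1 : ℝ)])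
          (by norm_num)
      have h4 : 0 ≤ Real.exp (κ * v) ^ (-(1 / 12 : ℝ)) := by positivity
      have h5 : K * Real.exp (κ * v) ^ (-(1 / 12 : ℝ)) ≤ |K| := by
        calc _ ≤ |K| * Real.exp (κ * v) ^ (-(1 / 12 : ℝ)) :=
              mul_le_mul_of_nonneg_right (le_abs_self K) h4
          _ ≤ |K| * 1 := by gcongr
          _ = |K| := mul_one _
      unfold SP SPs
      have e1 : Real.log (bsdProduct a b (Real.exp (κ * v))) -
          Real.log (bsdStar a b (Real.exp (κ * v))) =
          (Real.log (bsdProduct a b (Real.exp (κ * v))) + Pl (nQ a b) (alQ a b) (Real.exp (κ * v))) -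
          (Real.log (bsdStar a b (Real.exp (κ * v))) + Pl (nQ a b) (alQ a b) (Real.exp (κ * v))) := by
        ring
      rw [e1]
      refine (abs_sub _ _).trans (add_le_add (h1.trans (le_abs_self M)) (h2.trans h5))
  · have h1 := (corr_lim hΔ hrs).neg
    rw [neg_neg] at h1
    have h2 : Tendsto (fun v : ℝ => Real.exp (κ * v)) atTop atTop :=
      Real.tendsto_exp_atTop.comp (tendsto_id.const_mul_atTop hκ)
    refine (h1.comp h2).congr fun v => ?_
    unfold SP SPs
    simp only [Function.comp_apply]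
    ring

/-- the integral of the sum -/
lemma BI_add {S₁ S₂ : ℝ → ℝ} {l : ℝ} (h1 : IntegrableOn (fun v => Kr l v * S₁ v) (Ioi 0))
    (h2 : IntegrableOn (fun v => Kr l v * S₂ v) (Ioi 0)) :
    BI (fun v => S₁ v + S₂ v) l = BI S₁ l + BI S₂ l := by
  unfold BI
  rw [← integral_add h1 h2]
  refine setIntegral_congr_fun measurableSet_Ioi fun v _ => ?_
  ring

/-- the means of an exponentially small function -/
theorem small_mean {K κ' : ℝ} (hK : 0 ≤ K) (hκ' : 0 < κ') {Δ : ℝ → ℝ} (hm : Measurable Δ)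
    (hb : ∀ v : ℝ, 0 < v → |Δ v| ≤ K * Real.exp (-(κ' * v))) :
    ∃ C : ℝ, 0 ≤ C ∧ ∀ᶠ l : ℝ in atTop, |Real.exp (-l) * BI Δ l| ≤ C / l := by
  set θ : ℝ := Real.exp (-κ') with hθ
  have hθ0 : 0 < θ := Real.exp_pos _
  have hθ1 : θ < 1 := by
    rw [hθ, Real.exp_lt_one_iff]
    linarith
  have h1 : Tendsto (fun l : ℝ => θ * l) atTop atTop := tendsto_id.const_mul_atTop hθ0
  have hN := h1.eventually (norm_tendsto.eventually (gt_mem_nhds (show (1 : ℝ) < 2 by norm_num)))
  refine ⟨2 * K / (1 - θ), by have : 0 < 1 - θ := by linarith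
                              positivity, ?_⟩
  filter_upwards [hN, eventually_gt_atTop 0] with l h2 hl
  have hθl : 0 < θ * l := by positivity
  have hKr : ∀ v : ℝ, Kr l v * Real.exp (-(κ' * v)) = Kr (θ * l) v := by
    intro v
    unfold Kr
    rw [Real.mul_rpow hθ0.le hl.le, hθ, ← Real.exp_mul]
    have : -κ' * v = -(κ' * v) := by ring
    rw [this]
    ring
  have hi : IntegrableOn (fun v => Kr l v * Δ v) (Ioi 0) :=
    kr_mul_int (M := K) hl hm fun v hv => (hb v hv).trans (by
      have : Real.exp (-(κ' * v)) ≤ 1 := Real.exp_le_one_iff.2 (by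
        have := mul_pos hκ' hv
        linarith)
      calc K * Real.exp (-(κ' * v)) ≤ K * 1 := by gcongr
        _ = K := mul_one _)
  have h3 : |BI Δ l| ≤ K * ∫ v in Ioi (0 : ℝ), Kr (θ * l) v := by
    unfold BI
    rw [← Real.norm_eq_abs, ← integral_const_mul]
    refine (norm_integral_le_integral_norm _).trans ?_
    refine setIntegral_mono_on hi.norm ((kr_int hθl).const_mul _) measurableSet_Ioi fun v hv => ?_
    have hv0 : (0 : ℝ) < v := hv
    rw [norm_mul, Real.norm_eq_abs, Real.norm_eq_abs, abs_of_nonneg (Kr_nonneg hl hv0.le), ← hKr]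
    calc Kr l v * |Δ v| ≤ Kr l v * (K * Real.exp (-(κ' * v))) :=
          mul_le_mul_of_nonneg_left (hb v hv0) (Kr_nonneg hl hv0.le)
      _ = _ := by ring
  have h4 : ∫ v in Ioi (0 : ℝ), Kr (θ * l) v ≤ 2 * Real.exp (θ * l) := by
    have e1 : Real.exp (θ * l) * Real.exp (-(θ * l)) = 1 := by
      rw [← Real.exp_add]
      simp
    have e2 := Real.exp_pos (θ * l)
    calc ∫ v in Ioi (0 : ℝ), Kr (θ * l) v =
          Real.exp (θ * l) * (Real.exp (-(θ * l)) * ∫ v in Ioi (0 : ℝ), Kr (θ * l) v) := by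
          rw [← mul_assoc, e1, one_mul]
      _ ≤ Real.exp (θ * l) * 2 := mul_le_mul_of_nonneg_left h2.le e2.le
      _ = _ := mul_comm _ _
  have h5 : Real.exp (-l) * Real.exp (θ * l) ≤ 1 / ((1 - θ) * l) := by
    rw [← Real.exp_add]
    have e1 : 0 < (1 - θ) * l := mul_pos (by linarith) hl
    have e2 : -l + θ * l = -((1 - θ) * l) := by ring
    rw [e2, Real.exp_neg, ← one_div]
    refine one_div_le_one_div_of_le e1 ?_
    have := Real.add_one_le_exp ((1 - θ) * l)
    linarith
  rw [abs_mul, Real.abs_exp]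
  calc Real.exp (-l) * |BI Δ l| ≤ Real.exp (-l) * (K * (2 * Real.exp (θ * l))) := by
        gcongr
        exact h3.trans (mul_le_mul_of_nonneg_left h4 hK)
    _ = 2 * K * (Real.exp (-l) * Real.exp (θ * l)) := by ring
    _ ≤ 2 * K * (1 / ((1 - θ) * l)) := by gcongr
    _ = _ := by
      have : 1 - θ ≠ 0 := by linarith
      field_simp

end Pool.Agent.E8helper66.BM
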