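import Pool.Agent.E8helper66.BM.EQ

/-!
# The criterion
-/

set_option autoImplicit false

open MeasureTheory Filter Topology Set Complex
open Pool.Agent.TH942.LS (Dat P P_le)
open Pool.Agent.TH942.SL
open Pool.Agent.TH270.MS (Sh sh_le sh_zero sh_meas sh_eq Pl)
open Pool.Agent.TH270.MS.EQ
open Pool.Agent.W263.BSD (GoodPrime pointCount IsLSeries bsdProduct bsdStar bsdProduct_pos
  bsdStar_pos rsSum corr_tendsto)

namespace Pool.Agent.E8helper66.BM

variable {a b : ℤ} {F : ℂ → ℂ} {κ : ℝ}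

/-! ### the regions -/

/-- the region -/
def Rg (κ : ℝ) : Set ℂ := {s | |κ * s.im| < Real.pi / 2 ∧ 1 < (exp (κ * (s - 1))).re}

lemma rg_re_im (κ : ℝ) (s : ℂ) : (exp (κ * (s - 1))).re =
    Real.exp (κ * (s.re - 1)) * Real.cos (κ * s.im) := by
  rw [Complex.exp_re]
  simp

lemma rg_gt (hκ : 0 < κ) {s : ℂ} (hs : s ∈ Rg κ) : 1 < s.re := by
  have h1 := hs.2
  rw [rg_re_im] at h1
  by_contra h
  have h2 : Real.exp (κ * (s.re - 1)) ≤ 1 := Real.exp_le_one_iff.2 (by nlinarith)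
  have h3 := Real.cos_le_one (κ * s.im)
  have h4 := Real.exp_pos (κ * (s.re - 1))
  have h5 : Real.exp (κ * (s.re - 1)) * Real.cos (κ * s.im) ≤
      Real.exp (κ * (s.re - 1)) * 1 := mul_le_mul_of_nonneg_left h3 h4.le
  linarith

/-- the region is the image of the half plane -/
theorem rg_iff (hκ : 0 < κ) : (∀ s ∈ Rg κ, F s ≠ 0) ↔ ∀ z ∈ HP, F (1 + log z / κ) ≠ 0 := by
  have hκc : (κ : ℂ) ≠ 0 := by exact_mod_cast hκ.ne'
  have hpi := Real.pi_pos
  constructor
  · intro h z hz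
    have hz0 := ne_zero' (HP_pos hz)
    refine h _ ⟨?_, ?_⟩
    · have e1 : κ * (1 + log z / κ : ℂ).im = arg z := by
        rw [Complex.add_im, Complex.one_im, zero_add, Complex.div_ofReal_im, Complex.log_im]
        field_simp
      rw [e1]
      exact arg_abs (HP_pos hz)
    · have e1 : (κ : ℂ) * (1 + log z / κ - 1) = log z := by
        field_simp
        ring
      rw [e1, Complex.exp_log hz0]
      exact HP_re hz
  · intro h s hs
    have h1 : exp (κ * (s - 1)) ∈ HP := hs.2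
    have h2 := h _ h1
    have h3 : ((κ : ℂ) * (s - 1)).im = κ * s.im := by simp
    have h4 := abs_lt.1 hs.1
    rw [Complex.log_exp (by rw [h3]; linarith) (by rw [h3]; linarith)] at h2
    have e1 : 1 + (κ : ℂ) * (s - 1) / κ = s := by
      field_simp
      ring
    rwa [e1] at h2

/-- the regions decrease -/
theorem rg_mono {κ' : ℝ} (hκ' : 0 < κ') (h : κ' ≤ κ) : Rg κ ⊆ Rg κ' := by
  intro s hs
  have hκ : 0 < κ := hκ'.trans_le h
  have hpi := Real.pi_pos
  have h1 := abs_lt.1 hs.1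
  have h2 := hs.2
  rw [rg_re_im] at h2
  set θ : ℝ := κ' / κ with hθ
  have hθ0 : 0 < θ := by positivity
  have hθ1 : θ ≤ 1 := by rw [hθ, div_le_one hκ]; exact h
  set u : ℝ := κ * s.im with hu
  have hu' : κ' * s.im = θ * u := by
    rw [hu, hθ]
    field_simp
  have hcos : 0 < Real.cos u := Real.cos_pos_of_mem_Ioo ⟨by linarith, by linarith⟩
  constructor
  · rw [hu', abs_mul, abs_of_pos hθ0]
    calc θ * |u| ≤ 1 * |u| := by gcongr
      _ = |u| := one_mul _
      _ < _ := hs.1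
  · rw [rg_re_im, hu']
    have e1 : Real.exp (κ' * (s.re - 1)) = Real.exp (κ * (s.re - 1)) ^ θ := by
      rw [← Real.exp_mul]
      congr 1
      rw [hθ]
      field_simp
    have e2 : Real.cos u ^ θ ≤ Real.cos (θ * u) := by
      have hu1 : u ∈ Icc (-(Real.pi / 2)) (Real.pi / 2) := ⟨by linarith, by linarith⟩
      have hu2 : (0 : ℝ) ∈ Icc (-(Real.pi / 2)) (Real.pi / 2) := ⟨by linarith, by linarith⟩
      have h3 := strictConcaveOn_cos_Icc.concaveOn.2 hu1 hu2 hθ0.le
        (by linarith : (0 : ℝ) ≤ 1 - θ) (by ring)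
      have h4 := Real.geom_mean_le_arith_mean2_weighted hθ0.le (by linarith : 0 ≤ 1 - θ) hcos.le
        zero_le_one (by ring)
      rw [Real.one_rpow, mul_one] at h4
      simp only [smul_eq_mul, mul_zero, add_zero, Real.cos_zero] at h3
      linarith
    have h5 : 1 < (Real.exp (κ * (s.re - 1)) * Real.cos u) ^ θ := Real.one_lt_rpow h2 hθ0
    rw [Real.mul_rpow (Real.exp_pos _).le hcos.le, ← e1] at h5
    exact h5.trans_le (mul_le_mul_of_nonneg_left e2 (Real.exp_pos _).le)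

/-- the real half line is in all regions -/
lemma rg_real (hκ : 0 < κ) {x : ℝ} (hx : 1 < x) : (x : ℂ) ∈ Rg κ := by
  refine ⟨by simp [Real.pi_pos], ?_⟩
  rw [rg_re_im]
  simp only [Complex.ofReal_re, Complex.ofReal_im, mul_zero, Real.cos_zero, mul_one]
  rw [Real.one_lt_exp_iff]
  exact mul_pos hκ (by linarith)

/-- the regions exhaust the half plane -/
theorem rg_exhaust {s : ℂ} (hs : 1 < s.re) : ∃ κ : ℝ, 0 < κ ∧ s ∈ Rg κ := by
  have hpi := Real.pi_gt_three
  set x : ℝ := s.re - 1 with hx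
  set t : ℝ := s.im with ht
  have hx0 : 0 < x := by rw [hx]; linarith
  set κ : ℝ := min (1 / (|t| + 1)) (x / (t ^ 2 * (1 + x) + 1)) with hκ
  have hκ0 : 0 < κ := lt_min (by positivity) (by positivity)
  have h1 : κ * (|t| + 1) ≤ 1 := by
    have : κ ≤ 1 / (|t| + 1) := min_le_left _ _
    rwa [le_div_iff₀ (by positivity)] at this
  have h2 : κ * (t ^ 2 * (1 + x) + 1) ≤ x := by
    have : κ ≤ x / (t ^ 2 * (1 + x) + 1) := min_le_right _ _
    rwa [le_div_iff₀ (by positivity)] at this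
  have hκ1 : κ ≤ 1 := by
    have := mul_nonneg hκ0.le (abs_nonneg t)
    nlinarith
  refine ⟨κ, hκ0, ?_, ?_⟩
  · rw [abs_mul, abs_of_pos hκ0]
    nlinarith
  · rw [rg_re_im]
    have h3 : 1 - (κ * t) ^ 2 / 2 ≤ Real.cos (κ * t) := Real.one_sub_sq_div_two_le_cos
    have h4 : κ * x + 1 ≤ Real.exp (κ * x) := Real.add_one_le_exp _
    have h5 : |κ * t| ≤ 1 := by
      rw [abs_mul, abs_of_pos hκ0]
      nlinarith
    have h6 : 0 ≤ 1 - (κ * t) ^ 2 / 2 := by
      have : (κ * t) ^ 2 ≤ 1 := (sq_le_one_iff_abs_le_one _).2 h5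
      linarith
    have h7 : 1 < (κ * x + 1) * (1 - (κ * t) ^ 2 / 2) := by
      have e1 : (κ * x + 1) * (1 - (κ * t) ^ 2 / 2) =
          1 + κ * (x - κ * (t ^ 2 * (1 + κ * x)) / 2) := by ring
      have e2 : κ * (t ^ 2 * (1 + κ * x)) ≤ κ * (t ^ 2 * (1 + x)) := by
        have : κ * x ≤ x := by nlinarith
        gcongr
      have e3 : 0 < x - κ * (t ^ 2 * (1 + κ * x)) / 2 := by nlinarith
      have e4 := mul_pos hκ0 e3
      rw [e1]
      linarith
    refine h7.trans_le (mul_le_mul h4 h3 h6 (Real.exp_pos _).le)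

/-- **no real zeros and large `κ`** -/
theorem real_iff {lam c : ℕ → ℝ} {δ : ℝ} {g : ℂ → ℂ} {m : ℕ}
    (H : Gn lam c δ 1 (fun s => F (1 + s)) g m) :
    (∃ κ : ℝ, 0 < κ ∧ ∀ s ∈ Rg κ, F s ≠ 0) ↔ ∀ x : ℝ, 1 < x → F x ≠ 0 := by
  constructor
  · rintro ⟨κ, hκ, h⟩ x hx
    exact h _ (rg_real hκ hx)
  intro h
  have hFc : Continuous fun s : ℂ => F (1 + s) := H.hG.continuous
  -- near `0`
  have h0 : ∀ᶠ s in 𝓝 (0 : ℂ), s ≠ 0 → F (1 + s) ≠ 0 := by
    filter_upwards [H.near, H.hg.continuousAt.eventually_ne H.hg0] with s h1 h2 h3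
    have h4 : F (1 + s) = s ^ m * g s := h1
    rw [h4]
    exact mul_ne_zero (pow_ne_zero _ h3) h2
  obtain ⟨r, hr, hr2⟩ := Metric.eventually_nhds_iff_ball.1 h0
  -- the segment
  set K : Set ℂ := (fun x : ℝ => (x : ℂ)) '' Icc (r / 2) 1 with hK
  have hKc : IsCompact K := isCompact_Icc.image Complex.continuous_ofReal
  set Z : Set ℂ := {s | F (1 + s) = 0} with hZ
  have hZc : IsClosed Z := isClosed_eq hFc continuous_const
  have hd : Disjoint K Z := by
    rw [Set.disjoint_left]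
    rintro _ ⟨x, hx, rfl⟩ h1
    have h2 : F (1 + (x : ℂ)) = 0 := h1
    have h3 := h (1 + x) (by linarith [hx.1])
    rw [Complex.ofReal_add, Complex.ofReal_one] at h3
    exact h3 h2
  obtain ⟨d, hd0, hdd⟩ := hd.exists_thickenings hKc hZc
  set η : ℝ := min d (r / 2) with hη
  have hη0 : 0 < η := lt_min hd0 (by positivity)
  have hpi := Real.pi_pos
  refine ⟨Real.pi / (2 * η), by positivity, fun s hs h1 => ?_⟩
  have hκ : 0 < Real.pi / (2 * η) := by positivity
  have hre := rg_gt hκ hs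
  have him : |s.im| < η := by
    have h2 := hs.1
    rw [abs_mul, abs_of_pos hκ, div_mul_eq_mul_div, div_lt_div_iff₀ (by positivity) two_pos] at h2
    have h3 : Real.pi * (|s.im| * 2) < Real.pi * (2 * η) := by linarith
    have := lt_of_mul_lt_mul_left h3 hpi.le
    linarith
  set w : ℂ := s - 1 with hw
  have hsw : s = 1 + w := by rw [hw]; ring
  have hwr : w.re = s.re - 1 := by rw [hw]; simp
  have hwi : w.im = s.im := by rw [hw]; simp
  rw [hsw] at h1
  rcases lt_or_ge 1 w.re with h2 | h2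
  · have h3 : exp (-DD lam c w) = F (1 + w) := H.hexp w h2
    rw [h1] at h3
    exact Complex.exp_ne_zero _ h3
  · rcases lt_or_ge w.re (r / 2) with h3 | h3
    · refine hr2 w ?_ ?_ h1
      · rw [Metric.mem_ball, dist_zero_right]
        have e1 := Complex.norm_le_abs_re_add_abs_im w
        have e2 : |w.re| = w.re := abs_of_pos (by rw [hwr]; linarith)
        have e3 : η ≤ r / 2 := min_le_right _ _
        rw [e2, hwi] at e1
        linarith
      · intro h4
        rw [h4] at hwr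
        simp only [Complex.zero_re] at hwr
        linarith
    · have h4 : w ∈ Metric.thickening d K := by
        rw [Metric.mem_thickening_iff]
        refine ⟨(w.re : ℂ), ⟨w.re, ⟨h3, h2⟩, rfl⟩, ?_⟩
        rw [Complex.dist_eq]
        have e1 : w - (w.re : ℂ) = (w.im : ℂ) * I := by
          refine Complex.ext ?_ ?_ <;> simp
        rw [e1, norm_mul, Complex.norm_I, mul_one, Complex.norm_real, Real.norm_eq_abs, hwi]
        exact him.trans_le (min_le_left _ _)
      have h5 : w ∈ Metric.thickening d Z := Metric.self_subset_thickening hd0 _ h1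
      exact Set.disjoint_left.1 hdd h4 h5

/-! ### the means of the products -/

/-- the Borel mean of the product -/
noncomputable def bm (a b : ℤ) (κ l : ℝ) : ℝ := Real.exp (-l) * BI (SP a b κ) l

/-- the Borel mean of the product over the prime powers -/
noncomputable def bms (a b : ℤ) (κ l : ℝ) : ℝ := Real.exp (-l) * BI (SPs a b κ) l

/-- the comparison -/
theorem compare (hΔ : 4 * a ^ 3 + 27 * b ^ 2 ≠ 0) (hrs : Tendsto (rsSum a b) atTop (𝓝 0))
    (hκ : 0 < κ) {lam c : ℕ → ℝ} {δ σ : ℝ} (D : Dat lam c δ σ)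
    (hS : ∀ T, Sh lam c T = -Pl (nQ a b) (alQ a b) (Real.exp T)) :
    (∀ l : ℝ, 0 < l → IntegrableOn (fun v => Kr l v * SP a b κ v) (Ioi 0)) ∧
    (∃ C : ℝ, 0 ≤ C ∧ ∀ᶠ l : ℝ in atTop,
      |bms a b κ l - Real.exp (-l) * BI (fun v => Sh lam c (κ * v)) l| ≤ C / l) ∧
    Tendsto (fun l => bm a b κ l - bms a b κ l) atTop (𝓝 (Real.log 2 / 2)) ∧
    ∃ M : ℝ, ∀ᶠ l : ℝ in atTop,
      |bm a b κ l - Real.exp (-l) * BI (fun v => Sh lam c (κ * v)) l| ≤ M := by
  obtain ⟨K, hK, hKb⟩ := star_diff (κ := κ) hκ D hS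
  obtain ⟨⟨M, hM⟩, hlim⟩ := prod_diff hΔ hrs hκ
  have hL := Ld_Sh D hκ
  have hx : Real.exp (κ * σ) < Real.exp (κ * σ) + 1 := lt_add_one _
  have hKb' : ∀ v : ℝ, 0 < v → |SPs a b κ v - Sh lam c (κ * v)| ≤ K := fun v hv =>
    (hKb v hv).trans (by
      have : Real.exp (-(κ / 12 * v)) ≤ 1 := Real.exp_le_one_iff.2 (by
        have : 0 < κ / 12 * v := by positivity
        linarith)
      calc K * Real.exp (-(κ / 12 * v)) ≤ K * 1 := by gcongr
        _ = K := mul_one _)
  have m1 : Measurable fun v => SPs a b κ v - Sh lam c (κ * v) := (SPs_meas a b κ).sub hL.meas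
  have m2 : Measurable fun v => SP a b κ v - SPs a b κ v := (SP_meas a b κ).sub (SPs_meas a b κ)
  have i0 : ∀ l : ℝ, 0 < l → IntegrableOn (fun v => Kr l v * Sh lam c (κ * v)) (Ioi 0) :=
    fun l hl => (BI_rep hL hl hx).1
  have i1 : ∀ l : ℝ, 0 < l →
      IntegrableOn (fun v => Kr l v * (SPs a b κ v - Sh lam c (κ * v))) (Ioi 0) :=
    fun l hl => kr_mul_int hl m1 hKb'
  have i2 : ∀ l : ℝ, 0 < l →
      IntegrableOn (fun v => Kr l v * (SP a b κ v - SPs a b κ v)) (Ioi 0) :=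
    fun l hl => kr_mul_int hl m2 hM
  have i3 : ∀ l : ℝ, 0 < l → IntegrableOn (fun v => Kr l v * SPs a b κ v) (Ioi 0) := by
    intro l hl
    refine ((i1 l hl).add (i0 l hl)).congr (ae_of_all _ fun v => ?_)
    simp only [Pi.add_apply]
    ring
  have i4 : ∀ l : ℝ, 0 < l → IntegrableOn (fun v => Kr l v * SP a b κ v) (Ioi 0) := by
    intro l hl
    refine ((i2 l hl).add (i3 l hl)).congr (ae_of_all _ fun v => ?_)
    simp only [Pi.add_apply]
    ring
  have e1 : ∀ l : ℝ, 0 < l → bms a b κ l - Real.exp (-l) * BI (fun v => Sh lam c (κ * v)) l =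
      Real.exp (-l) * BI (fun v => SPs a b κ v - Sh lam c (κ * v)) l := by
    intro l hl
    have := BI_add (i1 l hl) (i0 l hl)
    simp only [sub_add_cancel] at this
    unfold bms
    have e : BI (SPs a b κ) l = BI (fun v => SPs a b κ v) l := rfl
    rw [e, this]
    ring
  have e2 : ∀ l : ℝ, 0 < l → bm a b κ l - bms a b κ l =
      Real.exp (-l) * BI (fun v => SP a b κ v - SPs a b κ v) l := by
    intro l hl
    have := BI_add (i2 l hl) (i3 l hl)
    simp only [sub_add_cancel] at this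
    unfold bm bms
    have e : BI (SP a b κ) l = BI (fun v => SP a b κ v) l := rfl
    have e' : BI (SPs a b κ) l = BI (fun v => SPs a b κ v) l := rfl
    rw [e, e', this]
    ring
  obtain ⟨C, hC, hCb⟩ := small_mean hK (by positivity : 0 < κ / 12) m1 hKb
  have b1 := bdd m1 hKb'
  have b2 := bdd m2 hM
  refine ⟨i4, ⟨C, hC, ?_⟩, ?_, 2 * K + 2 * M, ?_⟩
  · filter_upwards [hCb, eventually_gt_atTop 0] with l h1 h2
    rw [e1 l h2]
    exact h1
  · refine (reg m2 hM hlim).congr' ?_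
    filter_upwards [eventually_gt_atTop 0] with l hl
    rw [e2 l hl]
  · filter_upwards [b1, b2, eventually_gt_atTop 0] with l h1 h2 h3
    rw [← e1 l h3] at h1
    rw [← e2 l h3] at h2
    have e3 : bm a b κ l - Real.exp (-l) * BI (fun v => Sh lam c (κ * v)) l =
        (bms a b κ l - Real.exp (-l) * BI (fun v => Sh lam c (κ * v)) l) +
        (bm a b κ l - bms a b κ l) := by ring
    rw [e3]
    exact (abs_add_le _ _).trans (add_le_add h1 h2)

/-- the strong form of the law -/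
def StrongLaw (a b : ℤ) (F : ℂ → ℂ) (κ : ℝ) (m : ℕ) : Prop :=
  ∃ C : ℝ, 0 < C ∧ iteratedDeriv m F 1 / (m.factorial : ℂ) =
      ((√2 * Real.exp (m * Real.eulerMascheroniConstant) / C : ℝ) : ℂ) ∧
    Tendsto (fun l => bm a b κ l - m * Real.log (κ * l)) atTop (𝓝 (Real.log C)) ∧
    ∃ K : ℝ, ∀ᶠ l : ℝ in atTop,
      |bms a b κ l - m * Real.log (κ * l) - Real.log (C / √2)| ≤ K * (Real.log l / l)

theorem no_zeros_of_grow (hΔ : 4 * a ^ 3 + 27 * b ^ 2 ≠ 0)
    (hrs : Tendsto (rsSum a b) atTop (𝓝 0)) (hκ : 0 < κ) {lam c : ℕ → ℝ} {δ σ : ℝ} {g : ℂ → ℂ}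
    {m : ℕ} (H : Gn lam c δ σ (fun s => F (1 + s)) g m)
    (hS : ∀ T, Sh lam c T = -Pl (nQ a b) (alQ a b) (Real.exp T)) (h : Grow (bm a b κ)) :
    ∀ s ∈ Rg κ, F s ≠ 0 := by
  obtain ⟨-, -, -, M, hM⟩ := compare hΔ hrs hκ H.D hS
  rw [rg_iff hκ]
  exact H.conv hκ (h.congr (B := fun l => Real.exp (-l) * BI (fun v => Sh lam c (κ * v)) l) hM)

theorem strong_of_no_zeros (hΔ : 4 * a ^ 3 + 27 * b ^ 2 ≠ 0)
    (hrs : Tendsto (rsSum a b) atTop (𝓝 0)) (hκ : 0 < κ) {lam c : ℕ → ℝ} {δ σ : ℝ} {g : ℂ → ℂ}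
    {m : ℕ} (H : Gn lam c δ σ (fun s => F (1 + s)) g m)
    (hg : g 0 = iteratedDeriv m F 1 / (m.factorial : ℂ))
    (hS : ∀ T, Sh lam c T = -Pl (nQ a b) (alQ a b) (Real.exp T)) (h : ∀ s ∈ Rg κ, F s ≠ 0) :
    StrongLaw a b F κ m := by
  obtain ⟨-, ⟨C₁, hC₁, h1⟩, h2, -⟩ := compare hΔ hrs hκ H.D hS
  rw [rg_iff hκ] at h
  obtain ⟨q, hq, C₂, hC₂, h3⟩ := H.law hκ h
  set C : ℝ := √2 * Real.exp q with hC
  have h20 : (0 : ℝ) < √2 := by positivity
  have hC0 : 0 < C := by positivity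
  have hlogC : Real.log C = Real.log 2 / 2 + q := by
    rw [hC, Real.log_mul h20.ne' (Real.exp_pos _).ne', Real.log_exp, log_sqrt_two]
  have hlogC2 : Real.log (C / √2) = q := by
    rw [hC, mul_div_cancel_left₀ _ h20.ne', Real.log_exp]
  have hstar : ∀ᶠ l : ℝ in atTop, |bms a b κ l - m * Real.log (κ * l) - q| ≤
      (C₁ + 2 * C₂) * (Real.log l / l) := by
    filter_upwards [h1, eventually_ge_atTop (Real.exp 1)] with l g1 g2
    have hl1 : 1 ≤ l := by linarith [Real.add_one_le_exp (1 : ℝ)]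
    have hl0 : 0 < l := by linarith
    have hlog : 1 ≤ Real.log l := by
      rw [Real.le_log_iff_exp_le hl0]
      exact g2
    have g3 := h3 l hl1
    have e1 : bms a b κ l - m * Real.log (κ * l) - q =
        (bms a b κ l - Real.exp (-l) * BI (fun v => Sh lam c (κ * v)) l) +
        (Real.exp (-l) * BI (fun v => Sh lam c (κ * v)) l - m * Real.log (κ * l) - q) := by ring
    rw [e1]
    refine (abs_add_le _ _).trans ((add_le_add g1 g3).trans ?_)
    have e2 : C₁ / l ≤ C₁ * (Real.log l / l) := by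
      rw [← mul_div_assoc]
      refine div_le_div_of_nonneg_right ?_ hl0.le
      exact le_mul_of_one_le_right hC₁ hlog
    have e3 : C₂ * ((1 + Real.log l) / l) ≤ 2 * C₂ * (Real.log l / l) := by
      rw [mul_comm 2 C₂, mul_assoc]
      refine mul_le_mul_of_nonneg_left ?_ hC₂
      rw [← mul_div_assoc]
      exact div_le_div_of_nonneg_right (by linarith) hl0.le
    rw [add_mul]
    exact add_le_add e2 e3
  refine ⟨C, hC0, ?_, ?_, C₁ + 2 * C₂, ?_⟩
  · rw [← hg, hq, hC]
    congr 1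
    rw [Real.exp_sub]
    field_simp
  · have hlim : Tendsto (fun l : ℝ => (C₁ + 2 * C₂) * (Real.log l / l)) atTop (𝓝 0) := by
      have h4 : Tendsto (fun l : ℝ => Real.log l / l) atTop (𝓝 0) := by
        have := Real.isLittleO_log_id_atTop.tendsto_div_nhds_zero
        simpa using this
      have := h4.const_mul (C₁ + 2 * C₂)
      rwa [mul_zero] at this
    have h4 : Tendsto (fun l => bms a b κ l - m * Real.log (κ * l) - q) atTop (𝓝 0) :=
      squeeze_zero_norm' (by
        filter_upwards [hstar] with l hl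
        rw [Real.norm_eq_abs]
        exact hl) hlim
    have h5 := (h4.add h2).add_const q
    rw [zero_add, ← hlogC] at h5
    refine h5.congr fun l => ?_
    ring
  · rw [hlogC2]
    exact hstar

/-- the exact criterion -/
theorem exact_iff (hΔ : 4 * a ^ 3 + 27 * b ^ 2 ≠ 0)
    (hrs : Tendsto (rsSum a b) atTop (𝓝 0)) (hκ : 0 < κ) {lam c : ℕ → ℝ} {δ σ : ℝ} {g : ℂ → ℂ}
    {m : ℕ} (H : Gn lam c δ σ (fun s => F (1 + s)) g m)
    (hg : g 0 = iteratedDeriv m F 1 / (m.factorial : ℂ))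
    (hS : ∀ T, Sh lam c T = -Pl (nQ a b) (alQ a b) (Real.exp T)) {ρ C : ℝ} (hC : 0 < C) :
    Tendsto (fun l => bm a b κ l - ρ * Real.log (κ * l)) atTop (𝓝 (Real.log C)) ↔
      (∀ s ∈ Rg κ, F s ≠ 0) ∧ ρ = m ∧ iteratedDeriv m F 1 / (m.factorial : ℂ) =
        ((√2 * Real.exp (m * Real.eulerMascheroniConstant) / C : ℝ) : ℂ) := by
  have h20 : (0 : ℝ) < √2 := by positivity
  constructor
  · intro h
    have hz := no_zeros_of_grow hΔ hrs hκ H hS (grow_log hκ h)
    obtain ⟨C', hC', h1, h2, -⟩ := strong_of_no_zeros hΔ hrs hκ H hg hS hz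
    have h3 : Tendsto (fun l : ℝ => (m - ρ) * Real.log (κ * l)) atTop
        (𝓝 (Real.log C - Real.log C')) := by
      refine (h.sub h2).congr fun l => ?_
      ring
    have hρ : ρ = m := by
      by_contra hne
      have h4 : (m - ρ : ℝ) ≠ 0 := fun h => hne (by linarith)
      have h5 : Tendsto (fun l : ℝ => Real.log (κ * l)) atTop atTop :=
        Real.tendsto_log_atTop.comp (tendsto_id.const_mul_atTop hκ)
      have h6 : Tendsto (fun l : ℝ => |(m - ρ) * Real.log (κ * l)|) atTop atTop := by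
        simp only [abs_mul]
        exact Tendsto.const_mul_atTop (abs_pos.2 h4) (tendsto_abs_atTop_atTop.comp h5)
      exact not_tendsto_nhds_of_tendsto_atTop h6 _ h3.abs
    refine ⟨hz, hρ, ?_⟩
    have hlog : Real.log C - Real.log C' = 0 := by
      refine tendsto_nhds_unique h3 ?_
      rw [hρ]
      simp
    have hCC : C = C' := by
      have : Real.log C = Real.log C' := by linarith
      exact Real.log_injOn_pos (Set.mem_Ioi.2 hC) (Set.mem_Ioi.2 hC') this
    rw [hCC]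
    exact h1
  · rintro ⟨hz, hρ, h1⟩
    obtain ⟨C', hC', h2, h3, -⟩ := strong_of_no_zeros hΔ hrs hκ H hg hS hz
    have hCC : C = C' := by
      rw [h1] at h2
      have h4 : √2 * Real.exp (m * Real.eulerMascheroniConstant) / C =
          √2 * Real.exp (m * Real.eulerMascheroniConstant) / C' := by exact_mod_cast h2
      have h5 : 0 < √2 * Real.exp (m * Real.eulerMascheroniConstant) := by positivity
      rw [div_eq_div_iff hC.ne' hC'.ne'] at h4
      exact (mul_left_cancel₀ h5.ne' h4).symm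
    rw [hρ, hCC]
    exact h3

end Pool.Agent.E8helper66.BM
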