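import Pool.Agent.E8helper66.BM.Reg

/-!
# The Borel means of a Dirichlet series which is the logarithm of an entire function
-/

set_option autoImplicit false

open MeasureTheory Filter Topology Set Complex
open Pool.Agent.TH942.LS (Dat P P_le)
open Pool.Agent.TH942.SL
open Pool.Agent.TH270.MS (Sh)

namespace Pool.Agent.E8helper66.BM

variable {lam c : ℕ → ℝ} {δ σ κ : ℝ} {G₀ g : ℂ → ℂ} {m : ℕ}

/-- the data: `G₀` entire, `exp (- series) = G₀`, of order `m` at `0` -/
structure Gn (lam c : ℕ → ℝ) (δ σ : ℝ) (G₀ g : ℂ → ℂ) (m : ℕ) : Prop where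
  D : Dat lam c δ σ
  hG : Differentiable ℂ G₀
  hexp : ∀ s : ℂ, σ < s.re → exp (-DD lam c s) = G₀ s
  hg : AnalyticAt ℂ g 0
  hg0 : g 0 ≠ 0
  near : ∀ᶠ s in 𝓝 (0 : ℂ), G₀ s = s ^ m * g s

lemma hp_slit {z : ℂ} (hz : z.re = 1) : z ∈ slitPlane := Or.inl (by rw [hz]; exact one_pos)

theorem Gn.chi (H : Gn lam c δ σ G₀ g m) (hκ : 0 < κ)
    (hne : ∀ z ∈ HP, G₀ (log z / κ) ≠ 0) : Chi lam c δ σ κ (fun z => G₀ (log z / κ)) where
  D := H.D
  κ0 := hκ
  d := fun z hz => by
    have h1 : DifferentiableAt ℂ (fun z : ℂ => log z / κ) z :=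
      ((Complex.hasDerivAt_log (slit (HP_pos hz))).differentiableAt).div_const _
    exact DifferentiableAt.comp (f := fun z : ℂ => log z / κ) z (H.hG _) h1
  ne := hne
  far := fun z hz h => by
    have := far_re hκ h
    rw [H.hexp _ (by linarith)]

theorem Gn.ana (H : Gn lam c δ σ G₀ g m) {z : ℂ} (hz : z.re = 1) :
    AnalyticAt ℂ (fun z => G₀ (log z / κ)) z := by
  have h1 : AnalyticAt ℂ (fun z : ℂ => log z / κ) z :=
    (analyticAt_clog (hp_slit hz)).div_const
  exact AnalyticAt.comp (f := fun z : ℂ => log z / κ) (H.hG.analyticAt _) h1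

/-- the form near `1` -/
theorem Gn.near_one (H : Gn lam c δ σ G₀ g m) (hκ : 0 < κ) : ∃ χ₁ : ℂ → ℂ, AnalyticAt ℂ χ₁ 1 ∧
    χ₁ 1 = (κ : ℂ)⁻¹ ^ m * g 0 ∧
    ∀ᶠ z in 𝓝 (1 : ℂ), G₀ (log z / κ) = (z - 1) ^ m * χ₁ z := by
  have hlog : AnalyticAt ℂ (fun z : ℂ => log z) 1 := analyticAt_clog one_mem_slitPlane
  obtain ⟨ω, hω, hω2⟩ := split_at hlog
  simp only [Complex.log_one, zero_add] at hω2
  have hω1 : ω 1 = 1 := by
    have e1 : HasDerivAt (fun z : ℂ => log z) ((1 : ℂ)⁻¹) 1 :=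
      Complex.hasDerivAt_log one_mem_slitPlane
    have e2 : HasDerivAt (fun z : ℂ => (z - 1) * ω z) (1 * ω 1 + (1 - 1) * deriv ω 1) 1 :=
      ((hasDerivAt_id 1).sub_const 1).fun_mul hω.differentiableAt.hasDerivAt
    have e3 := e2.unique (e1.congr_of_eventuallyEq (by
      filter_upwards [hω2] with z hz
      exact hz.symm))
    simpa using e3
  have hd : AnalyticAt ℂ (fun z : ℂ => log z / κ) 1 := hlog.div_const
  have hgc : AnalyticAt ℂ (fun z : ℂ => g (log z / κ)) 1 := by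
    refine AnalyticAt.comp (f := fun z : ℂ => log z / κ) ?_ hd
    simpa using H.hg
  refine ⟨fun z => (ω z * (κ : ℂ)⁻¹) ^ m * g (log z / κ),
    ((hω.mul analyticAt_const).pow m).mul hgc, ?_, ?_⟩
  · simp only
    rw [hω1, one_mul, Complex.log_one, zero_div]
  · have ht : Tendsto (fun z : ℂ => log z / κ) (𝓝 1) (𝓝 0) := by
      have := hd.continuousAt.tendsto
      simpa using this
    filter_upwards [hω2, ht.eventually H.near] with z h1 h2
    rw [h2, h1, div_eq_mul_inv, mul_assoc, mul_pow]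
    ring

lemma loglim : Tendsto (fun l : ℝ => (1 + Real.log l) / l) atTop (𝓝 0) := by
  have h1 : Tendsto (fun l : ℝ => 1 / l) atTop (𝓝 0) := tendsto_const_nhds.div_atTop tendsto_id
  have h2 : Tendsto (fun l : ℝ => Real.log l / l) atTop (𝓝 0) := by
    have := Real.isLittleO_log_id_atTop.tendsto_div_nhds_zero
    simpa using this
  have h3 := h1.add h2
  rw [add_zero] at h3
  refine h3.congr fun l => ?_
  rw [add_div]

/-- **The law of the Borel means.** -/
theorem Gn.law (H : Gn lam c δ σ G₀ g m) (hκ : 0 < κ) (hne : ∀ z ∈ HP, G₀ (log z / κ) ≠ 0) :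
    ∃ q : ℝ, g 0 = ((Real.exp (m * Real.eulerMascheroniConstant - q) : ℝ) : ℂ) ∧
      ∃ C : ℝ, 0 ≤ C ∧ ∀ l : ℝ, 1 ≤ l →
        |Real.exp (-l) * BI (fun v => Sh lam c (κ * v)) l - m * Real.log (κ * l) - q| ≤
          C * ((1 + Real.log l) / l) := by
  obtain ⟨χ₁, hχ, hχ1, hnear⟩ := H.near_one hκ
  have hκc : (κ : ℂ) ≠ 0 := by exact_mod_cast hκ.ne'
  have hχ0 : χ₁ 1 ≠ 0 := by
    rw [hχ1]
    exact mul_ne_zero (pow_ne_zero _ (inv_ne_zero hκc)) H.hg0
  obtain ⟨a, ha, C, hC, hb⟩ := (H.chi hκ hne).lim (fun z hz => H.ana hz) hχ hχ0 hnear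
  set γ : ℝ := Real.eulerMascheroniConstant with hγ
  set u : ℝ → ℝ := fun l => Real.exp (-l) * BI (fun v => Sh lam c (κ * v)) l - m * Real.log l
    with hu
  have hlim : Tendsto (fun l : ℝ => C * ((1 + Real.log l) / l)) atTop (𝓝 0) := by
    have := loglim.const_mul C
    rwa [mul_zero] at this
  have h1 : Tendsto (fun l : ℝ => (u l : ℂ)) atTop (𝓝 (a + m * γ)) := by
    rw [tendsto_iff_norm_sub_tendsto_zero]
    refine squeeze_zero' (Eventually.of_forall fun l => norm_nonneg _) ?_ hlim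
    filter_upwards [eventually_ge_atTop 1] with l hl
    exact hb l hl
  have h3 := (Complex.continuous_im.tendsto _).comp h1
  have him : a.im = 0 := by
    have h4 : (a + m * γ : ℂ).im = 0 := by
      refine tendsto_nhds_unique h3 ?_
      have : (Complex.im ∘ fun l : ℝ => (u l : ℂ)) = fun _ => 0 := by
        funext l
        simp only [Function.comp_apply, Complex.ofReal_im]
      rw [this]
      exact tendsto_const_nhds
    have h5 : (a + m * γ : ℂ).im = a.im := by simp
    rwa [h5] at h4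
  have hare : a = (a.re : ℂ) := Complex.ext (by simp) (by simp [him])
  refine ⟨a.re + m * γ - m * Real.log κ, ?_, C, hC, fun l hl => ?_⟩
  · rw [hχ1, hare] at ha
    have e1 : g 0 = (κ : ℂ) ^ m * exp (-(a.re : ℂ)) := by
      rw [ha, ← mul_assoc, ← mul_pow, mul_inv_cancel₀ hκc, one_pow, one_mul]
    have e2 : m * γ - (a.re + m * γ - m * Real.log κ) = m * Real.log κ + -a.re := by ring
    rw [e1, e2, Real.exp_add, Real.exp_nat_mul, Real.exp_log hκ]
    push_cast
    rfl
  · have hl0 : 0 < l := by linarith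
    have h2 := hb l hl
    have e1 : ((u l : ℝ) : ℂ) - (a + m * γ) = ((u l - (a.re + m * γ) : ℝ) : ℂ) := by
      rw [hare]
      push_cast
      simp
    rw [hu] at e1
    simp only at e1
    rw [e1, Complex.norm_real, Real.norm_eq_abs] at h2
    refine (le_of_eq ?_).trans h2
    congr 1
    rw [Real.log_mul hκ.ne' hl0.ne']
    ring

/-- growth -/
def Grow (B : ℝ → ℝ) : Prop := ∀ ε : ℝ, 0 < ε → ∃ K : ℝ, ∀ᶠ l : ℝ in atTop,
  |B l| ≤ K * Real.exp (ε * l)

/-- **Small growth implies that there are no zeros.** -/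
theorem Gn.conv (H : Gn lam c δ σ G₀ g m) (hκ : 0 < κ)
    (hB : Grow fun l => Real.exp (-l) * BI (fun v => Sh lam c (κ * v)) l) :
    ∀ z ∈ HP, G₀ (log z / κ) ≠ 0 := by
  refine conv_ne H.D hκ (G := fun z => G₀ (log z / κ)) (fun z hz => ?_) (fun z hz h => ?_)
    fun ε hε => ?_
  · have h1 : DifferentiableAt ℂ (fun z : ℂ => log z / κ) z :=
      ((Complex.hasDerivAt_log (slit (HP_pos hz))).differentiableAt).div_const _
    exact DifferentiableAt.comp (f := fun z : ℂ => log z / κ) z (H.hG _) h1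
  · have := far_re hκ h
    rw [H.hexp _ (by linarith)]
  · obtain ⟨K, hK⟩ := hB ε hε
    refine ⟨K, ?_⟩
    filter_upwards [hK] with l hl
    rw [abs_mul, Real.abs_exp] at hl
    have e1 : Real.exp ((1 + ε) * l) = Real.exp l * Real.exp (ε * l) := by
      rw [← Real.exp_add]
      congr 1
      ring
    have e2 : Real.exp l * Real.exp (-l) = 1 := by
      rw [← Real.exp_add]
      simp
    calc |BI (fun v => Sh lam c (κ * v)) l| =
          (Real.exp l * Real.exp (-l)) * |BI (fun v => Sh lam c (κ * v)) l| := by rw [e2, one_mul]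
      _ = Real.exp l * (Real.exp (-l) * |BI (fun v => Sh lam c (κ * v)) l|) := by ring
      _ ≤ Real.exp l * (K * Real.exp (ε * l)) := by gcongr
      _ = K * Real.exp ((1 + ε) * l) := by rw [e1]; ring

/-- the logarithm grows slowly -/
lemma grow_log {B : ℝ → ℝ} {ρ q κ : ℝ} (hκ : 0 < κ)
    (h : Tendsto (fun l => B l - ρ * Real.log (κ * l)) atTop (𝓝 q)) : Grow B := by
  intro ε hε
  have h1 : ∀ᶠ l in atTop, |B l - ρ * Real.log (κ * l)| ≤ |q| + 1 := by
    have := h.abs.eventually (gt_mem_nhds (lt_add_one _))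
    exact this.mono fun l hl => hl.le
  refine ⟨|q| + 1 + |ρ| * (κ / ε + 1), ?_⟩
  filter_upwards [h1, eventually_ge_atTop 1, eventually_ge_atTop (1 / κ)] with l h2 h3 h4
  have hl0 : 0 < l := by linarith
  have hκl : 1 ≤ κ * l := by
    rw [div_le_iff₀ hκ] at h4
    linarith
  have e1 : 1 ≤ Real.exp (ε * l) := Real.one_le_exp (by positivity)
  have e2 : |Real.log (κ * l)| ≤ (κ / ε + 1) * Real.exp (ε * l) := by
    rw [abs_of_nonneg (Real.log_nonneg hκl)]
    have e3 : Real.log (κ * l) ≤ κ * l := by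
      have := Real.log_le_sub_one_of_pos (show 0 < κ * l by positivity)
      linarith
    have e4 : ε * l ≤ Real.exp (ε * l) := by
      have := Real.add_one_le_exp (ε * l)
      linarith
    have e5 : κ * l = κ / ε * (ε * l) := by field_simp
    calc Real.log (κ * l) ≤ κ / ε * (ε * l) := by rw [← e5]; exact e3
      _ ≤ κ / ε * Real.exp (ε * l) := by gcongr
      _ ≤ _ := by
        have := Real.exp_pos (ε * l)
        nlinarith
  have e3 : |B l| ≤ |B l - ρ * Real.log (κ * l)| + |ρ| * |Real.log (κ * l)| := by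
    have := abs_add_le (B l - ρ * Real.log (κ * l)) (ρ * Real.log (κ * l))
    rw [sub_add_cancel, abs_mul] at this
    exact this
  calc |B l| ≤ (|q| + 1) * 1 + |ρ| * ((κ / ε + 1) * Real.exp (ε * l)) := by
        refine e3.trans (add_le_add (by linarith) ?_)
        gcongr
    _ ≤ (|q| + 1) * Real.exp (ε * l) + |ρ| * ((κ / ε + 1) * Real.exp (ε * l)) := by gcongr
    _ = _ := by ring

/-- bounded perturbations -/
lemma Grow.congr {A B : ℝ → ℝ} (hA : Grow A) {M : ℝ} (h : ∀ᶠ l in atTop, |A l - B l| ≤ M) :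
    Grow B := by
  intro ε hε
  obtain ⟨K, hK⟩ := hA ε hε
  refine ⟨K + |M|, ?_⟩
  filter_upwards [hK, h, eventually_ge_atTop 0] with l h1 h2 h3
  have e1 : 1 ≤ Real.exp (ε * l) := Real.one_le_exp (by positivity)
  have e2 : |B l| ≤ |A l| + |A l - B l| := by
    have := abs_sub (A l) (A l - B l)
    rwa [sub_sub_cancel] at this
  have e3 : |M| ≤ |M| * Real.exp (ε * l) := le_mul_of_one_le_right (abs_nonneg _) e1
  have e4 := le_abs_self M
  rw [add_mul]
  linarith

end Pool.Agent.E8helper66.BM
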