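import Pool.Agent.W263.BSD.Lap
import Pool.Agent.TH942.SL.Line
import Pool.Agent.TH942.SL.Mean

/-!
# The kernel `l ^ v / Γ (1 + v)`
-/

set_option autoImplicit false

open MeasureTheory Filter Topology Set Complex
open Pool.Agent.TH942.SL
open Pool.Agent.W263.BSD (LInt lap lapC lapC_ofReal lapC_differentiableAt)

namespace Pool.Agent.E8helper66.BM

/-- the kernel -/
noncomputable def Kr (l v : ℝ) : ℝ := l ^ v / Real.Gamma (1 + v)

/-- the transformed kernel -/
noncomputable def ek (v : ℝ) (z : ℂ) : ℂ := exp (-(v * log z)) / z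

lemma Kr_nonneg {l v : ℝ} (hl : 0 < l) (hv : 0 ≤ v) : 0 ≤ Kr l v := by
  unfold Kr
  have := Real.Gamma_pos_of_pos (show 0 < 1 + v by linarith)
  positivity

lemma gam_cont : ContinuousOn (fun v : ℝ => Real.Gamma (1 + v)) (Ioi (-1)) := by
  intro v hv
  have hv1 : (-1 : ℝ) < v := hv
  have h1 : ContinuousAt Real.Gamma (1 + v) := by
    refine (Real.differentiableAt_Gamma fun m h => ?_).continuousAt
    have : (0 : ℝ) ≤ m := Nat.cast_nonneg m
    linarith
  exact (ContinuousAt.comp (f := fun v : ℝ => 1 + v) h1 (by fun_prop)).continuousWithinAt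

lemma Kr_cont {l : ℝ} (hl : 0 < l) : ContinuousOn (Kr l) (Ioi (-1)) := by
  unfold Kr
  refine ContinuousOn.div ?_ gam_cont fun v hv => ?_
  · exact (Real.continuous_const_rpow hl.ne').continuousOn
  · have hv1 : (-1 : ℝ) < v := hv
    exact (Real.Gamma_pos_of_pos (by linarith)).ne'

lemma Kr_aesm {l : ℝ} (hl : 0 < l) : AEStronglyMeasurable (Kr l) (volume.restrict (Ioi 0)) :=
  ((Kr_cont hl).mono (Ioi_subset_Ioi (by norm_num))).aestronglyMeasurable measurableSet_Ioi

lemma norm_ek (v : ℝ) {z : ℂ} (hz : z ≠ 0) : ‖ek v z‖ = ‖z‖ ^ (-v - 1) := by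
  have hn : 0 < ‖z‖ := norm_pos_iff.2 hz
  unfold ek
  rw [norm_div, Complex.norm_exp, Real.rpow_sub hn, Real.rpow_one, Real.rpow_def_of_pos hn]
  congr 2
  simp [Complex.log_re]
  ring

lemma ek_diff (v : ℝ) {z : ℂ} (hz : 0 < z.re) : DifferentiableAt ℂ (ek v) z := by
  unfold ek
  have h1 : DifferentiableAt ℂ (fun z : ℂ => log z) z :=
    (Complex.hasDerivAt_log (slit hz)).differentiableAt
  exact ((h1.const_mul _).neg.cexp).div differentiableAt_id (ne_zero' hz)

lemma rpow_lint {v w : ℝ} (hv : -1 < v) (hw : 0 < w) : LInt (fun u : ℝ => u ^ v) w := by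
  unfold LInt
  have h1 := Real.GammaIntegral_convergent (s := v + 1) (by linarith)
  have h2 : IntegrableOn (fun x : ℝ => Real.exp (-(w * x)) * (w * x) ^ (v + 1 - 1)) (Ioi 0) := by
    have h3 := (integrableOn_Ioi_comp_mul_left_iff
      (fun x : ℝ => Real.exp (-x) * x ^ (v + 1 - 1)) 0 hw).2 (by rw [mul_zero]; exact h1)
    exact h3
  refine (h2.const_mul (w ^ (-v))).congr ?_
  filter_upwards [ae_restrict_mem measurableSet_Ioi] with x hx
  have hx0 : (0 : ℝ) < x := hx
  rw [add_sub_cancel_right, Real.mul_rpow hw.le hx0.le, Real.rpow_neg hw.le]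
  field_simp

theorem lap_rpow_real {v w : ℝ} (hv : -1 < v) (hw : 0 < w) :
    lap (fun u : ℝ => u ^ v) w = Real.Gamma (v + 1) * w ^ (-v - 1) := by
  unfold lap
  have h := Real.integral_rpow_mul_exp_neg_mul_Ioi (a := v + 1) (r := w) (by linarith) hw
  rw [add_sub_cancel_right] at h
  rw [h, one_div, Real.inv_rpow hw.le, ← Real.rpow_neg hw.le, mul_comm]
  congr 2
  ring

/-- the Laplace transform of a power -/
theorem lap_rpow {v : ℝ} (hv : 0 < v) {z : ℂ} (hz : 0 < z.re) :
    lapC (fun u : ℝ => u ^ v) z = Real.Gamma (v + 1) * ek v z := by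
  have hm : Measurable fun u : ℝ => u ^ v := measurable_id.pow_const v
  have hU : IsOpen {s : ℂ | 0 < s.re} := isOpen_lt continuous_const Complex.continuous_re
  have hUc : Convex ℝ {s : ℂ | 0 < s.re} := convex_halfSpace_re_gt 0
  have a1 : AnalyticOnNhd ℂ (lapC fun u : ℝ => u ^ v) {s : ℂ | 0 < s.re} :=
    DifferentiableOn.analyticOnNhd (fun z hz => (lapC_differentiableAt hm
      (fun w hw => rpow_lint (by linarith) hw) hz).differentiableWithinAt) hU
  have a2 : AnalyticOnNhd ℂ (fun z => (Real.Gamma (v + 1) : ℂ) * ek v z) {s : ℂ | 0 < s.re} :=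
    DifferentiableOn.analyticOnNhd (fun z hz =>
      ((ek_diff v hz).const_mul _).differentiableWithinAt) hU
  refine a1.eqOn_of_preconnected_of_frequently_eq a2 hUc.isPreconnected
    (show (1 : ℂ) ∈ {s : ℂ | 0 < s.re} by simp) ?_ hz
  have h3 : Tendsto (fun ε : ℝ => (1 : ℂ) + ε) (𝓝[>] 0) (𝓝[≠] (1 : ℂ)) := by
    refine tendsto_nhdsWithin_of_tendsto_nhds_of_eventually_within _ ?_ ?_
    · have h4 : Continuous fun ε : ℝ => (1 : ℂ) + (ε : ℂ) := by fun_prop
      have h5 := h4.tendsto 0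
      simp only [Complex.ofReal_zero, add_zero] at h5
      exact h5.mono_left nhdsWithin_le_nhds
    · filter_upwards [self_mem_nhdsWithin] with ε hε h
      have hε0 : (0 : ℝ) < ε := hε
      have h6 : (1 : ℂ) + ε = 1 := h
      have h7 : (ε : ℂ) = 0 := by linear_combination h6
      exact hε0.ne' (by exact_mod_cast h7)
  refine h3.frequently (Eventually.frequently ?_)
  filter_upwards [self_mem_nhdsWithin] with ε hε
  have hε0 : (0 : ℝ) < ε := hε
  have hw : (0 : ℝ) < 1 + ε := by linarith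
  have e1 : (1 : ℂ) + ε = ((1 + ε : ℝ) : ℂ) := by push_cast; ring
  rw [e1, lapC_ofReal, lap_rpow_real (by linarith) hw]
  have e2 : ek v ((1 + ε : ℝ) : ℂ) = (((1 + ε) ^ (-v - 1) : ℝ) : ℂ) := by
    unfold ek
    rw [← Complex.ofReal_log hw.le, Real.rpow_sub hw, Real.rpow_one, Real.rpow_def_of_pos hw]
    push_cast
    congr 2
    ring
  rw [e2]
  push_cast
  rfl

lemma ek_line_bound {v x : ℝ} (hv : 0 ≤ v) (hx : 0 < x) {z : ℂ} (hz : z.re = x) :
    ‖ek v z‖ ≤ (1 + 1 / x) ^ (v + 1) * (1 + |z.im|) ^ (-(v + 1)) := by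
  have hz0 : 0 < z.re := by rw [hz]; exact hx
  have h1 := nb hx (by linarith : 0 ≤ v + 1) (z := z) (by rw [← hz]; exact re_le_norm z)
  rw [norm_ek v (ne_zero' hz0)]
  have : -v - 1 = -(v + 1) := by ring
  rwa [this]

lemma ek_int {v x : ℝ} (hv : 0 < v) (hx : 0 < x) :
    Integrable fun t : ℝ => ek v (((x : ℝ) : ℂ) + t * I) :=
  line_int (H := ek v) (p := v + 1) (B := (1 + 1 / x) ^ (v + 1)) (by linarith)
    (fun s hs => (ek_diff v (by rw [hs]; exact hx)).continuousAt)
    (fun s hs => ek_line_bound hv.le hx hs)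

/-- **The kernel as an integral along a vertical line.** -/
theorem ker_inv {v l x : ℝ} (hv : 0 < v) (hl : 0 < l) (hx : 0 < x) :
    V x (fun z => exp (z * l) * ek v z) = (Kr l v : ℂ) := by
  set f : ℝ → ℂ := (Ioi (0 : ℝ)).indicator fun u => ((u ^ v * Real.exp (-(x * u)) : ℝ) : ℂ) with hf
  have hm : Measurable fun u : ℝ => u ^ v := measurable_id.pow_const v
  have hfi : Integrable f := by
    rw [hf, integrable_indicator_iff measurableSet_Ioi]
    exact Integrable.ofReal (𝕜 := ℂ) (rpow_lint (v := v) (by linarith) hx)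
  have hG : 0 < Real.Gamma (1 + v) := Real.Gamma_pos_of_pos (by linarith)
  -- the Fourier transform
  have hF : ∀ ξ : ℝ, FourierTransform.fourier f ξ =
      Real.Gamma (1 + v) * ek v ((x : ℂ) + ((2 * Real.pi * ξ : ℝ) : ℂ) * I) := by
    intro ξ
    rw [Real.fourier_eq']
    set r : ℂ := (x : ℂ) + ((2 * Real.pi * ξ : ℝ) : ℂ) * I with hr
    have hr0 : 0 < r.re := by rw [hr]; simpa using hx
    have h1 := lap_rpow hv hr0
    unfold lapC at h1
    rw [add_comm v 1] at h1
    rw [← h1, ← integral_indicator measurableSet_Ioi]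
    congr 1
    funext u
    rw [hf]
    by_cases hu : u ∈ Ioi (0 : ℝ)
    · rw [indicator_of_mem hu, indicator_of_mem hu, smul_eq_mul]
      push_cast
      rw [mul_comm (exp _), mul_assoc, ← Complex.exp_add]
      congr 2
      simp only [RCLike.inner_apply, conj_trivial, hr]
      push_cast
      ring
    · rw [indicator_of_notMem hu, indicator_of_notMem hu, smul_zero]
  have hFi : Integrable (FourierTransform.fourier f) := by
    have h1 := ((ek_int hv hx).comp_mul_left' (R := 2 * Real.pi) (by positivity)).const_mul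
      (Real.Gamma (1 + v) : ℂ)
    refine h1.congr (ae_of_all _ fun ξ => ?_)
    rw [hF]
  have hc : ContinuousAt f l := by
    have h1 : ContinuousAt (fun u : ℝ => ((u ^ v * Real.exp (-(x * u)) : ℝ) : ℂ)) l := by
      refine Complex.continuous_ofReal.continuousAt.comp (ContinuousAt.mul ?_ (by fun_prop))
      exact Real.continuousAt_rpow_const _ _ (Or.inl hl.ne')
    refine h1.congr ?_
    filter_upwards [Ioi_mem_nhds hl] with u hu
    rw [hf, indicator_of_mem hu]
  have h1 := hfi.fourierInv_fourier_eq hFi (v := l) hc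
  rw [Real.fourierInv_eq'] at h1
  simp only [hF] at h1
  have h2 := Measure.integral_comp_mul_left (fun t : ℝ => exp ((t : ℂ) * I * l) *
    ek v ((x : ℂ) + (t : ℂ) * I)) (2 * Real.pi)
  have e1 : ∀ ξ : ℝ, exp ((2 * Real.pi * inner ℝ ξ l : ℝ) * I) •
      ((Real.Gamma (1 + v) : ℂ) * ek v ((x : ℂ) + ((2 * Real.pi * ξ : ℝ) : ℂ) * I)) =
      (Real.Gamma (1 + v) : ℂ) * (exp (((2 * Real.pi * ξ : ℝ) : ℂ) * I * l) *
        ek v ((x : ℂ) + ((2 * Real.pi * ξ : ℝ) : ℂ) * I)) := by
    intro ξ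
    rw [smul_eq_mul, mul_left_comm]
    congr 3
    simp only [RCLike.inner_apply, conj_trivial]
    push_cast
    ring
  simp only [e1] at h1
  rw [integral_const_mul, h2, abs_of_pos (by positivity), Complex.real_smul] at h1
  have hfl : f l = ((l ^ v * Real.exp (-(x * l)) : ℝ) : ℂ) := by
    rw [hf, indicator_of_mem (show l ∈ Ioi (0 : ℝ) from hl)]
  rw [hfl] at h1
  have e2 : ∀ t : ℝ, exp (((x : ℂ) + (t : ℂ) * I) * l) * ek v ((x : ℂ) + (t : ℂ) * I) =
      exp (x * l) * (exp ((t : ℂ) * I * l) * ek v ((x : ℂ) + (t : ℂ) * I)) := by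
    intro t
    rw [add_mul, Complex.exp_add]
    ring
  unfold V
  simp only [e2]
  rw [integral_const_mul]
  have e3 : (Kr l v : ℂ) = (Real.Gamma (1 + v) : ℂ)⁻¹ * exp (x * l) *
      ((l ^ v * Real.exp (-(x * l)) : ℝ) : ℂ) := by
    unfold Kr
    push_cast
    have h4 : exp ((x : ℂ) * l) * exp (-((x : ℂ) * l)) = 1 := by
      rw [← Complex.exp_add]
      simp
    rw [div_eq_mul_inv]
    linear_combination -(((l ^ v : ℝ) : ℂ) * (Real.Gamma (1 + v) : ℂ)⁻¹) * h4
  have hGc : (Real.Gamma (1 + v) : ℂ) ≠ 0 := by exact_mod_cast hG.ne'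
  rw [e3, ← h1]
  generalize (∫ y : ℝ, exp ((y : ℂ) * I * l) * ek v ((x : ℂ) + (y : ℂ) * I)) = J
  field_simp

end Pool.Agent.E8helper66.BM
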