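import Pool.Agent.E8helper66.BM.Fin

/-!
# The exact exponential growth of the Borel means
-/

set_option autoImplicit false

open MeasureTheory Filter Topology Set Complex
open Pool.Agent.TH942.LS (Dat P P_le)
open Pool.Agent.TH942.SL
open Pool.Agent.TH270.MS (Sh sh_le sh_zero sh_meas sh_eq Pl)
open Pool.Agent.TH270.MS.EQ
open Pool.Agent.W263.BSD (GoodPrime pointCount IsLSeries bsdProduct bsdStar bsdProduct_pos
  bsdStar_pos rsSum corr_tendsto LInt lap lapC lapC_ofReal lapC_differentiableAt)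

namespace Pool.Agent.E8helper66.BM

variable {lam c : ℕ → ℝ} {δ σ κ A : ℝ} {χ : ℂ → ℂ}

/-- the half plane `Re z > A` -/
def HA (A : ℝ) : Set ℂ := {z | A < z.re}

lemma HA_open (A : ℝ) : IsOpen (HA A) := isOpen_lt continuous_const Complex.continuous_re

lemma HA_convex (A : ℝ) : Convex ℝ (HA A) := convex_halfSpace_re_gt A

lemma HA_HP (hA : 1 ≤ A) {z : ℂ} (hz : z ∈ HA A) : z ∈ HP := lt_of_le_of_lt hA hz

/-- the logarithm on a half plane -/
theorem exists_fA (D : Dat lam c δ σ) (hκ : 0 < κ) (hA : 1 ≤ A)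
    (hd : ∀ z ∈ HA A, DifferentiableAt ℂ χ z) (hne : ∀ z ∈ HA A, χ z ≠ 0)
    (hfar : ∀ z ∈ HA A, X₀ κ σ ≤ ‖z‖ → χ z = exp (-fz lam c κ z)) : ∃ f : ℂ → ℂ,
    (∀ z ∈ HA A, DifferentiableAt ℂ f z) ∧
    ∀ z ∈ HA A, X₀ κ σ < ‖z‖ → f z = fz lam c κ z := by
  have hX1 := X₀_gt hκ D.σ0
  have hXp : 0 < X₀ κ σ := by linarith
  have hdχ : DifferentiableOn ℂ χ (HA A) := fun z hz => (hd z hz).differentiableWithinAt
  have hdd : DifferentiableOn ℂ (fun z => -(deriv χ z / χ z)) (HA A) :=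
    ((hdχ.deriv (HA_open A)).div hdχ hne).neg
  obtain ⟨F, hF⟩ := convex_primitive (HA_open A) (HA_convex A) hdd
  set X₁ : ℝ := max (X₀ κ σ) A with hX₁
  have hX₁0 : X₀ κ σ ≤ X₁ := le_max_left _ _
  have hX₁A : A ≤ X₁ := le_max_right _ _
  set w₀ : ℂ := ((X₁ + 1 : ℝ) : ℂ) with hw₀
  have hre : w₀.re = X₁ + 1 := by rw [hw₀, Complex.ofReal_re]
  set f : ℂ → ℂ := fun v => F v + (fz lam c κ w₀ - F w₀) with hf
  have hfd : ∀ v ∈ HA A, HasDerivAt f (-(deriv χ v / χ v)) v := fun v hv => (hF v hv).add_const _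
  have hfw : f w₀ = fz lam c κ w₀ := by
    rw [hf]
    simp only
    ring
  refine ⟨f, fun z hz => (hfd z hz).differentiableAt, ?_⟩
  have hdz : ∀ v ∈ HA A, X₀ κ σ < ‖v‖ → HasDerivAt (fun v => f v - fz lam c κ v) 0 v := by
    intro v hv hvX
    have hvP := HA_HP hA hv
    have hf0 : HasDerivAt (fz lam c κ) (-P lam c (log v / κ) * (v⁻¹ / κ)) v :=
      f₀_hd D hκ hvP hvX.le
    refine ((hfd v hv).sub hf0).congr_deriv ?_
    have e1 : HasDerivAt χ (exp (-fz lam c κ v) * -(-P lam c (log v / κ) * (v⁻¹ / κ))) v := by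
      refine (hf0.fun_neg.cexp).congr_of_eventuallyEq ?_
      have h3 : ∀ᶠ w in 𝓝 v, X₀ κ σ < ‖w‖ :=
        continuous_norm.continuousAt.eventually (lt_mem_nhds hvX)
      filter_upwards [(HA_open A).mem_nhds hv, h3] with w h4 h5
      exact hfar w h4 h5.le
    rw [e1.deriv, hfar v hv hvX.le]
    have := Complex.exp_ne_zero (-fz lam c κ v)
    field_simp
    ring
  set W : Set ℂ := {v | X₁ < v.re} with hW
  have hWo : IsOpen W := isOpen_lt continuous_const Complex.continuous_re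
  have hWc : Convex ℝ W := convex_halfSpace_re_gt X₁
  have hw₀W : w₀ ∈ W := by
    change X₁ < w₀.re
    rw [hre]
    linarith
  have hWx : ∀ v ∈ W, v ∈ HA A ∧ X₀ κ σ < ‖v‖ := fun v hv => by
    have hv' : X₁ < v.re := hv
    exact ⟨lt_of_le_of_lt hX₁A hv', (lt_of_le_of_lt hX₁0 hv').trans_le (re_le_norm v)⟩
  have hWeq : ∀ v ∈ W, f v - fz lam c κ v = 0 := by
    intro v hv
    have e1 : f w₀ - fz lam c κ w₀ = 0 := by rw [hfw, sub_self]
    rw [← e1]
    exact const_of_deriv hWo hWc (f := fun v => f v - fz lam c κ v)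
      (fun z hz => hdz z (hWx z hz).1 (hWx z hz).2) hv hw₀W
  intro v hv hvX
  have hv0 := HP_pos (HA_HP hA hv)
  have hX₁p : 0 < X₁ := by linarith
  have h2 := horiz (f := fun v => f v - fz lam c κ v) (f' := fun _ => 0) (v := v) hX₁p.le
    (B := fun _ => 0) (B' := fun _ => 0)
    (fun τ hτ => hdz _ (by
      change A < (v + (τ : ℂ)).re
      rw [Complex.add_re, Complex.ofReal_re]
      have hv' : A < v.re := hv
      linarith [hτ.1]) (hvX.trans_le (norm_add_real hv0 hτ.1)))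
    (fun τ _ => hasDerivAt_const _ _) (fun τ _ => by simp)
  simp only [sub_self] at h2
  have h3 : v + (X₁ : ℂ) ∈ W := by
    change X₁ < (v + (X₁ : ℂ)).re
    rw [Complex.add_re, Complex.ofReal_re]
    linarith
  rw [hWeq _ h3, zero_sub, norm_neg] at h2
  exact sub_eq_zero.1 (norm_le_zero_iff.1 h2)

/-- the upper bound with a level -/
theorem upA (D : Dat lam c δ σ) (hκ : 0 < κ) (hA : 1 ≤ A) {f : ℂ → ℂ}
    (hf : ∀ z ∈ HA A, DifferentiableAt ℂ f z)
    (hff : ∀ z ∈ HA A, X₀ κ σ < ‖z‖ → f z = fz lam c κ z) {a : ℝ} (ha : A < a) :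
    ∃ C : ℝ, 0 ≤ C ∧ ∀ l : ℝ, 0 < l → |BI (fun v => Sh lam c (κ * v)) l| ≤ C * Real.exp (a * l) := by
  have hX1 := X₀_gt hκ D.σ0
  have hH := Ld_Sh D hκ
  have hxe : Real.exp (κ * σ) < X₀ κ σ := by
    unfold X₀
    exact Real.exp_lt_exp.2 (by nlinarith)
  obtain ⟨B, hB, hBb⟩ := Ph_bound hH hxe
  set p : ℝ := δ / κ + 1 with hp
  have hp1 : 1 < p := by
    rw [hp]
    have := div_pos D.δ0 hκ
    linarith
  have hPh : ∀ z ∈ HA A, X₀ κ σ < ‖z‖ → Ph (fun v => Sh lam c (κ * v)) z = Ff f z := by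
    intro z hz hzX
    rw [Ph_Sh D hκ (hxe.trans hzX)]
    unfold Ff
    rw [hff z hz hzX]
    rfl
  have hHa : ∀ v : ℂ, a ≤ v.re → v ∈ HA A := fun v hv => lt_of_lt_of_le ha hv
  have hFfd : ∀ v : ℂ, a ≤ v.re → DifferentiableAt ℂ (Ff f) v := fun v hv =>
    Ff_diff (HA_HP hA (hHa v hv)) (hf v (hHa v hv))
  set K : Set ℂ := {v : ℂ | a ≤ v.re ∧ ‖v‖ ≤ X₀ κ σ} with hK
  have hKc : IsCompact K := by
    have hcl : IsClosed K := by
      have e1 : IsClosed {v : ℂ | a ≤ v.re} := isClosed_le continuous_const Complex.continuous_re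
      have e3 : IsClosed {v : ℂ | ‖v‖ ≤ X₀ κ σ} := isClosed_le continuous_norm continuous_const
      exact e1.inter e3
    refine (isCompact_closedBall (0 : ℂ) (X₀ κ σ)).of_isClosed_subset hcl ?_
    rintro v ⟨-, h⟩
    rwa [Metric.mem_closedBall, dist_zero_right]
  obtain ⟨C₁, hC₁⟩ := hKc.exists_bound_of_continuousOn (f := Ff f)
    fun v hv => (hFfd v hv.1).continuousAt.continuousWithinAt
  set B' : ℝ := B * (1 + 1 / 1) ^ p + |C₁| * (1 + X₀ κ σ) ^ p with hB'
  have hB'0 : 0 ≤ B' := by positivity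
  have hFb : ∀ z : ℂ, a ≤ z.re → ‖Ff f z‖ ≤ B' * (1 + |z.im|) ^ (-p) := by
    intro z hz
    have ht : 0 < 1 + |z.im| := by positivity
    have hn1 := HP_norm (HA_HP hA (hHa z hz))
    rcases lt_or_ge (X₀ κ σ) ‖z‖ with h2 | h2
    · have e1 := hBb z h2.le
      rw [hPh z (hHa z hz) h2] at e1
      have e2 := nb one_pos (by linarith : 0 ≤ p) hn1.le
      calc ‖Ff f z‖ ≤ B * ‖z‖ ^ (-p) := e1
        _ ≤ B * ((1 + 1 / 1) ^ p * (1 + |z.im|) ^ (-p)) := by gcongr
        _ = (B * (1 + 1 / 1) ^ p) * (1 + |z.im|) ^ (-p) := by ring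
        _ ≤ _ := by
          refine mul_le_mul_of_nonneg_right ?_ (by positivity)
          have : 0 ≤ |C₁| * (1 + X₀ κ σ) ^ p := by positivity
          linarith
    · have e6 : 1 ≤ (1 + X₀ κ σ) ^ p * (1 + |z.im|) ^ (-p) := by
        have e7 : 1 + |z.im| ≤ 1 + X₀ κ σ := by
          have := abs_im_le_norm z
          linarith
        rw [Real.rpow_neg ht.le, ← div_eq_mul_inv, le_div_iff₀ (by positivity), one_mul]
        exact Real.rpow_le_rpow ht.le e7 (by linarith)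
      have e7 := (hC₁ z ⟨hz, h2⟩).trans (le_abs_self _)
      calc ‖Ff f z‖ ≤ |C₁| * 1 := by linarith
        _ ≤ |C₁| * ((1 + X₀ κ σ) ^ p * (1 + |z.im|) ^ (-p)) := by gcongr
        _ = (|C₁| * (1 + X₀ κ σ) ^ p) * (1 + |z.im|) ^ (-p) := by ring
        _ ≤ _ := by
          refine mul_le_mul_of_nonneg_right ?_ (by positivity)
          have : 0 ≤ B * (1 + 1 / 1) ^ p := by positivity
          linarith
  set Ip : ℝ := ∫ t : ℝ, (1 + |t|) ^ (-p) with hIp
  have hIp0 : 0 ≤ Ip := integral_nonneg fun t => by positivity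
  refine ⟨(2 * Real.pi)⁻¹ * (B' * Ip), by positivity, fun l hl => ?_⟩
  set x : ℝ := max a (X₀ κ σ + 1) with hx
  have hxX : X₀ κ σ < x := lt_of_lt_of_le (lt_add_one _) (le_max_right _ _)
  have hax : a ≤ x := le_max_left _ _
  have hre : ∀ x t : ℝ, ((x : ℂ) + t * I).re = x := fun x t => by simp
  have him : ∀ x t : ℝ, ((x : ℂ) + t * I).im = t := fun x t => by simp
  obtain ⟨-, hrep⟩ := BI_rep hH hl (hxe.trans hxX)
  have h1 : ((BI (fun v => Sh lam c (κ * v)) l : ℝ) : ℂ) = V a (fun z => exp (z * l) * Ff f z) := by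
    rw [hrep]
    have e1 : V x (fun z => exp (z * l) * Ph (fun v => Sh lam c (κ * v)) z) =
        V x (fun z => exp (z * l) * Ff f z) := by
      unfold V
      congr 2
      funext t
      simp only
      rw [hPh _ (hHa _ (by rw [hre]; exact hax)) (hxX.trans_le (by
        have := re_le_norm ((x : ℂ) + t * I)
        rwa [hre] at this))]
    rw [e1]
    refine (shift (p := p) (B := Real.exp (x * l) * B') hp1 hax
      (fun s hs _ => ?_) fun s hs hs2 => ?_).symm
    · exact DifferentiableAt.mul (by fun_prop) (hFfd s hs)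
    · rw [norm_mul, Complex.norm_exp, Complex.re_mul_ofReal, mul_assoc]
      refine mul_le_mul (Real.exp_le_exp.2 ?_) (hFb s hs) (norm_nonneg _) (Real.exp_pos _).le
      exact mul_le_mul_of_nonneg_right hs2 hl.le
  have h2 := norm_V_le (H := fun z => exp (z * l) * Ff f z) (c := a)
    (g := fun t => (Real.exp (a * l) * B') * (1 + |t|) ^ (-p))
    ((decay_int hp1).const_mul _) fun t => by
      have e1 := hFb (a + t * I) (by rw [hre])
      rw [him] at e1
      rw [norm_mul, Complex.norm_exp, Complex.re_mul_ofReal, hre, mul_assoc]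
      exact mul_le_mul_of_nonneg_left e1 (Real.exp_pos _).le
  rw [← h1, Complex.norm_real, Real.norm_eq_abs, integral_const_mul] at h2
  refine h2.trans (le_of_eq ?_)
  rw [hIp]
  ring

/-- growth implies convergence of the Laplace transform, with a level -/
theorem BI_lintA {S : ℝ → ℝ} {v₀ b C : ℝ} (H : Ld S v₀ b C) (hA : 1 ≤ A)
    (hg : ∀ ε : ℝ, 0 < ε → ∃ K : ℝ, ∀ᶠ l : ℝ in atTop,
    |BI S l| ≤ K * Real.exp ((A + ε) * l)) {w : ℝ} (hw : A < w) : LInt (BI S) w := by
  obtain ⟨K, hK⟩ := hg ((w - A) / 2) (by linarith)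
  obtain ⟨l₀, hl₀⟩ := hK.exists_forall_of_atTop
  obtain ⟨B, hB, hB2⟩ := BI_small H (l₀ := max l₀ 1) (by positivity)
  have hb : ∀ l : ℝ, 0 < l → |BI S l| ≤ (B + |K|) * Real.exp ((A + (w - A) / 2) * l) := by
    intro l hl
    have h1 : 1 ≤ Real.exp ((A + (w - A) / 2) * l) := Real.one_le_exp (by
      have : 0 < A + (w - A) / 2 := by linarith
      positivity)
    rcases le_total l (max l₀ 1) with h | h
    · refine (hB2 l hl h).trans ?_
      have : 0 ≤ |K| := abs_nonneg K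
      nlinarith
    · refine (hl₀ l ((le_max_left _ _).trans h)).trans ?_
      refine mul_le_mul_of_nonneg_right ?_ (Real.exp_pos _).le
      have := le_abs_self K
      linarith
  unfold LInt
  have h1 : IntegrableOn (fun u : ℝ => (B + |K|) * Real.exp (-((w - A) / 2) * u)) (Ioi 0) :=
    (integrableOn_exp_mul_Ioi (by linarith) 0).const_mul _
  refine Integrable.mono' h1 ((BI_meas H.meas).mul (by fun_prop)).aestronglyMeasurable ?_
  filter_upwards [ae_restrict_mem measurableSet_Ioi] with u hu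
  rw [norm_mul, Real.norm_eq_abs, Real.norm_of_nonneg (Real.exp_pos _).le]
  calc |BI S u| * Real.exp (-(w * u)) ≤
        (B + |K|) * Real.exp ((A + (w - A) / 2) * u) * Real.exp (-(w * u)) :=
        mul_le_mul_of_nonneg_right (hb u hu) (Real.exp_pos _).le
    _ = _ := by
      rw [mul_assoc, ← Real.exp_add]
      congr 2
      ring

/-- the converse with a level -/
theorem conv_neA (D : Dat lam c δ σ) (hκ : 0 < κ) (hA : 1 ≤ A) {G : ℂ → ℂ}
    (hG : ∀ z ∈ HA A, DifferentiableAt ℂ G z)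
    (hfar : ∀ z ∈ HA A, X₀ κ σ ≤ ‖z‖ → G z = exp (-fz lam c κ z))
    (hg : ∀ ε : ℝ, 0 < ε → ∃ K : ℝ, ∀ᶠ l : ℝ in atTop,
      |BI (fun v => Sh lam c (κ * v)) l| ≤ K * Real.exp ((A + ε) * l)) :
    ∀ z ∈ HA A, G z ≠ 0 := by
  have hLd := Ld_Sh D hκ
  set E : ℂ → ℂ := lapC (BI fun v => Sh lam c (κ * v)) with hE
  have hEd : ∀ z ∈ HA A, DifferentiableAt ℂ E z := fun z hz =>
    lapC_differentiableAt (BI_meas hLd.meas) (fun _ hw => BI_lintA hLd hA hg hw) hz
  set f : ℂ → ℂ := fun z => E z * (z * log z) with hf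
  have hfd : ∀ z ∈ HA A, DifferentiableAt ℂ f z := by
    intro z hz
    have h1 : DifferentiableAt ℂ (fun z : ℂ => log z) z :=
      (Complex.hasDerivAt_log (slit (HP_pos (HA_HP hA hz)))).differentiableAt
    exact (hEd z hz).mul (differentiableAt_id.mul h1)
  have hX1 := X₀_gt hκ D.σ0
  have hxe : Real.exp (κ * σ) < X₀ κ σ := by
    unfold X₀
    exact Real.exp_lt_exp.2 (by nlinarith)
  have hff : ∀ z ∈ HA A, X₀ κ σ < z.re → f z = fz lam c κ z := by
    intro z hz hzX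
    have hzP := HA_HP hA hz
    rw [hf]
    simp only
    rw [hE, lap_BI hLd (hxe.trans hzX), Ph_Sh D hκ ((hxe.trans hzX).trans_le (re_le_norm z))]
    have hz0 := ne_zero' (HP_pos hzP)
    have hl0 := log_ne (HP_norm hzP)
    unfold fz
    field_simp
  have a1 : AnalyticOnNhd ℂ G (HA A) :=
    DifferentiableOn.analyticOnNhd (fun z hz => (hG z hz).differentiableWithinAt) (HA_open A)
  have a2 : AnalyticOnNhd ℂ (fun z => exp (-f z)) (HA A) :=
    DifferentiableOn.analyticOnNhd (fun z hz => ((hfd z hz).neg.cexp).differentiableWithinAt)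
      (HA_open A)
  set X₁ : ℝ := max (X₀ κ σ) A with hX₁
  set w₀ : ℂ := ((X₁ + 1 : ℝ) : ℂ) with hw₀
  have hre : w₀.re = X₁ + 1 := by rw [hw₀, Complex.ofReal_re]
  have hw₀H : w₀ ∈ HA A := by
    change A < w₀.re
    rw [hre]
    have : A ≤ X₁ := le_max_right _ _
    linarith
  have hEq := a1.eqOn_of_preconnected_of_eventuallyEq a2 (HA_convex A).isPreconnected hw₀H (by
    have ho : IsOpen {s : ℂ | X₁ < s.re} := isOpen_lt continuous_const Complex.continuous_re
    filter_upwards [ho.mem_nhds (show X₁ < w₀.re by rw [hre]; linarith)] with s hs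
    have hs' : X₁ < s.re := hs
    have hs1 : X₀ κ σ < s.re := lt_of_le_of_lt (le_max_left _ _) hs'
    have hsH : s ∈ HA A := lt_of_le_of_lt (le_max_right _ _) hs'
    rw [hff s hsH hs1, hfar s hsH (hs1.le.trans (re_le_norm s))])
  intro z hz
  rw [hEq hz]
  exact Complex.exp_ne_zero _

/-! ### curves -/

variable {a b : ℤ} {F : ℂ → ℂ} {θ : ℝ}

/-- the region with a level -/
def RgA (κ θ : ℝ) : Set ℂ := {s | |κ * s.im| < Real.pi / 2 ∧ 1 + θ < (exp (κ * (s - 1))).re}

theorem rgA_iff (hκ : 0 < κ) (hθ : 0 ≤ θ) :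
    (∀ s ∈ RgA κ θ, F s ≠ 0) ↔ ∀ z ∈ HA (1 + θ), F (1 + log z / κ) ≠ 0 := by
  have hκc : (κ : ℂ) ≠ 0 := by exact_mod_cast hκ.ne'
  have hpi := Real.pi_pos
  have hA : 1 ≤ 1 + θ := by linarith
  constructor
  · intro h z hz
    have hzP := HA_HP hA hz
    have hz0 := ne_zero' (HP_pos hzP)
    refine h _ ⟨?_, ?_⟩
    · have e1 : κ * (1 + log z / κ : ℂ).im = arg z := by
        rw [Complex.add_im, Complex.one_im, zero_add, Complex.div_ofReal_im, Complex.log_im]
        field_simp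
      rw [e1]
      exact arg_abs (HP_pos hzP)
    · have e1 : (κ : ℂ) * (1 + log z / κ - 1) = log z := by
        field_simp
        ring
      rw [e1, Complex.exp_log hz0]
      exact hz
  · intro h s hs
    have h1 : exp (κ * (s - 1)) ∈ HA (1 + θ) := hs.2
    have h2 := h _ h1
    have h3 : ((κ : ℂ) * (s - 1)).im = κ * s.im := by simp
    have h4 := abs_lt.1 hs.1
    rw [Complex.log_exp (by rw [h3]; linarith) (by rw [h3]; linarith)] at h2
    have e1 : 1 + (κ : ℂ) * (s - 1) / κ = s := by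
      field_simp
      ring
    rwa [e1] at h2

/-- **The exact exponential growth.** -/
theorem level_iff (hΔ : 4 * a ^ 3 + 27 * b ^ 2 ≠ 0) (hrs : Tendsto (rsSum a b) atTop (𝓝 0))
    (hκ : 0 < κ) (hθ : 0 ≤ θ) {g : ℂ → ℂ} {m : ℕ}
    (H : Gn lam c δ σ (fun s => F (1 + s)) g m)
    (hS : ∀ T, Sh lam c T = -Pl (nQ a b) (alQ a b) (Real.exp T)) :
    (∀ s ∈ RgA κ θ, F s ≠ 0) ↔ ∀ ε : ℝ, 0 < ε → ∃ K : ℝ, ∀ᶠ l : ℝ in atTop,
      |bm a b κ l| ≤ K * Real.exp ((θ + ε) * l) := by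
  obtain ⟨-, -, -, M, hM⟩ := compare hΔ hrs hκ H.D hS
  have hA : 1 ≤ 1 + θ := by linarith
  have hGd : ∀ z ∈ HA (1 + θ), DifferentiableAt ℂ (fun z => F (1 + log z / κ)) z := by
    intro z hz
    have h1 : DifferentiableAt ℂ (fun z : ℂ => log z / κ) z :=
      ((Complex.hasDerivAt_log (slit (HP_pos (HA_HP hA hz)))).differentiableAt).div_const _
    exact DifferentiableAt.comp (f := fun z : ℂ => log z / κ) z (H.hG _) h1
  have hGf : ∀ z ∈ HA (1 + θ), X₀ κ σ ≤ ‖z‖ → F (1 + log z / κ) = exp (-fz lam c κ z) := by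
    intro z hz h
    have := far_re hκ (show Real.exp (κ * (σ + 1)) ≤ ‖z‖ from h)
    have h2 := H.hexp (log z / κ) (by linarith)
    rw [← h2]
    rfl
  have hee : ∀ l : ℝ, Real.exp l * Real.exp (-l) = 1 := fun l => by
    rw [← Real.exp_add]
    simp
  rw [rgA_iff hκ hθ]
  constructor
  · intro h ε hε
    obtain ⟨f, hf, hff⟩ := exists_fA H.D hκ hA hGd h hGf
    obtain ⟨C, hC, hCb⟩ := upA H.D hκ hA hf hff (a := 1 + θ + ε) (by linarith)
    refine ⟨C + |M|, ?_⟩
    filter_upwards [hM, eventually_gt_atTop 0] with l h1 hl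
    have h2 := hCb l hl
    have h3 : |Real.exp (-l) * BI (fun v => Sh lam c (κ * v)) l| ≤ C * Real.exp ((θ + ε) * l) := by
      rw [abs_mul, Real.abs_exp]
      have e1 : Real.exp ((θ + ε) * l) = Real.exp (-l) * Real.exp ((1 + θ + ε) * l) := by
        rw [← Real.exp_add]
        congr 1
        ring
      calc Real.exp (-l) * |BI (fun v => Sh lam c (κ * v)) l| ≤
            Real.exp (-l) * (C * Real.exp ((1 + θ + ε) * l)) := by gcongr
        _ = _ := by rw [e1]; ring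
    have e1 : 1 ≤ Real.exp ((θ + ε) * l) := Real.one_le_exp (by positivity)
    have e2 : |bm a b κ l| ≤ |Real.exp (-l) * BI (fun v => Sh lam c (κ * v)) l| +
        |bm a b κ l - Real.exp (-l) * BI (fun v => Sh lam c (κ * v)) l| := by
      have := abs_add_le (Real.exp (-l) * BI (fun v => Sh lam c (κ * v)) l)
        (bm a b κ l - Real.exp (-l) * BI (fun v => Sh lam c (κ * v)) l)
      rwa [add_sub_cancel] at this
    have e3 : |M| ≤ |M| * Real.exp ((θ + ε) * l) := le_mul_of_one_le_right (abs_nonneg _) e1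
    have e4 := le_abs_self M
    rw [add_mul]
    linarith
  · intro h
    refine conv_neA H.D hκ hA (G := fun z => F (1 + log z / κ)) hGd hGf fun ε hε => ?_
    obtain ⟨K, hK⟩ := h ε hε
    refine ⟨|K| + |M|, ?_⟩
    filter_upwards [hK, hM, eventually_gt_atTop 0] with l h1 h2 hl
    have e1 : 1 ≤ Real.exp ((θ + ε) * l) := Real.one_le_exp (by positivity)
    have e2 : |Real.exp (-l) * BI (fun v => Sh lam c (κ * v)) l| ≤ |bm a b κ l| +
        |bm a b κ l - Real.exp (-l) * BI (fun v => Sh lam c (κ * v)) l| := by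
      have := abs_sub (bm a b κ l) (bm a b κ l - Real.exp (-l) * BI (fun v => Sh lam c (κ * v)) l)
      rwa [sub_sub_cancel] at this
    have e3 : |M| ≤ |M| * Real.exp ((θ + ε) * l) := le_mul_of_one_le_right (abs_nonneg _) e1
    have e4 := le_abs_self M
    have e5 : K * Real.exp ((θ + ε) * l) ≤ |K| * Real.exp ((θ + ε) * l) :=
      mul_le_mul_of_nonneg_right (le_abs_self K) (Real.exp_pos _).le
    have e6 : Real.exp (-l) * |BI (fun v => Sh lam c (κ * v)) l| ≤
        (|K| + |M|) * Real.exp ((θ + ε) * l) := by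
      rw [abs_mul, Real.abs_exp] at e2
      rw [add_mul]
      linarith
    have e7 : Real.exp ((1 + θ + ε) * l) = Real.exp l * Real.exp ((θ + ε) * l) := by
      rw [← Real.exp_add]
      congr 1
      ring
    calc |BI (fun v => Sh lam c (κ * v)) l| =
          (Real.exp l * Real.exp (-l)) * |BI (fun v => Sh lam c (κ * v)) l| := by rw [hee, one_mul]
      _ = Real.exp l * (Real.exp (-l) * |BI (fun v => Sh lam c (κ * v)) l|) := by ring
      _ ≤ Real.exp l * ((|K| + |M|) * Real.exp ((θ + ε) * l)) := by gcongr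
      _ = _ := by rw [e7]; ring

end Pool.Agent.E8helper66.BM
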