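import Pool.Agent.E8helper66.BM.Loc
import Pool.Agent.TH942.SL.Lim3

/-!
# The limit of the Borel means
-/

set_option autoImplicit false

open MeasureTheory Filter Topology Set Complex
open Pool.Agent.TH942.LS (Dat P P_le)
open Pool.Agent.TH942.SL
open Pool.Agent.TH270.MS (Sh)

namespace Pool.Agent.E8helper66.BM

variable {lam c : ℕ → ℝ} {δ σ κ : ℝ} {χ : ℂ → ℂ}

/-- the integral of `1 / (ε + |t|)` -/
lemma int_inv {ε M : ℝ} (hε : 0 < ε) (hM : 0 ≤ M) :
    ∫ t in (-M)..M, 1 / (ε + |t|) = 2 * Real.log ((ε + M) / ε) := by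
  have hc : Continuous fun t : ℝ => 1 / (ε + |t|) :=
    continuous_const.div (by fun_prop) fun t => by positivity
  have h1 : ∫ t in (0 : ℝ)..M, 1 / (ε + |t|) = Real.log ((ε + M) / ε) := by
    have e1 : ∫ t in (0 : ℝ)..M, 1 / (ε + |t|) = ∫ t in (0 : ℝ)..M, 1 / (ε + t) := by
      refine intervalIntegral.integral_congr fun t ht => ?_
      rw [uIcc_of_le hM] at ht
      rw [abs_of_nonneg ht.1]
    rw [e1, intervalIntegral.integral_comp_add_left (fun t => 1 / t) ε, add_zero,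
      integral_one_div_of_pos hε (by linarith)]
  have h2 : ∫ t in (-M)..0, 1 / (ε + |t|) = Real.log ((ε + M) / ε) := by
    rw [← h1, ← neg_zero, ← intervalIntegral.integral_comp_neg (fun t => 1 / (ε + |t|))]
    simp
  rw [← intervalIntegral.integral_add_adjacent_intervals (hc.intervalIntegrable _ _)
    (hc.intervalIntegrable _ _) (b := 0), h1, h2]
  ring

/-- the integral with a shift -/
lemma int_inv_shift {ε M y : ℝ} (hε : 0 < ε) (hε1 : ε ≤ 1) (hM : 0 ≤ M) :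
    ∫ t in (-M)..M, 1 / (ε + |t - y|) ≤
      2 * (Real.log (1 + (M + |y|)) + Real.log (1 / ε)) := by
  have hc : Continuous fun t : ℝ => 1 / (ε + |t|) :=
    continuous_const.div (by fun_prop) fun t => by positivity
  have hy := neg_abs_le y
  have hy2 := le_abs_self y
  have hy3 := abs_nonneg y
  rw [intervalIntegral.integral_comp_sub_right (fun t => 1 / (ε + |t|)) y]
  have h1 : ∫ t in (-M - y)..(M - y), 1 / (ε + |t|) ≤
      ∫ t in (-(M + |y|))..(M + |y|), 1 / (ε + |t|) := by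
    refine intervalIntegral.integral_mono_interval (by linarith) (by linarith) (by linarith)
      (ae_of_all _ fun t => by positivity) (hc.intervalIntegrable _ _)
  refine h1.trans ?_
  rw [int_inv hε (by positivity), Real.log_div (by positivity) hε.ne', one_div, Real.log_inv]
  have h2 : Real.log (ε + (M + |y|)) ≤ Real.log (1 + (M + |y|)) :=
    Real.log_le_log (by positivity) (by linarith)
  linarith

/-- the bound with finitely many boundary points -/
def Bnd (Y : ℂ → ℂ) (s : Set ℂ) : Prop := ∃ C : ℝ, 0 ≤ C ∧ ∃ F : Finset ℝ, ∀ z ∈ s, z ∈ HP →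
  ‖deriv Y z‖ ≤ C * (1 + ∑ y ∈ F, 1 / ‖z - (1 + y * I)‖)

/-- the bound on compact sets -/
theorem compact_bound {Y : ℂ → ℂ} (hY : ∀ z ∈ HP, DifferentiableAt ℂ Y z)
    (hb : ∀ z₀ : ℂ, z₀.re = 1 → ∃ C : ℝ, 0 ≤ C ∧ ∀ᶠ z in 𝓝 z₀, z ∈ HP →
      ‖deriv Y z‖ ≤ C * (1 + 1 / ‖z - z₀‖)) {K : Set ℂ} (hK : IsCompact K)
    (hK1 : ∀ z ∈ K, 1 ≤ z.re) : Bnd Y K := by
  classical
  refine hK.induction_on (p := Bnd Y) ⟨0, le_rfl, ∅, fun v hv => hv.elim⟩ ?_ ?_ ?_
  · rintro s t hst ⟨C, hC, F, h⟩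
    exact ⟨C, hC, F, fun v hv => h v (hst hv)⟩
  · rintro s t ⟨C, hC, F, h⟩ ⟨C', hC', F', h'⟩
    refine ⟨C + C', by positivity, F ∪ F', fun z hz hzH => ?_⟩
    have h1 : ∑ y ∈ F, 1 / ‖z - (1 + y * I)‖ ≤ ∑ y ∈ F ∪ F', 1 / ‖z - (1 + y * I)‖ :=
      Finset.sum_le_sum_of_subset_of_nonneg Finset.subset_union_left fun _ _ _ => by positivity
    have h2 : ∑ y ∈ F', 1 / ‖z - (1 + y * I)‖ ≤ ∑ y ∈ F ∪ F', 1 / ‖z - (1 + y * I)‖ :=
      Finset.sum_le_sum_of_subset_of_nonneg Finset.subset_union_right fun _ _ _ => by positivity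
    have h0 : 0 ≤ ∑ y ∈ F ∪ F', 1 / ‖z - (1 + y * I)‖ :=
      Finset.sum_nonneg fun _ _ => by positivity
    rcases hz with hz | hz
    · refine (h z hz hzH).trans ?_
      calc C * (1 + ∑ y ∈ F, 1 / ‖z - (1 + y * I)‖) ≤
            C * (1 + ∑ y ∈ F ∪ F', 1 / ‖z - (1 + y * I)‖) := by gcongr
        _ ≤ _ := by
          refine mul_le_mul_of_nonneg_right (by linarith) (by linarith)
    · refine (h' z hz hzH).trans ?_
      calc C' * (1 + ∑ y ∈ F', 1 / ‖z - (1 + y * I)‖) ≤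
            C' * (1 + ∑ y ∈ F ∪ F', 1 / ‖z - (1 + y * I)‖) := by gcongr
        _ ≤ _ := by
          refine mul_le_mul_of_nonneg_right (by linarith) (by linarith)
  · intro z₀ hz₀
    rcases (hK1 z₀ hz₀).eq_or_lt with h1 | h1
    · obtain ⟨C, hC, h⟩ := hb z₀ h1.symm
      refine ⟨_, mem_nhdsWithin_of_mem_nhds h, C, hC, {z₀.im}, fun z hz hzH => ?_⟩
      rw [Finset.sum_singleton]
      have e1 : (1 : ℂ) + z₀.im * I = z₀ := by
        refine Complex.ext ?_ ?_ <;> simp [← h1]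
      rw [e1]
      exact hz hzH
    · have hd : DifferentiableOn ℂ Y HP := fun z hz => (hY z hz).differentiableWithinAt
      have hc : ContinuousAt (deriv Y) z₀ :=
        ((hd.deriv HP_open).differentiableAt (HP_open.mem_nhds h1)).continuousAt
      have h2 : ∀ᶠ z in 𝓝 z₀, ‖deriv Y z‖ ≤ ‖deriv Y z₀‖ + 1 :=
        (hc.norm.eventually (gt_mem_nhds (lt_add_one _))).mono fun v hv => hv.le
      refine ⟨_, mem_nhdsWithin_of_mem_nhds h2, ‖deriv Y z₀‖ + 1, by positivity, ∅,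
        fun z hz _ => ?_⟩
      rw [Finset.sum_empty, add_zero, mul_one]
      exact hz

lemma inv_norm_le {ε t y : ℝ} (hε : 0 < ε) :
    1 / ‖(((1 + ε : ℝ) : ℂ) + t * I) - (1 + y * I)‖ ≤ 2 * (1 / (ε + |t - y|)) := by
  have e1 : (((1 + ε : ℝ) : ℂ) + t * I) - (1 + y * I) = (ε : ℂ) + ((t - y : ℝ) : ℂ) * I := by
    push_cast
    ring
  rw [e1]
  set w : ℂ := (ε : ℂ) + ((t - y : ℝ) : ℂ) * I with hw
  have h1 : w.re = ε := by rw [hw]; simp
  have h2 : w.im = t - y := by rw [hw]; simp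
  have h3 := abs_re_le_norm w
  have h4 := abs_im_le_norm w
  rw [h1, abs_of_pos hε] at h3
  rw [h2] at h4
  have h5 : 0 < ε + |t - y| := by positivity
  have h6 : 0 < ‖w‖ := hε.trans_le h3
  rw [← mul_div_assoc, mul_one, div_le_div_iff₀ h6 h5]
  linarith

/-- **The bound on the lines close to the boundary.** -/
theorem line_le {R : ℂ → ℂ} {M B C : ℝ} (hM : 0 ≤ M) (hB : 0 ≤ B) (hC : 0 ≤ C) {F : Finset ℝ}
    (h1 : ∀ z ∈ HP, M < ‖z‖ → ‖R z‖ ≤ B * (1 + |z.im|) ^ (-(3 / 2 : ℝ)))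
    (h2 : ∀ z ∈ HP, ‖z‖ ≤ M → ‖R z‖ ≤ C * (1 + ∑ y ∈ F, 1 / ‖z - (1 + y * I)‖)) :
    ∃ A₁ A₂ : ℝ, 0 ≤ A₁ ∧ 0 ≤ A₂ ∧ ∀ ε : ℝ, 0 < ε → ε ≤ 1 → ∃ g : ℝ → ℝ, Integrable g ∧
      (∀ t : ℝ, ‖R (((1 + ε : ℝ) : ℂ) + t * I)‖ ≤ g t) ∧
      ∫ t, g t ≤ A₁ + A₂ * Real.log (1 / ε) := by
  set Ip : ℝ := ∫ t : ℝ, (1 + |t|) ^ (-(3 / 2 : ℝ)) with hIp
  have hIp0 : 0 ≤ Ip := integral_nonneg fun t => by positivity
  have hLy : ∀ y : ℝ, 0 ≤ Real.log (1 + (M + |y|)) := fun y => Real.log_nonneg (by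
    have := abs_nonneg y
    linarith)
  refine ⟨B * Ip + C * (2 * M + ∑ y ∈ F, 2 * (2 * Real.log (1 + (M + |y|)))),
    C * ∑ _y ∈ F, 4, ?_, ?_, fun ε hε hε1 => ?_⟩
  · have : 0 ≤ ∑ y ∈ F, 2 * (2 * Real.log (1 + (M + |y|))) :=
      Finset.sum_nonneg fun y _ => by have := hLy y; positivity
    positivity
  · have : (0 : ℝ) ≤ ∑ _y ∈ F, 4 := Finset.sum_nonneg fun y _ => by norm_num
    positivity
  set q : ℝ → ℝ := fun t => C * (1 + ∑ y ∈ F, 2 * (1 / (ε + |t - y|))) with hq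
  have hq0 : ∀ t, 0 ≤ q t := fun t => by
    have : 0 ≤ ∑ y ∈ F, 2 * (1 / (ε + |t - y|)) := Finset.sum_nonneg fun y _ => by positivity
    rw [hq]
    positivity
  have hqy : ∀ y : ℝ, Continuous fun t : ℝ => 1 / (ε + |t - y|) := fun y =>
    continuous_const.div (by fun_prop) fun t => by positivity
  have hqc : Continuous q := by
    rw [hq]
    exact continuous_const.mul (continuous_const.add
      (continuous_finsetSum _ fun y _ => continuous_const.mul (hqy y)))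
  have hi1 : Integrable fun t : ℝ => B * (1 + |t|) ^ (-(3 / 2 : ℝ)) :=
    (decay_int (by norm_num)).const_mul B
  have hi2 : Integrable ((Icc (-M) M).indicator q) := by
    rw [integrable_indicator_iff measurableSet_Icc]
    exact hqc.continuousOn.integrableOn_compact isCompact_Icc
  refine ⟨fun t => B * (1 + |t|) ^ (-(3 / 2 : ℝ)) + (Icc (-M) M).indicator q t,
    hi1.add hi2, fun t => ?_, ?_⟩
  · set z : ℂ := ((1 + ε : ℝ) : ℂ) + t * I with hz
    have hre : z.re = 1 + ε := by rw [hz]; simp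
    have him : z.im = t := by rw [hz]; simp
    have hzH : z ∈ HP := by change 1 < z.re; rw [hre]; linarith
    have hind : 0 ≤ (Icc (-M) M).indicator q t := indicator_nonneg (fun t _ => hq0 t) t
    rcases lt_or_ge M ‖z‖ with h | h
    · have h3 := h1 z hzH h
      rw [him] at h3
      linarith
    · have h3 := h2 z hzH h
      have ht : t ∈ Icc (-M) M := by
        have := abs_im_le_norm z
        rw [him] at this
        exact abs_le.1 (this.trans h)
      change ‖R z‖ ≤ B * (1 + |t|) ^ (-(3 / 2 : ℝ)) + (Icc (-M) M).indicator q t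
      rw [indicator_of_mem ht]
      have h4 : 0 ≤ B * (1 + |t|) ^ (-(3 / 2 : ℝ)) := by positivity
      have h5 : C * (1 + ∑ y ∈ F, 1 / ‖z - (1 + y * I)‖) ≤ q t := by
        rw [hq]
        refine mul_le_mul_of_nonneg_left (add_le_add le_rfl (Finset.sum_le_sum fun y _ => ?_)) hC
        exact inv_norm_le hε
      linarith
  · rw [integral_add hi1 hi2, integral_const_mul, integral_indicator measurableSet_Icc,
      integral_Icc_eq_integral_Ioc, ← intervalIntegral.integral_of_le (by linarith)]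
    have e1 : ∫ t in (-M)..M, q t = C * (2 * M + ∑ y ∈ F, 2 * ∫ t in (-M)..M, 1 / (ε + |t - y|)) := by
      have c1 : ∀ y ∈ F, Continuous fun t : ℝ => 2 * (1 / (ε + |t - y|)) := fun y _ =>
        continuous_const.mul (hqy y)
      have c2 : Continuous fun t : ℝ => ∑ y ∈ F, 2 * (1 / (ε + |t - y|)) :=
        continuous_finsetSum _ c1
      rw [hq, intervalIntegral.integral_const_mul, intervalIntegral.integral_add
        intervalIntegrable_const (c2.intervalIntegrable _ _),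
        intervalIntegral.integral_const, intervalIntegral.integral_finsetSum fun y hy =>
          (c1 y hy).intervalIntegrable _ _]
      congr 2
      · rw [smul_eq_mul]
        ring
      · refine Finset.sum_congr rfl fun y _ => ?_
        rw [intervalIntegral.integral_const_mul]
    rw [e1]
    have e2 : ∑ y ∈ F, 2 * ∫ t in (-M)..M, 1 / (ε + |t - y|) ≤
        ∑ y ∈ F, 2 * (2 * Real.log (1 + (M + |y|))) + (∑ _y ∈ F, 4) * Real.log (1 / ε) := by
      rw [Finset.sum_mul, ← Finset.sum_add_distrib]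
      refine Finset.sum_le_sum fun y _ => ?_
      have := int_inv_shift (y := y) hε hε1 hM
      linarith
    have e3 := mul_le_mul_of_nonneg_left e2 hC
    have e4 : C * (2 * M + ∑ y ∈ F, 2 * ∫ t in (-M)..M, 1 / (ε + |t - y|)) =
        C * (2 * M) + C * ∑ y ∈ F, 2 * ∫ t in (-M)..M, 1 / (ε + |t - y|) := by ring
    rw [e4, ← hIp]
    calc B * Ip + (C * (2 * M) + C * ∑ y ∈ F, 2 * ∫ t in (-M)..M, 1 / (ε + |t - y|)) ≤
          B * Ip + (C * (2 * M) + C * (∑ y ∈ F, 2 * (2 * Real.log (1 + (M + |y|))) +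
            (∑ _y ∈ F, 4) * Real.log (1 / ε))) := by linarith
      _ = _ := by ring

/-- **The limit of the Borel means.** -/
theorem Chi.lim (H : Chi lam c δ σ κ χ) (ha : ∀ z : ℂ, z.re = 1 → AnalyticAt ℂ χ z) {m : ℕ}
    {χ₁ : ℂ → ℂ} (h1 : AnalyticAt ℂ χ₁ 1) (h10 : χ₁ 1 ≠ 0)
    (near : ∀ᶠ z in 𝓝 (1 : ℂ), χ z = (z - 1) ^ m * χ₁ z) :
    ∃ a : ℂ, exp (-a) = χ₁ 1 ∧ ∃ C : ℝ, 0 ≤ C ∧ ∀ l : ℝ, 1 ≤ l →
      ‖((Real.exp (-l) * BI (fun v => Sh lam c (κ * v)) l - m * Real.log l : ℝ) : ℂ) -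
        (a + m * Real.eulerMascheroniConstant)‖ ≤ C * ((1 + Real.log l) / l) := by
  obtain ⟨f, hf, hexp, hff⟩ := H.exists_f
  obtain ⟨a, ha1, hb1⟩ := bound_one hf hexp h1 h10 near
  refine ⟨a, ha1, ?_⟩
  have hκ := H.κ0
  have hσ := H.D.σ0
  have hX1 := X₀_gt hκ hσ
  set M : ℝ := X₀ κ σ + 1 with hM
  have hM0 : 0 ≤ M := by linarith
  set Y : ℂ → ℂ := Yf f m a with hY
  have hYd : ∀ z ∈ HP, DifferentiableAt ℂ Y z := fun z hz => Yf_diff hz (hf z hz)
  -- the compact part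
  set K : Set ℂ := {v : ℂ | 1 ≤ v.re ∧ ‖v‖ ≤ M} with hK
  have hKc : IsCompact K := by
    have hcl : IsClosed K := by
      have e1 : IsClosed {v : ℂ | 1 ≤ v.re} := isClosed_le continuous_const Complex.continuous_re
      have e3 : IsClosed {v : ℂ | ‖v‖ ≤ M} := isClosed_le continuous_norm continuous_const
      exact e1.inter e3
    refine (isCompact_closedBall (0 : ℂ) M).of_isClosed_subset hcl ?_
    rintro v ⟨-, h⟩
    rwa [Metric.mem_closedBall, dist_zero_right]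
  obtain ⟨C₁, hC₁, F, hF⟩ := compact_bound hYd (fun z₀ hz₀ => by
    by_cases h : z₀ = 1
    · rw [h]
      exact hb1
    · exact bound_ne hf hexp H.ne hz₀ h (ha z₀ hz₀) m a) hKc fun z hz => hz.1
  -- the far part
  obtain ⟨B₁, hB₁, hB₁b⟩ := far_bound H.D hκ
  obtain ⟨Cg, hCg, hgl⟩ := gl_bound (α := 1 / 2) (by norm_num) one_pos
  set B₂ : ℝ := (1 + 1 / 1) ^ (3 / 2 : ℝ) with hB₂
  have hB₂0 : 0 ≤ B₂ := by positivity
  have hfar : ∀ z ∈ HP, M < ‖z‖ → ‖deriv Y z‖ ≤
      ((B₁ + ‖(m : ℂ)‖ * Cg + ‖a‖) * B₂) * (1 + |z.im|) ^ (-(3 / 2 : ℝ)) := by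
    intro z hz hzM
    have hn1 := HP_norm hz
    have hw1 : 1 ≤ ‖z - 1‖ := by
      have := norm_sub_norm_le z 1
      rw [norm_one] at this
      linarith
    have hwi : (z - 1).im = z.im := by simp
    have e0 : ‖deriv Y z‖ = ‖-deriv Y z‖ := (norm_neg _).symm
    rw [e0, hY, Yf_deriv hz (hf z hz)]
    have g1 : ‖-deriv (Ff f) z‖ ≤ B₁ * (B₂ * (1 + |z.im|) ^ (-(3 / 2 : ℝ))) := by
      rw [norm_neg]
      refine (hB₁b f hff z hz (by linarith)).trans (mul_le_mul_of_nonneg_left ?_ hB₁)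
      have e1 := nb one_pos (by norm_num : (0 : ℝ) ≤ 3 / 2) hn1.le
      refine le_trans ?_ e1
      exact Real.rpow_le_rpow_of_exponent_le hn1.le (by norm_num)
    have g2 : ‖(m : ℂ) * gl (z - 1)‖ ≤ ‖(m : ℂ)‖ * Cg * (B₂ * (1 + |z.im|) ^ (-(3 / 2 : ℝ))) := by
      rw [norm_mul, mul_assoc]
      refine mul_le_mul_of_nonneg_left ?_ (norm_nonneg _)
      have e1 := hgl _ hw1
      have e2 := nb one_pos (by norm_num : (0 : ℝ) ≤ 3 / 2) hw1
      have e3 : (-(2 - 1 / 2 : ℝ)) = -(3 / 2) := by norm_num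
      rw [e3] at e1
      rw [hwi] at e2
      exact e1.trans (mul_le_mul_of_nonneg_left e2 hCg)
    have g3 : ‖a * (1 / (z - 1) ^ 2)‖ ≤ ‖a‖ * (B₂ * (1 + |z.im|) ^ (-(3 / 2 : ℝ))) := by
      rw [norm_mul, norm_div, norm_one, norm_pow]
      refine mul_le_mul_of_nonneg_left ?_ (norm_nonneg _)
      have e2 := nb one_pos (by norm_num : (0 : ℝ) ≤ 3 / 2) hw1
      rw [hwi] at e2
      refine le_trans ?_ e2
      have e3 : 1 / ‖z - 1‖ ^ 2 = ‖z - 1‖ ^ (-(2 : ℝ)) := by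
        rw [rpow_neg_two (norm_nonneg _), one_div]
      rw [e3]
      exact Real.rpow_le_rpow_of_exponent_le hw1 (by norm_num)
    refine ((norm_sub_le _ _).trans (add_le_add ((norm_sub_le _ _).trans
      (add_le_add g1 g2)) g3)).trans (le_of_eq ?_)
    ring
  obtain ⟨A₁, A₂, hA₁, hA₂, hline⟩ := line_le (R := deriv Y) hM0 (by positivity) hC₁ hfar
    fun z hz hzM => hF z ⟨(HP_re hz).le, hzM⟩ hz
  refine ⟨(2 * Real.pi)⁻¹ * Real.exp 1 * (A₁ + A₂), by positivity, fun l hl => ?_⟩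
  have hl0 : 0 < l := by linarith
  have hlc : (l : ℂ) ≠ 0 := by exact_mod_cast hl0.ne'
  set ε : ℝ := 1 / l with hε
  have hε0 : 0 < ε := by positivity
  have hε1 : ε ≤ 1 := by rw [hε, div_le_one hl0]; exact hl
  have hεl : ε * l = 1 := by rw [hε]; field_simp
  obtain ⟨g, hg, hg1, hg2⟩ := hline ε hε0 hε1
  set c₀ : ℝ := 1 + ε with hc₀
  have hc1 : 1 < c₀ := by rw [hc₀]; linarith
  have hre : ∀ t : ℝ, ((c₀ : ℂ) + t * I).re = c₀ := fun t => by simp
  have hHP : ∀ t : ℝ, ((c₀ : ℂ) + t * I) ∈ HP := fun t => by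
    change 1 < ((c₀ : ℂ) + t * I).re
    rw [hre]
    exact hc1
  have hexpn : ∀ t : ℝ, ‖exp (((c₀ : ℂ) + t * I) * l)‖ = Real.exp l * Real.exp 1 := fun t => by
    rw [Complex.norm_exp, Complex.re_mul_ofReal, hre, ← Real.exp_add]
    congr 1
    rw [hc₀, add_mul, hεl, one_mul]
  have hsub : ∀ t : ℝ, ((c₀ : ℂ) + t * I) - 1 = (ε : ℂ) + t * I := fun t => by
    rw [hc₀]
    push_cast
    ring
  have hshift : ∀ t : ℝ, exp (((c₀ : ℂ) + t * I) * l) = exp l * exp (((ε : ℂ) + t * I) * l) := by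
    intro t
    rw [← Complex.exp_add]
    congr 1
    rw [hc₀]
    push_cast
    ring
  -- the bound of the remainder
  have hYc : ∀ s : ℂ, s.re = c₀ → ContinuousAt (fun z => exp (z * l) * -deriv Y z) s := by
    intro s hs
    have hsH : s ∈ HP := by change 1 < s.re; rw [hs]; exact hc1
    have hd : DifferentiableOn ℂ Y HP := fun z hz => (hYd z hz).differentiableWithinAt
    have e1 : DifferentiableAt ℂ (deriv Y) s :=
      (hd.deriv HP_open).differentiableAt (HP_open.mem_nhds hsH)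
    have e2 : DifferentiableAt ℂ (fun z : ℂ => exp (z * l)) s := by fun_prop
    exact (e2.mul e1.neg).continuousAt
  have iR : Integrable fun t : ℝ => exp (((c₀ : ℂ) + t * I) * l) * -deriv Y ((c₀ : ℂ) + t * I) := by
    refine (hg.const_mul (Real.exp l * Real.exp 1)).mono'
      (line_cont (H := fun z => exp (z * l) * -deriv Y z) hYc).aestronglyMeasurable
      (ae_of_all _ fun t => ?_)
    rw [norm_mul, hexpn, norm_neg]
    exact mul_le_mul_of_nonneg_left (hg1 t) (by positivity)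
  have hVR := norm_V_le (H := fun z => exp (z * l) * -deriv Y z) (c := c₀)
    (g := fun t => (Real.exp l * Real.exp 1) * g t) (hg.const_mul _) fun t => by
      rw [norm_mul, hexpn, norm_neg]
      exact mul_le_mul_of_nonneg_left (hg1 t) (by positivity)
  rw [integral_const_mul] at hVR
  -- the main terms
  have ig : Integrable fun t : ℝ => exp (((ε : ℂ) + t * I) * l) * gl ((ε : ℂ) + t * I) := by
    obtain ⟨Bg, hBg, hBgb⟩ := gl_line hε0
    refine line_int (H := fun z => exp (z * l) * gl z) (p := 3 / 2)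
      (B := Real.exp 1 * Bg) (by norm_num) (fun s hs => ?_) (fun s hs => ?_)
    · have hs0 : 0 < s.re := by rw [hs]; exact hε0
      have e2 : DifferentiableAt ℂ (fun z : ℂ => exp (z * l)) s := by fun_prop
      exact (e2.mul (gl_diff hs0)).continuousAt
    · rw [norm_mul, Complex.norm_exp, Complex.re_mul_ofReal, hs, hεl, mul_assoc (Real.exp 1)]
      exact mul_le_mul_of_nonneg_left (hBgb s hs.ge) (Real.exp_pos _).le
  have iq : Integrable fun t : ℝ => exp (((ε : ℂ) + t * I) * l) / ((ε : ℂ) + t * I) ^ 2 := by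
    refine line_int (H := fun z => exp (z * l) / z ^ 2) (p := 2)
      (B := Real.exp 1 * (1 + 1 / ε) ^ (2 : ℝ)) (by norm_num) (fun s hs => ?_) (fun s hs => ?_)
    · have hs0 : 0 < s.re := by rw [hs]; exact hε0
      have e2 : DifferentiableAt ℂ (fun z : ℂ => exp (z * l)) s := by fun_prop
      have e3 : DifferentiableAt ℂ (fun z : ℂ => z ^ 2) s := by fun_prop
      exact (e2.div e3 (pow_ne_zero 2 (ne_zero' hs0))).continuousAt
    · have hs0 : 0 < s.re := by rw [hs]; exact hε0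
      have e0 : ε ≤ ‖s‖ := by rw [← hs]; exact re_le_norm s
      have e1 := nb hε0 (by norm_num : (0 : ℝ) ≤ 2) e0
      rw [rpow_neg_two (norm_nonneg s)] at e1
      rw [norm_div, Complex.norm_exp, Complex.re_mul_ofReal, hs, hεl, norm_pow, div_eq_mul_inv,
        mul_assoc]
      exact mul_le_mul_of_nonneg_left e1 (Real.exp_pos _).le
  have hBI := lBI_line H.D hκ hf hff hl0 hc1
  have hdec : V c₀ (fun z => exp (z * l) * -deriv (Ff f) z) =
      V c₀ (fun z => exp (z * l) * -deriv Y z) + exp l * (m * V ε (fun z => exp (z * l) * gl z) +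
        a * V ε (fun z => exp (z * l) / z ^ 2)) := by
    have e1 : ∀ t : ℝ, exp (((c₀ : ℂ) + t * I) * l) * -deriv (Ff f) ((c₀ : ℂ) + t * I) =
        exp (((c₀ : ℂ) + t * I) * l) * -deriv Y ((c₀ : ℂ) + t * I) +
        exp l * ((m : ℂ) * (exp (((ε : ℂ) + t * I) * l) * gl ((ε : ℂ) + t * I)) +
          a * (exp (((ε : ℂ) + t * I) * l) / ((ε : ℂ) + t * I) ^ 2)) := by
      intro t
      rw [hY, Yf_deriv (hHP t) (hf _ (hHP t)), hsub, hshift]
      ring
    unfold V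
    simp only [e1]
    have i1 : Integrable fun t : ℝ => (m : ℂ) * (exp (((ε : ℂ) + t * I) * l) *
        gl ((ε : ℂ) + t * I)) + a * (exp (((ε : ℂ) + t * I) * l) / ((ε : ℂ) + t * I) ^ 2) :=
      (ig.const_mul _).add (iq.const_mul _)
    rw [integral_add iR (i1.const_mul _), integral_const_mul,
      integral_add (ig.const_mul _) (iq.const_mul _), integral_const_mul, integral_const_mul]
    ring
  have a4 : V ε (fun z => exp (z * l) * gl z) =
      l * (Real.eulerMascheroniConstant + Real.log l) := by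
    rw [← gg_line hε0 (Or.inl hε1), gg_pos hl0, L₀_eq]
  have a5 : V ε (fun z => exp (z * l) / z ^ 2) = l := V_sq hl0
  rw [hdec, a4, a5] at hBI
  have hel : (Real.exp l : ℂ) = exp (l : ℂ) := Complex.ofReal_exp l
  have hkey : ((Real.exp (-l) * BI (fun v => Sh lam c (κ * v)) l - m * Real.log l : ℝ) : ℂ) -
      (a + m * Real.eulerMascheroniConstant) =
      exp (-(l : ℂ)) * (l : ℂ)⁻¹ * V c₀ (fun z => exp (z * l) * -deriv Y z) := by
    have e1 : exp (-(l : ℂ)) * exp (l : ℂ) = 1 := by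
      rw [← Complex.exp_add]
      simp
    have e2 : ((BI (fun v => Sh lam c (κ * v)) l : ℝ) : ℂ) = (l : ℂ)⁻¹ *
        (V c₀ (fun z => exp (z * l) * -deriv Y z) + exp l * (m * (l *
          (Real.eulerMascheroniConstant + Real.log l)) + a * l)) := by
      rw [← hBI]
      push_cast
      field_simp
    push_cast at e2 ⊢
    rw [e2]
    have e3 : exp (-(l : ℂ)) * ((l : ℂ)⁻¹ * (V c₀ (fun z => exp (z * l) * -deriv Y z) +
        exp l * (m * (l * (Real.eulerMascheroniConstant + Complex.log l)) + a * l))) =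
        exp (-(l : ℂ)) * (l : ℂ)⁻¹ * V c₀ (fun z => exp (z * l) * -deriv Y z) +
        (exp (-(l : ℂ)) * exp l) * (((l : ℂ)⁻¹ * l) * (m * (Real.eulerMascheroniConstant +
          Complex.log l) + a)) := by ring
    rw [Complex.ofReal_log hl0.le, e3, e1, inv_mul_cancel₀ hlc]
    ring
  rw [hkey, norm_mul, norm_mul, Complex.norm_exp, norm_inv, Complex.norm_real, Real.norm_eq_abs,
    abs_of_pos hl0]
  have hel2 : (-(l : ℂ)).re = -l := by simp
  rw [hel2]
  have hlog : 0 ≤ Real.log l := Real.log_nonneg hl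
  have hg3 : ∫ t, g t ≤ (A₁ + A₂) * (1 + Real.log l) := by
    refine hg2.trans ?_
    rw [hε, one_div_one_div]
    nlinarith
  calc Real.exp (-l) * l⁻¹ * ‖V c₀ (fun z => exp (z * l) * -deriv Y z)‖ ≤
        Real.exp (-l) * l⁻¹ * ((2 * Real.pi)⁻¹ * (Real.exp l * Real.exp 1 * ∫ t, g t)) := by
        gcongr
    _ = (Real.exp (-l) * Real.exp l) * ((2 * Real.pi)⁻¹ * Real.exp 1 * (l⁻¹ * ∫ t, g t)) := by ring
    _ = (2 * Real.pi)⁻¹ * Real.exp 1 * (l⁻¹ * ∫ t, g t) := by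
        rw [← Real.exp_add]
        simp
    _ ≤ (2 * Real.pi)⁻¹ * Real.exp 1 * (l⁻¹ * ((A₁ + A₂) * (1 + Real.log l))) := by gcongr
    _ = _ := by
        rw [div_eq_mul_inv]
        ring

end Pool.Agent.E8helper66.BM
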