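import Pool.Agent.E8helper66.BM.Up
import Pool.Agent.TH270.MS.LocL2

/-!
# Local analysis at the boundary of the half plane
-/

set_option autoImplicit false

open MeasureTheory Filter Topology Set Complex
open Pool.Agent.TH942.LS (Dat P P_le)
open Pool.Agent.TH942.SL

namespace Pool.Agent.E8helper66.BM

variable {χ f : ℂ → ℂ}

lemma sub_re {z z₀ : ℂ} (hz₀ : z₀.re = 1) (hz : z ∈ HP) : 0 < (z - z₀).re := by
  rw [Complex.sub_re, hz₀]
  linarith [HP_re hz]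

/-- points of the half plane near a boundary point -/
lemma near_HP {z₀ : ℂ} (hz₀ : z₀.re = 1) {p : ℂ → Prop} (h : ∀ᶠ z in 𝓝 z₀, p z) :
    ∃ z ∈ HP, p z := by
  have hc : Tendsto (fun ε : ℝ => z₀ + ε) (𝓝[>] 0) (𝓝 z₀) := by
    have h4 : Continuous fun ε : ℝ => z₀ + (ε : ℂ) := by fun_prop
    have h5 := h4.tendsto 0
    simp only [Complex.ofReal_zero, add_zero] at h5
    exact h5.mono_left nhdsWithin_le_nhds
  obtain ⟨ε, h1, h2⟩ := ((hc.eventually h).and self_mem_nhdsWithin).exists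
  refine ⟨z₀ + ε, ?_, h1⟩
  have h3 : (0 : ℝ) < ε := h2
  change 1 < (z₀ + (ε : ℂ)).re
  rw [Complex.add_re, Complex.ofReal_re, hz₀]
  linarith

/-- the local form of the logarithm -/
theorem loc_form (hf : ∀ z ∈ HP, DifferentiableAt ℂ f z) (hexp : ∀ z ∈ HP, exp (-f z) = χ z)
    {z₀ : ℂ} (hz₀ : z₀.re = 1) {n : ℕ} {χ₁ : ℂ → ℂ} (h1 : AnalyticAt ℂ χ₁ z₀) (h10 : χ₁ z₀ ≠ 0)
    (near : ∀ᶠ z in 𝓝 z₀, χ z = (z - z₀) ^ n * χ₁ z) :
    ∃ A : ℂ → ℂ, AnalyticAt ℂ A z₀ ∧ exp (-A z₀) = χ₁ z₀ ∧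
      ∀ᶠ z in 𝓝 z₀, z ∈ HP → f z = -(n * log (z - z₀)) + A z := by
  have hgc := h1.continuousAt
  have hq0 : χ₁ z₀ / χ₁ z₀ = 1 := div_self h10
  have hall : ∀ᶠ s in 𝓝 z₀, χ s = (s - z₀) ^ n * χ₁ s ∧ AnalyticAt ℂ χ₁ s ∧
      χ₁ s / χ₁ z₀ ∈ slitPlane := by
    have e1 : ContinuousAt (fun s => χ₁ s / χ₁ z₀) z₀ := hgc.div_const _
    have e2 : ∀ᶠ s in 𝓝 z₀, χ₁ s / χ₁ z₀ ∈ slitPlane :=
      e1.eventually (isOpen_slitPlane.mem_nhds (by
        change χ₁ z₀ / χ₁ z₀ ∈ slitPlane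
        rw [hq0]
        exact one_mem_slitPlane))
    filter_upwards [near, h1.eventually_analyticAt, e2] with s h2 h3 h4
    exact ⟨h2, h3, h4⟩
  obtain ⟨r, hr, hball⟩ := Metric.eventually_nhds_iff_ball.1 hall
  set U : Set ℂ := HP ∩ Metric.ball z₀ r with hU
  have hUo : IsOpen U := HP_open.inter Metric.isOpen_ball
  have hUc : Convex ℝ U := HP_convex.inter (convex_ball z₀ r)
  obtain ⟨v₁, hv1H, hv1b⟩ := near_HP hz₀ (Metric.ball_mem_nhds z₀ hr)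
  have hv1U : v₁ ∈ U := ⟨hv1H, hv1b⟩
  set Q : ℂ → ℂ := fun z => f z + n * log (z - z₀) + log (χ₁ z / χ₁ z₀) with hQ
  have hlogd : ∀ z ∈ HP, DifferentiableAt ℂ (fun z => log (z - z₀)) z := fun z hz =>
    DifferentiableAt.clog (by fun_prop) (slit (sub_re hz₀ hz))
  have hQd : ∀ z ∈ U, DifferentiableAt ℂ Q z := by
    intro z hz
    obtain ⟨-, b2, b3⟩ := hball z hz.2
    exact ((hf z hz.1).add ((hlogd z hz.1).const_mul _)).add
      ((b2.differentiableAt.div_const _).clog b3)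
  have hQe : ∀ z ∈ U, exp (-Q z) = χ₁ z₀ := by
    intro z hz
    obtain ⟨b1, b2, b3⟩ := hball z hz.2
    have hz0 : z - z₀ ≠ 0 := ne_zero' (sub_re hz₀ hz.1)
    have hχ1 : χ₁ z ≠ 0 := by
      intro h
      rw [h, zero_div] at b3
      exact zero_notMem_slitPlane b3
    have e1 : -Q z = -f z - n * log (z - z₀) - log (χ₁ z / χ₁ z₀) := by rw [hQ]; ring
    rw [e1, Complex.exp_sub, Complex.exp_sub, hexp z hz.1, b1, Complex.exp_nat_mul,
      Complex.exp_log hz0, Complex.exp_log (div_ne_zero hχ1 h10)]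
    field_simp
  have hQc : ∀ z ∈ U, Q z = Q v₁ := fun z hz =>
    Pool.Agent.TH270.MS.LocL2.const_of_exp hUo hUc.isPreconnected (D := fun z => -Q z)
      (fun z hz => (hQd z hz).neg) hQe hz hv1U |> neg_injective
  refine ⟨fun z => Q v₁ - log (χ₁ z / χ₁ z₀), ?_, ?_, ?_⟩
  · have e1 : AnalyticAt ℂ (fun z => χ₁ z / χ₁ z₀) z₀ := h1.div analyticAt_const h10
    exact analyticAt_const.sub (e1.clog (by rw [hq0]; exact one_mem_slitPlane))
  · simp only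
    rw [hq0, Complex.log_one, sub_zero]
    exact hQe v₁ hv1U
  · filter_upwards [Metric.ball_mem_nhds z₀ hr] with z hz hzH
    have e1 := hQc z ⟨hzH, hz⟩
    rw [← e1, hQ]
    ring

/-- the order of a zero on the boundary is finite -/
theorem loc_order (hne : ∀ z ∈ HP, χ z ≠ 0) {z₀ : ℂ} (hz₀ : z₀.re = 1) (ha : AnalyticAt ℂ χ z₀) :
    ∃ (n : ℕ) (χ₁ : ℂ → ℂ), AnalyticAt ℂ χ₁ z₀ ∧ χ₁ z₀ ≠ 0 ∧
      ∀ᶠ z in 𝓝 z₀, χ z = (z - z₀) ^ n * χ₁ z := by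
  have hnz : ¬ ∀ᶠ z in 𝓝 z₀, χ z = 0 := by
    intro h
    obtain ⟨z, h1, h2⟩ := near_HP hz₀ h
    exact hne z h1 h2
  obtain ⟨n, g, hg, hg0, heq⟩ := ha.exists_eventuallyEq_pow_smul_nonzero_iff.2 hnz
  refine ⟨n, g, hg, hg0, ?_⟩
  filter_upwards [heq] with z hz
  rw [hz, smul_eq_mul]

/-- bound of the logarithm near `0` -/
lemma log_bd {w : ℂ} (hw : 0 < w.re) (h1 : ‖w‖ ≤ 1) : ‖log w‖ ≤ 5 / ‖w‖ := by
  have hn : 0 < ‖w‖ := norm_pos' hw
  have hpi := Real.pi_lt_four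
  have e1 : ‖log w‖ ≤ |Real.log ‖w‖| + Real.pi := by
    have := Complex.norm_le_abs_re_add_abs_im (log w)
    rw [Complex.log_re, Complex.log_im] at this
    have := Complex.abs_arg_le_pi w
    linarith
  have e2 : |Real.log ‖w‖| ≤ 1 / ‖w‖ := by
    rw [abs_of_nonpos (Real.log_nonpos hn.le h1)]
    have := Real.one_sub_inv_le_log_of_pos hn
    rw [one_div]
    linarith
  have e3 : 1 ≤ 1 / ‖w‖ := by rw [le_div_iff₀ hn]; linarith
  have e4 : 5 / ‖w‖ = 1 / ‖w‖ + 4 * (1 / ‖w‖) := by ring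
  rw [e4]
  linarith

/-- the bound of the derivative near a boundary point -/
theorem loc_bound {Y u E : ℂ → ℂ} {z₀ : ℂ} (hz₀ : z₀.re = 1) (hu : AnalyticAt ℂ u z₀)
    (hE : AnalyticAt ℂ E z₀) (h : ∀ᶠ z in 𝓝 z₀, z ∈ HP → Y z = u z * log (z - z₀) + E z) :
    ∃ C : ℝ, 0 ≤ C ∧ ∀ᶠ z in 𝓝 z₀, z ∈ HP → ‖deriv Y z‖ ≤ C * (1 + 1 / ‖z - z₀‖) := by
  set Cu : ℝ := ‖u z₀‖ + 1 with hCu
  set Cu' : ℝ := ‖deriv u z₀‖ + 1 with hCu'
  set CE : ℝ := ‖deriv E z₀‖ + 1 with hCE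
  have b1 : ∀ᶠ z in 𝓝 z₀, ‖u z‖ ≤ Cu :=
    (hu.continuousAt.norm.eventually (gt_mem_nhds (lt_add_one _))).mono fun v hv => hv.le
  have b2 : ∀ᶠ z in 𝓝 z₀, ‖deriv u z‖ ≤ Cu' :=
    (hu.deriv.continuousAt.norm.eventually (gt_mem_nhds (lt_add_one _))).mono fun v hv => hv.le
  have b3 : ∀ᶠ z in 𝓝 z₀, ‖deriv E z‖ ≤ CE :=
    (hE.deriv.continuousAt.norm.eventually (gt_mem_nhds (lt_add_one _))).mono fun v hv => hv.le
  refine ⟨5 * Cu' + Cu + CE, by positivity, ?_⟩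
  filter_upwards [b1, b2, b3, hu.eventually_analyticAt, hE.eventually_analyticAt,
    h.eventually_nhds, Metric.ball_mem_nhds z₀ one_pos] with z c1 c2 c3 c4 c5 c6 c7 hz
  have hw := sub_re hz₀ hz
  have hn : 0 < ‖z - z₀‖ := norm_pos' hw
  have hw1 : ‖z - z₀‖ ≤ 1 := by
    rw [Metric.mem_ball, Complex.dist_eq] at c7
    exact c7.le
  have e1 : Y =ᶠ[𝓝 z] fun z => u z * log (z - z₀) + E z := by
    filter_upwards [c6, HP_open.mem_nhds hz] with w h1 h2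
    exact h1 h2
  have e2 : HasDerivAt (fun z => log (z - z₀)) (1 / (z - z₀)) z := by
    have h3 : HasDerivAt (fun z => z - z₀) 1 z := (hasDerivAt_id z).sub_const z₀
    exact h3.clog (slit hw)
  have e3 : HasDerivAt (fun z => u z * log (z - z₀) + E z)
      (deriv u z * log (z - z₀) + u z * (1 / (z - z₀)) + deriv E z) z :=
    (c4.differentiableAt.hasDerivAt.mul e2).add c5.differentiableAt.hasDerivAt
  rw [e1.deriv_eq, e3.deriv]
  have e4 := log_bd hw hw1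
  have hCu0 : 0 ≤ Cu := by positivity
  have hCu0' : 0 ≤ Cu' := by positivity
  have hCE0 : 0 ≤ CE := by positivity
  have hp : 0 < 1 / ‖z - z₀‖ := by positivity
  calc ‖deriv u z * log (z - z₀) + u z * (1 / (z - z₀)) + deriv E z‖ ≤
        ‖deriv u z‖ * ‖log (z - z₀)‖ + ‖u z‖ * (1 / ‖z - z₀‖) + ‖deriv E z‖ := by
        refine (norm_add_le _ _).trans (add_le_add_left ((norm_add_le _ _).trans ?_) _)
        rw [norm_mul, norm_mul, norm_div, norm_one]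
    _ ≤ Cu' * (5 / ‖z - z₀‖) + Cu * (1 / ‖z - z₀‖) + CE := by gcongr
    _ = (5 * Cu' + Cu) * (1 / ‖z - z₀‖) + CE := by ring
    _ ≤ (5 * Cu' + Cu + CE) * (1 / ‖z - z₀‖) + (5 * Cu' + Cu + CE) := by
        have : 0 ≤ CE * (1 / ‖z - z₀‖) := by positivity
        have h5 : 0 ≤ 5 * Cu' + Cu := by positivity
        nlinarith
    _ = _ := by ring

/-- the function without the main term -/
noncomputable def Yf (f : ℂ → ℂ) (m a : ℂ) (z : ℂ) : ℂ :=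
  Ff f z - (a - m * log (z - 1)) / (z - 1)

lemma one_re : (1 : ℂ).re = 1 := Complex.one_re

lemma Yf_deriv {m a : ℂ} {z : ℂ} (hz : z ∈ HP) (hf : DifferentiableAt ℂ f z) :
    -deriv (Yf f m a) z = -deriv (Ff f) z - m * gl (z - 1) - a * (1 / (z - 1) ^ 2) := by
  have hw : 0 < (z - 1).re := sub_re one_re hz
  have hw0 := ne_zero' hw
  have e1 : HasDerivAt (fun z : ℂ => z - 1) 1 z := (hasDerivAt_id z).sub_const 1
  have e2 : HasDerivAt (fun z : ℂ => a - m * log (z - 1)) (-(m * (1 / (z - 1)))) z :=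
    ((e1.clog (slit hw)).const_mul m).const_sub a
  have e3 := (Ff_diff hz hf).hasDerivAt.sub (e2.fun_div e1 hw0)
  have e4 : HasDerivAt (Yf f m a) (deriv (Ff f) z - (-(m * (1 / (z - 1))) * (z - 1) -
      (a - m * log (z - 1)) * 1) / (z - 1) ^ 2) z := e3
  rw [e4.deriv]
  unfold gl
  field_simp
  ring

lemma Yf_diff {m a : ℂ} {z : ℂ} (hz : z ∈ HP) (hf : DifferentiableAt ℂ f z) :
    DifferentiableAt ℂ (Yf f m a) z := by
  have hw : 0 < (z - 1).re := sub_re one_re hz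
  have hw0 := ne_zero' hw
  have e1 : DifferentiableAt ℂ (fun z : ℂ => z - 1) z := by fun_prop
  exact (Ff_diff hz hf).sub (((e1.clog (slit hw)).const_mul m |>.const_sub a).div e1 hw0)

/-- the bound near a boundary point different from `1` -/
theorem bound_ne (hf : ∀ z ∈ HP, DifferentiableAt ℂ f z) (hexp : ∀ z ∈ HP, exp (-f z) = χ z)
    (hne : ∀ z ∈ HP, χ z ≠ 0) {z₀ : ℂ} (hz₀ : z₀.re = 1) (h1 : z₀ ≠ 1) (ha : AnalyticAt ℂ χ z₀)
    (m a : ℂ) :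
    ∃ C : ℝ, 0 ≤ C ∧ ∀ᶠ z in 𝓝 z₀, z ∈ HP → ‖deriv (Yf f m a) z‖ ≤ C * (1 + 1 / ‖z - z₀‖) := by
  obtain ⟨n, χ₁, hχ, hχ0, hnear⟩ := loc_order hne hz₀ ha
  obtain ⟨A, hA, -, hA2⟩ := loc_form hf hexp hz₀ hχ hχ0 hnear
  have hz00 : z₀ ≠ 0 := by
    intro h
    rw [h] at hz₀
    simp at hz₀
  have hsl : z₀ ∈ slitPlane := Or.inl (by rw [hz₀]; exact one_pos)
  have hl0 : log z₀ ≠ 0 := by
    intro h
    have h2 := Complex.exp_log hz00
    rw [h, Complex.exp_zero] at h2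
    exact h1 h2.symm
  have hlog : AnalyticAt ℂ (fun z : ℂ => log z) z₀ := analyticAt_clog hsl
  have hsl1 : z₀ - 1 ∈ slitPlane := by
    right
    intro h
    refine h1 (Complex.ext ?_ ?_)
    · rw [hz₀]; rfl
    · rw [Complex.sub_im, Complex.one_im, sub_zero] at h
      rw [h]; rfl
  have hw : AnalyticAt ℂ (fun z : ℂ => z - 1) z₀ := by fun_prop
  have hlog1 : AnalyticAt ℂ (fun z : ℂ => log (z - 1)) z₀ := hw.clog hsl1
  have hu0 : AnalyticAt ℂ (fun z : ℂ => (z * log z)⁻¹) z₀ :=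
    (analyticAt_id.mul hlog).inv (mul_ne_zero hz00 hl0)
  have hu : AnalyticAt ℂ (fun z : ℂ => -(n : ℂ) * (z * log z)⁻¹) z₀ :=
    analyticAt_const.mul hu0
  have hE : AnalyticAt ℂ (fun z : ℂ => A z * (z * log z)⁻¹ -
      (a - m * log (z - 1)) / (z - 1)) z₀ :=
    (hA.mul hu0).sub ((analyticAt_const.sub (analyticAt_const.mul hlog1)).div hw
      (sub_ne_zero.2 h1))
  refine loc_bound hz₀ hu hE ?_
  filter_upwards [hA2] with z hz hzH
  unfold Yf Ff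
  rw [hz hzH, div_eq_mul_inv (-(n * log (z - z₀)) + A z)]
  ring

/-- an analytic function is its value plus a multiple of the variable -/
lemma split_at {w : ℂ → ℂ} {z₀ : ℂ} (hw : AnalyticAt ℂ w z₀) :
    ∃ w₁ : ℂ → ℂ, AnalyticAt ℂ w₁ z₀ ∧ ∀ᶠ z in 𝓝 z₀, w z = w z₀ + (z - z₀) * w₁ z := by
  have h1 : AnalyticAt ℂ (fun z => w z - w z₀) z₀ := hw.sub analyticAt_const
  have h2 : (1 : ℕ∞) ≤ analyticOrderAt (fun z => w z - w z₀) z₀ := by
    rw [Order.one_le_iff_ne_zero]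
    intro h
    rw [h1.analyticOrderAt_eq_zero] at h
    exact h (sub_self _)
  have h3 : ((1 : ℕ) : ℕ∞) ≤ analyticOrderAt (fun z => w z - w z₀) z₀ := by exact_mod_cast h2
  rw [natCast_le_analyticOrderAt h1] at h3
  obtain ⟨g, hg, hg2⟩ := h3
  refine ⟨g, hg, ?_⟩
  filter_upwards [hg2] with z hz
  rw [pow_one, smul_eq_mul] at hz
  linear_combination hz

/-- `z log z` near `1` -/
lemma inv_at_one : ∃ β : ℂ → ℂ, AnalyticAt ℂ β 1 ∧
    ∀ᶠ z in 𝓝 (1 : ℂ), z ∈ HP → (z * log z)⁻¹ = (1 + (z - 1) * β z) / (z - 1) := by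
  have hlog : AnalyticAt ℂ (fun z : ℂ => log z) 1 := analyticAt_clog one_mem_slitPlane
  have h0 : AnalyticAt ℂ (fun z : ℂ => z * log z) 1 := analyticAt_id.mul hlog
  obtain ⟨α, hα, hα2⟩ := split_at h0
  simp only [Complex.log_one, mul_zero, zero_add] at hα2
  -- the value of `α` at `1`
  have hα1 : α 1 = 1 := by
    have e1 : HasDerivAt (fun z : ℂ => z * log z) (1 * log 1 + 1 * (1 : ℂ)⁻¹) 1 :=
      (hasDerivAt_id 1).fun_mul (Complex.hasDerivAt_log one_mem_slitPlane)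
    have e2 : HasDerivAt (fun z : ℂ => (z - 1) * α z) (1 * α 1 + (1 - 1) * deriv α 1) 1 :=
      ((hasDerivAt_id 1).sub_const 1).fun_mul hα.differentiableAt.hasDerivAt
    have e3 := e2.unique (e1.congr_of_eventuallyEq (by
      filter_upwards [hα2] with z hz
      exact hz.symm))
    simpa using e3
  have hinv : AnalyticAt ℂ (fun z => (α z)⁻¹) 1 := hα.inv (by rw [hα1]; exact one_ne_zero)
  obtain ⟨β, hβ, hβ2⟩ := split_at hinv
  refine ⟨β, hβ, ?_⟩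
  filter_upwards [hα2, hβ2] with z h1 h2 hz
  rw [h1, mul_inv, h2, hα1, inv_one]
  field_simp

/-- the bound near `1` -/
theorem bound_one (hf : ∀ z ∈ HP, DifferentiableAt ℂ f z) (hexp : ∀ z ∈ HP, exp (-f z) = χ z)
    {m : ℕ} {χ₁ : ℂ → ℂ} (h1 : AnalyticAt ℂ χ₁ 1) (h10 : χ₁ 1 ≠ 0)
    (near : ∀ᶠ z in 𝓝 (1 : ℂ), χ z = (z - 1) ^ m * χ₁ z) :
    ∃ a : ℂ, exp (-a) = χ₁ 1 ∧
    ∃ C : ℝ, 0 ≤ C ∧ ∀ᶠ z in 𝓝 (1 : ℂ), z ∈ HP →
      ‖deriv (Yf f m a) z‖ ≤ C * (1 + 1 / ‖z - 1‖) := by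
  obtain ⟨A, hA, hA1, hA2⟩ := loc_form hf hexp one_re h1 h10 near
  obtain ⟨A₁, hA₁, hA₁2⟩ := split_at hA
  obtain ⟨β, hβ, hβ2⟩ := inv_at_one
  refine ⟨A 1, hA1, ?_⟩
  have hu : AnalyticAt ℂ (fun z : ℂ => -(m : ℂ) * β z) 1 := analyticAt_const.mul hβ
  have hE : AnalyticAt ℂ (fun z : ℂ => A₁ z + A z * β z) 1 := hA₁.add (hA.mul hβ)
  refine loc_bound one_re hu hE ?_
  filter_upwards [hA2, hA₁2, hβ2] with z e1 e2 e3 hz
  have hw0 : z - 1 ≠ 0 := ne_zero' (sub_re one_re hz)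
  unfold Yf Ff
  rw [div_eq_mul_inv (f z), e3 hz, e1 hz]
  field_simp
  linear_combination e2

end Pool.Agent.E8helper66.BM
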