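import Pool.Agent.E8helper66.BM.Rep
import Pool.Agent.TH942.SL.Lim

/-!
# The logarithm on the half plane `Re z > 1`
-/

set_option autoImplicit false

open MeasureTheory Filter Topology Set Complex
open Pool.Agent.TH942.LS (Dat P P_le)
open Pool.Agent.TH942.SL

namespace Pool.Agent.E8helper66.BM

/-- the half plane -/
def HP : Set ℂ := {z | 1 < z.re}

lemma HP_open : IsOpen HP := isOpen_lt continuous_const Complex.continuous_re

lemma HP_convex : Convex ℝ HP := convex_halfSpace_re_gt 1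

lemma HP_re {z : ℂ} (hz : z ∈ HP) : 1 < z.re := hz

lemma HP_pos {z : ℂ} (hz : z ∈ HP) : 0 < z.re := by linarith [HP_re hz]

lemma HP_norm {z : ℂ} (hz : z ∈ HP) : 1 < ‖z‖ := (HP_re hz).trans_le (re_le_norm z)

lemma log_ne {z : ℂ} (h : 1 < ‖z‖) : log z ≠ 0 := by
  intro h0
  have h1 := congrArg Complex.re h0
  rw [Complex.log_re, Complex.zero_re] at h1
  have := Real.log_pos h
  linarith

/-- the data: a function without zeros on the half plane which is the exponential of minus the series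
far away -/
structure Chi (lam c : ℕ → ℝ) (δ σ κ : ℝ) (χ : ℂ → ℂ) : Prop where
  D : Dat lam c δ σ
  κ0 : 0 < κ
  d : ∀ z ∈ HP, DifferentiableAt ℂ χ z
  ne : ∀ z ∈ HP, χ z ≠ 0
  far : ∀ z ∈ HP, Real.exp (κ * (σ + 1)) ≤ ‖z‖ → χ z = exp (-DD lam c (log z / κ))

variable {lam c : ℕ → ℝ} {δ σ κ : ℝ} {χ : ℂ → ℂ}

lemma re_log_div {κ : ℝ} (z : ℂ) : (log z / κ).re = Real.log ‖z‖ / κ := by
  rw [Complex.div_ofReal_re, Complex.log_re]

/-- the abscissa -/
lemma far_re (hκ : 0 < κ) {z : ℂ} {τ : ℝ} (h : Real.exp (κ * τ) ≤ ‖z‖) : τ ≤ (log z / κ).re := by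
  have hn : 0 < ‖z‖ := (Real.exp_pos _).trans_le h
  rw [re_log_div, le_div_iff₀ hκ, mul_comm]
  exact (Real.le_log_iff_exp_le hn).2 h

lemma comp_deriv {g : ℂ → ℂ} {g' : ℂ} {z : ℂ} (hz : z ∈ slitPlane)
    (hg : HasDerivAt g g' (log z / κ)) :
    HasDerivAt (fun z => g (log z / κ)) (g' * (z⁻¹ / κ)) z := by
  have h1 : HasDerivAt (fun z : ℂ => log z / κ) (z⁻¹ / κ) z :=
    (Complex.hasDerivAt_log hz).div_const _
  exact HasDerivAt.comp (h := fun z : ℂ => log z / κ) z hg h1

/-- the derivative of the far part -/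
lemma f₀_hd (D : Dat lam c δ σ) (hκ : 0 < κ) {z : ℂ} (hz : z ∈ HP)
    (h : Real.exp (κ * (σ + 1)) ≤ ‖z‖) :
    HasDerivAt (fun z => DD lam c (log z / κ)) (-P lam c (log z / κ) * (z⁻¹ / κ)) z := by
  refine comp_deriv (slit (HP_pos hz)) (dd_deriv D ?_)
  have := far_re hκ h
  linarith

/-- **The logarithm.** -/
theorem Chi.exists_f (H : Chi lam c δ σ κ χ) : ∃ f : ℂ → ℂ,
    (∀ z ∈ HP, DifferentiableAt ℂ f z) ∧ (∀ z ∈ HP, exp (-f z) = χ z) ∧
    ∀ z ∈ HP, Real.exp (κ * (σ + 1)) ≤ ‖z‖ → f z = DD lam c (log z / κ) := by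
  set X₀ : ℝ := Real.exp (κ * (σ + 1)) with hX₀
  have hX1 : 1 < X₀ := by
    rw [hX₀, Real.one_lt_exp_iff]
    have := H.κ0
    have := H.D.σ0
    positivity
  have hXp : 0 < X₀ := by linarith
  have hdχ : DifferentiableOn ℂ χ HP := fun z hz => (H.d z hz).differentiableWithinAt
  have hdd : DifferentiableOn ℂ (fun z => -(deriv χ z / χ z)) HP :=
    ((hdχ.deriv HP_open).div hdχ H.ne).neg
  obtain ⟨F, hF⟩ := convex_primitive HP_open HP_convex hdd
  set w₀ : ℂ := ((X₀ + 1 : ℝ) : ℂ) with hw₀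
  have hw₀H : w₀ ∈ HP := by
    change 1 < w₀.re
    rw [hw₀, Complex.ofReal_re]
    linarith
  have hw₀X : X₀ ≤ ‖w₀‖ := by
    rw [hw₀, Complex.norm_real, Real.norm_eq_abs, abs_of_pos (by linarith)]
    linarith
  set f₀ : ℂ → ℂ := fun z => DD lam c (log z / κ) with hf₀
  set f : ℂ → ℂ := fun v => F v + (f₀ w₀ - F w₀) with hf
  have hfd : ∀ v ∈ HP, HasDerivAt f (-(deriv χ v / χ v)) v := fun v hv => (hF v hv).add_const _
  have hfw : f w₀ = f₀ w₀ := by
    rw [hf]
    simp only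
    ring
  -- the exponential
  have hexp : ∀ z ∈ HP, exp (-f z) = χ z := by
    intro z hz
    have key := const_of_deriv HP_open HP_convex (f := fun z => exp (f z) * χ z)
      (fun v hv => ?_) hz hw₀H
    · change exp (f z) * χ z = exp (f w₀) * χ w₀ at key
      have e1 : exp (f w₀) * χ w₀ = 1 := by
        rw [hfw, H.far w₀ hw₀H hw₀X, ← Complex.exp_add]
        simp [hf₀]
      rw [e1] at key
      rw [Complex.exp_neg]
      exact inv_eq_of_mul_eq_one_right key
    · refine ((hfd v hv).cexp.mul (H.d v hv).hasDerivAt).congr_deriv ?_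
      have := H.ne v hv
      field_simp
      ring
  refine ⟨f, fun z hz => (hfd z hz).differentiableAt, hexp, ?_⟩
  -- the difference with the series
  have hd : ∀ v ∈ HP, X₀ < ‖v‖ → HasDerivAt (fun v => f v - f₀ v) 0 v := by
    intro v hv hvX
    have h1 := (hfd v hv).sub (f₀_hd H.D H.κ0 hv hvX.le)
    refine h1.congr_deriv ?_
    have e1 : HasDerivAt χ (exp (-f₀ v) * -(-P lam c (log v / κ) * (v⁻¹ / κ))) v := by
      have h2 : HasDerivAt (fun z => exp (-f₀ z))
          (exp (-f₀ v) * -(-P lam c (log v / κ) * (v⁻¹ / κ))) v :=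
        (f₀_hd H.D H.κ0 hv hvX.le).fun_neg.cexp
      refine h2.congr_of_eventuallyEq ?_
      have h3 : ∀ᶠ w in 𝓝 v, X₀ < ‖w‖ := continuous_norm.continuousAt.eventually (lt_mem_nhds hvX)
      filter_upwards [HP_open.mem_nhds hv, h3] with w h4 h5
      exact H.far w h4 h5.le
    rw [e1.deriv, H.far v hv hvX.le]
    have := Complex.exp_ne_zero (-f₀ v)
    rw [hf₀] at this ⊢
    field_simp
    ring
  set W : Set ℂ := {v | X₀ < v.re} with hW
  have hWo : IsOpen W := isOpen_lt continuous_const Complex.continuous_re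
  have hWc : Convex ℝ W := convex_halfSpace_re_gt X₀
  have hw₀W : w₀ ∈ W := by
    change X₀ < w₀.re
    rw [hw₀, Complex.ofReal_re]
    linarith
  have hWx : ∀ v ∈ W, v ∈ HP ∧ X₀ < ‖v‖ := fun v hv => by
    have hv' : X₀ < v.re := hv
    exact ⟨hX1.trans hv', hv'.trans_le (re_le_norm v)⟩
  have hWeq : ∀ v ∈ W, f v - f₀ v = 0 := by
    intro v hv
    have e1 : f w₀ - f₀ w₀ = 0 := by rw [hfw, sub_self]
    rw [← e1]
    exact const_of_deriv hWo hWc (f := fun v => f v - f₀ v)
      (fun z hz => hd z (hWx z hz).1 (hWx z hz).2) hv hw₀W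
  have hgt : ∀ v ∈ HP, X₀ < ‖v‖ → f v = f₀ v := by
    intro v hv hvX
    have hv0 := HP_pos hv
    have h2 := horiz (f := fun v => f v - f₀ v) (f' := fun _ => 0) (v := v) hXp.le
      (B := fun _ => 0) (B' := fun _ => 0)
      (fun τ hτ => hd _ (by
        change 1 < (v + (τ : ℂ)).re
        rw [Complex.add_re, Complex.ofReal_re]
        linarith [hτ.1, HP_re hv]) (hvX.trans_le (norm_add_real hv0 hτ.1)))
      (fun τ _ => hasDerivAt_const _ _) (fun τ _ => by simp)
    simp only [sub_self] at h2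
    have h3 : v + (X₀ : ℂ) ∈ W := by
      change X₀ < (v + (X₀ : ℂ)).re
      rw [Complex.add_re, Complex.ofReal_re]
      linarith
    rw [hWeq _ h3, zero_sub, norm_neg] at h2
    exact sub_eq_zero.1 (norm_le_zero_iff.1 h2)
  -- the boundary by continuity
  intro v hv hvX
  rcases hvX.eq_or_lt with h | h
  · have hc : Tendsto (fun ε : ℝ => v + ε) (𝓝[>] 0) (𝓝 v) := by
      have h4 : Continuous fun ε : ℝ => v + (ε : ℂ) := by fun_prop
      have h5 := h4.tendsto 0
      simp only [Complex.ofReal_zero, add_zero] at h5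
      exact h5.mono_left nhdsWithin_le_nhds
    have c1 := (hfd v hv).continuousAt.tendsto.comp hc
    have c2 := (f₀_hd H.D H.κ0 hv hvX).continuousAt.tendsto.comp hc
    refine tendsto_nhds_unique c1 (c2.congr' ?_)
    filter_upwards [self_mem_nhdsWithin] with ε hε
    have hε0 : (0 : ℝ) < ε := hε
    have h1 : v + (ε : ℂ) ∈ HP := by
      change 1 < (v + (ε : ℂ)).re
      rw [Complex.add_re, Complex.ofReal_re]
      linarith [HP_re hv]
    have h2 : X₀ < ‖v + (ε : ℂ)‖ := by
      rw [h]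
      have h6 := HP_pos hv
      rw [Complex.norm_def, Complex.norm_def]
      apply Real.sqrt_lt_sqrt (Complex.normSq_nonneg _)
      rw [Complex.normSq_apply, Complex.normSq_apply]
      simp only [Complex.add_re, Complex.add_im, Complex.ofReal_re, Complex.ofReal_im, add_zero]
      nlinarith
    simp only [Function.comp_apply]
    exact (hgt _ h1 h2).symm
  · exact hgt v hv h

end Pool.Agent.E8helper66.BM
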