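import Pool.Agent.E8helper66.BM.Lim
import Pool.Agent.E8helper66.BM.Conv

/-!
# Regularity of the Borel means
-/

set_option autoImplicit false

open MeasureTheory Filter Topology Set Complex
open Pool.Agent.TH942.LS (Dat P P_le)
open Pool.Agent.TH942.SL
open Pool.Agent.TH270.MS (Sh)

namespace Pool.Agent.E8helper66.BM

/-! ### the example of one term -/

/-- exponents -/
def lam1 (_ : ℕ) : ℝ := 1
/-- coefficients -/
def c1 (n : ℕ) : ℝ := if n = 0 then 1 else 0

lemma dat1 : Dat lam1 c1 1 1 where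
  δ0 := one_pos
  σ0 := one_pos
  lam_ge := fun _ => le_rfl
  sum := by
    refine summable_of_ne_finset_zero (s := {0}) fun n hn => ?_
    have : n ≠ 0 := by simpa using hn
    unfold c1
    rw [if_neg this]
    simp

lemma dd1 (s : ℂ) : DD lam1 c1 s = exp (-s) := by
  unfold DD
  rw [tsum_eq_single 0 fun n hn => by unfold c1; rw [if_neg hn]; simp]
  unfold c1 lam1
  simp

lemma sh1 (v : ℝ) : Sh lam1 c1 (1 * v) = if 1 ≤ v then 1 else 0 := by
  unfold Sh lam1
  rw [one_mul, tsum_eq_single 0 fun n hn => by unfold c1; rw [if_neg hn]; simp]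
  unfold c1
  simp

lemma chi1 : Chi lam1 c1 1 1 1 (fun z => exp (-z⁻¹)) where
  D := dat1
  κ0 := one_pos
  d := fun z hz => ((differentiableAt_id.inv (ne_zero' (HP_pos hz))).neg.cexp)
  ne := fun z _ => Complex.exp_ne_zero _
  far := fun z hz _ => by
    rw [dd1]
    congr 2
    rw [Complex.ofReal_one, div_one, Complex.exp_neg, Complex.exp_log (ne_zero' (HP_pos hz))]

lemma bi1_tendsto : Tendsto (fun l : ℝ => Real.exp (-l) *
    BI (fun v => Sh lam1 c1 (1 * v)) l) atTop (𝓝 1) := by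
  have hne : ∀ z : ℂ, z.re = 1 → z ≠ 0 := by
    rintro z h rfl
    simp at h
  have hana : ∀ z : ℂ, z.re = 1 → AnalyticAt ℂ (fun z : ℂ => exp (-z⁻¹)) z := fun z hz =>
    ((analyticAt_id.inv (hne z hz)).neg).cexp
  obtain ⟨a, ha, C, hC, h⟩ := chi1.lim hana (m := 0) (χ₁ := fun z => exp (-z⁻¹))
    (hana 1 (by simp)) (Complex.exp_ne_zero _) (Eventually.of_forall fun z => by simp)
  simp only [Nat.cast_zero, zero_mul, sub_zero, add_zero, Complex.ofReal_mul] at h
  have hlim : Tendsto (fun l : ℝ => C * ((1 + Real.log l) / l)) atTop (𝓝 0) := by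
    have h1 : Tendsto (fun l : ℝ => 1 / l) atTop (𝓝 0) := tendsto_const_nhds.div_atTop tendsto_id
    have h2 : Tendsto (fun l : ℝ => Real.log l / l) atTop (𝓝 0) := by
      have := Real.isLittleO_log_id_atTop.tendsto_div_nhds_zero
      simpa using this
    have h3 := (h1.add h2).const_mul C
    rw [add_zero, mul_zero] at h3
    refine h3.congr fun l => ?_
    rw [add_div]
  have h1 : Tendsto (fun l : ℝ => ((Real.exp (-l) * BI (fun v => Sh lam1 c1 (1 * v)) l : ℝ) : ℂ))
      atTop (𝓝 a) := by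
    rw [tendsto_iff_norm_sub_tendsto_zero]
    refine squeeze_zero' (Eventually.of_forall fun l => norm_nonneg _) ?_ hlim
    filter_upwards [eventually_ge_atTop 1] with l hl
    have := h l hl
    push_cast at this ⊢
    exact this
  have h2 := (Complex.continuous_re.tendsto a).comp h1
  have h3 := (Complex.continuous_im.tendsto a).comp h1
  have him : a.im = 0 := by
    refine tendsto_nhds_unique h3 ?_
    have : (Complex.im ∘ fun l : ℝ => ((Real.exp (-l) * BI (fun v => Sh lam1 c1 (1 * v)) l : ℝ) : ℂ)) =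
        fun _ => 0 := by
      funext l
      simp only [Function.comp_apply, Complex.ofReal_im]
    rw [this]
    exact tendsto_const_nhds
  have hre : a.re = 1 := by
    have e1 : a = (a.re : ℂ) := Complex.ext (by simp) (by simp [him])
    rw [e1, inv_one, ← Complex.ofReal_neg, ← Complex.ofReal_exp] at ha
    have e2 : exp (-1 : ℂ) = ((Real.exp (-1) : ℝ) : ℂ) := by push_cast; rfl
    rw [e2] at ha
    have e3 : Real.exp (-a.re) = Real.exp (-1) := by exact_mod_cast ha
    have := Real.exp_injective e3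
    linarith
  rw [hre] at h2
  exact h2

/-! ### integrals of the kernel -/

lemma kr_int_Ioc {l V : ℝ} (hl : 0 < l) : IntegrableOn (Kr l) (Ioc 0 V) := by
  have h1 : ContinuousOn (Kr l) (Icc 0 V) := (Kr_cont hl).mono fun v hv =>
    lt_of_lt_of_le (by norm_num) hv.1
  exact (h1.integrableOn_compact isCompact_Icc).mono_set Ioc_subset_Icc_self

lemma kr_int {l : ℝ} (hl : 0 < l) : IntegrableOn (Kr l) (Ioi 0) := by
  have h1 := (BI_rep (Ld_Sh dat1 one_pos) hl (lt_add_one (Real.exp (1 * 1)))).1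
  have h2 : IntegrableOn (Kr l) (Ioi 1) := by
    refine (h1.mono_set (Ioi_subset_Ioi zero_le_one)).congr ?_
    filter_upwards [ae_restrict_mem measurableSet_Ioi] with v hv
    have hv1 : (1 : ℝ) < v := hv
    rw [sh1, if_pos hv1.le, mul_one]
  have h3 := (kr_int_Ioc (V := 1) hl).union h2
  rwa [Ioc_union_Ioi_eq_Ioi zero_le_one] at h3

/-- an initial segment is negligible -/
lemma head_tendsto (V : ℝ) : Tendsto (fun l : ℝ => Real.exp (-l) * ∫ v in Ioc 0 V, Kr l v)
    atTop (𝓝 0) := by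
  set J : ℝ := ∫ v in Ioc 0 V, Kr 1 v with hJ
  have hJ0 : 0 ≤ J := setIntegral_nonneg measurableSet_Ioc fun v hv => Kr_nonneg one_pos hv.1.le
  have h1 : Tendsto (fun l : ℝ => J * (l ^ V * Real.exp (-l))) atTop (𝓝 (J * 0)) := by
    have := tendsto_rpow_mul_exp_neg_mul_atTop_nhds_zero V 1 one_pos
    simp only [neg_mul, one_mul] at this
    exact this.const_mul J
  rw [mul_zero] at h1
  refine squeeze_zero' ?_ ?_ h1
  · filter_upwards [eventually_gt_atTop 0] with l hl
    have : 0 ≤ ∫ v in Ioc 0 V, Kr l v :=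
      setIntegral_nonneg measurableSet_Ioc fun v hv => Kr_nonneg hl hv.1.le
    positivity
  · filter_upwards [eventually_ge_atTop 1] with l hl
    have hl0 : 0 < l := by linarith
    have h2 : ∫ v in Ioc 0 V, Kr l v ≤ ∫ v in Ioc 0 V, l ^ V * Kr 1 v := by
      refine setIntegral_mono_on (kr_int_Ioc hl0) ((kr_int_Ioc one_pos).const_mul _)
        measurableSet_Ioc fun v hv => ?_
      unfold Kr
      rw [Real.one_rpow, ← mul_div_assoc, mul_one]
      refine div_le_div_of_nonneg_right ?_ (Real.Gamma_pos_of_pos (by linarith [hv.1])).le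
      exact Real.rpow_le_rpow_of_exponent_le hl hv.2
    rw [integral_const_mul] at h2
    calc Real.exp (-l) * ∫ v in Ioc 0 V, Kr l v ≤ Real.exp (-l) * (l ^ V * J) := by gcongr
      _ = _ := by ring

/-- **The normalisation.** -/
theorem norm_tendsto : Tendsto (fun l : ℝ => Real.exp (-l) * ∫ v in Ioi (0 : ℝ), Kr l v)
    atTop (𝓝 1) := by
  have h1 := bi1_tendsto.add (head_tendsto 1)
  rw [add_zero] at h1
  refine h1.congr' ?_
  filter_upwards [eventually_gt_atTop 0] with l hl
  have hH := (BI_rep (Ld_Sh dat1 one_pos) hl (lt_add_one (Real.exp (1 * 1)))).1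
  have e1 : BI (fun v => Sh lam1 c1 (1 * v)) l = ∫ v in Ioi (1 : ℝ), Kr l v := by
    unfold BI
    rw [← Ioc_union_Ioi_eq_Ioi (zero_le_one (α := ℝ)), setIntegral_union
      (Ioc_disjoint_Ioi le_rfl) measurableSet_Ioi (hH.mono_set Ioc_subset_Ioi_self)
      (hH.mono_set (Ioi_subset_Ioi zero_le_one))]
    have e2 : ∫ v in Ioc (0 : ℝ) 1, Kr l v * Sh lam1 c1 (1 * v) = 0 := by
      have h0 : ∀ᵐ v : ℝ, v ≠ 1 := by
        rw [ae_iff]
        simp
      have : ∫ v in Ioc (0 : ℝ) 1, Kr l v * Sh lam1 c1 (1 * v) = ∫ v in Ioc (0 : ℝ) 1, (0 : ℝ) := by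
        refine setIntegral_congr_ae measurableSet_Ioc ?_
        filter_upwards [h0] with v hv hv2
        rw [sh1, if_neg (not_le.2 (lt_of_le_of_ne hv2.2 hv)), mul_zero]
      rw [this, integral_zero]
    have e3 : ∫ v in Ioi (1 : ℝ), Kr l v * Sh lam1 c1 (1 * v) = ∫ v in Ioi (1 : ℝ), Kr l v := by
      refine setIntegral_congr_fun measurableSet_Ioi fun v hv => ?_
      have hv1 : (1 : ℝ) < v := hv
      rw [sh1, if_pos hv1.le, mul_one]
    rw [e2, e3, zero_add]
  rw [e1, ← mul_add, add_comm, ← setIntegral_union (Ioc_disjoint_Ioi le_rfl) measurableSet_Ioi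
    (kr_int_Ioc hl) ((kr_int hl).mono_set (Ioi_subset_Ioi zero_le_one)),
    Ioc_union_Ioi_eq_Ioi zero_le_one]

/-- integrability against bounded functions -/
lemma kr_mul_int {l M : ℝ} (hl : 0 < l) {Δ : ℝ → ℝ} (hm : Measurable Δ)
    (hb : ∀ v : ℝ, 0 < v → |Δ v| ≤ M) : IntegrableOn (fun v => Kr l v * Δ v) (Ioi 0) := by
  refine ((kr_int hl).mul_const M).mono' ((Kr_aesm hl).mul hm.aestronglyMeasurable) ?_
  filter_upwards [ae_restrict_mem measurableSet_Ioi] with v hv
  have hv0 : (0 : ℝ) < v := hv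
  rw [norm_mul, Real.norm_eq_abs, Real.norm_eq_abs, abs_of_nonneg (Kr_nonneg hl hv0.le)]
  exact mul_le_mul_of_nonneg_left (hb v hv0) (Kr_nonneg hl hv0.le)

/-- **Regularity.** -/
theorem reg {M L : ℝ} {Δ : ℝ → ℝ} (hm : Measurable Δ) (hb : ∀ v : ℝ, 0 < v → |Δ v| ≤ M)
    (hL : Tendsto Δ atTop (𝓝 L)) :
    Tendsto (fun l : ℝ => Real.exp (-l) * BI Δ l) atTop (𝓝 L) := by
  have hM : 0 ≤ M := (abs_nonneg _).trans (hb 1 one_pos)
  have hN := norm_tendsto
  have h1 : Tendsto (fun l : ℝ => Real.exp (-l) * BI Δ l -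
      L * (Real.exp (-l) * ∫ v in Ioi (0 : ℝ), Kr l v)) atTop (𝓝 0) := by
    rw [Metric.tendsto_atTop]
    intro ε hε
    obtain ⟨V₀, hV₀⟩ := Metric.tendsto_atTop.1 hL (ε / 4) (by positivity)
    set V : ℝ := max V₀ 0 with hV
    have hV0 : 0 ≤ V := le_max_right _ _
    have h2 := (head_tendsto V).const_mul (M + |L|)
    rw [mul_zero] at h2
    obtain ⟨l₁, hl₁⟩ := Metric.tendsto_atTop.1 h2 (ε / 4) (by positivity)
    obtain ⟨l₂, hl₂⟩ := Metric.tendsto_atTop.1 hN 1 one_pos
    refine ⟨max 1 (max l₁ l₂), fun l hl => ?_⟩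
    have hl0 : 0 < l := by
      have := (le_max_left _ _).trans hl
      linarith
    have a1 := hl₁ l ((le_max_left _ _).trans ((le_max_right _ _).trans hl))
    have a2 := hl₂ l ((le_max_right _ _).trans ((le_max_right _ _).trans hl))
    rw [Real.dist_eq, sub_zero] at a1
    rw [Real.dist_eq] at a2
    have i0 := kr_int hl0
    have i1 := kr_mul_int hl0 hm hb
    have e1 : Real.exp (-l) * BI Δ l - L * (Real.exp (-l) * ∫ v in Ioi (0 : ℝ), Kr l v) =
        Real.exp (-l) * ∫ v in Ioi (0 : ℝ), Kr l v * (Δ v - L) := by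
      have e2 : ∫ v in Ioi (0 : ℝ), Kr l v * (Δ v - L) =
          BI Δ l - (∫ v in Ioi (0 : ℝ), Kr l v) * L := by
        unfold BI
        rw [← integral_mul_const, ← integral_sub i1 (i0.mul_const L)]
        refine setIntegral_congr_fun measurableSet_Ioi fun v _ => ?_
        ring
      rw [e2]
      ring
    rw [Real.dist_eq, sub_zero, e1]
    have i2 : IntegrableOn (fun v => Kr l v * (Δ v - L)) (Ioi 0) :=
      kr_mul_int (M := M + |L|) hl0 (hm.sub_const L) fun v hv => (abs_sub _ _).trans (by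
        have := hb v hv
        linarith)
    have e3 : ∫ v in Ioi (0 : ℝ), Kr l v * (Δ v - L) =
        (∫ v in Ioc 0 V, Kr l v * (Δ v - L)) + ∫ v in Ioi V, Kr l v * (Δ v - L) := by
      rw [← Ioc_union_Ioi_eq_Ioi hV0, setIntegral_union (Ioc_disjoint_Ioi le_rfl)
        measurableSet_Ioi (i2.mono_set Ioc_subset_Ioi_self) (i2.mono_set (Ioi_subset_Ioi hV0))]
    have b1 : |∫ v in Ioc 0 V, Kr l v * (Δ v - L)| ≤ (M + |L|) * ∫ v in Ioc 0 V, Kr l v := by
      rw [← Real.norm_eq_abs, ← integral_const_mul]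
      refine (norm_integral_le_integral_norm _).trans ?_
      refine setIntegral_mono_on (i2.mono_set Ioc_subset_Ioi_self).norm
        ((kr_int_Ioc hl0).const_mul _) measurableSet_Ioc fun v hv => ?_
      rw [norm_mul, Real.norm_eq_abs, Real.norm_eq_abs, abs_of_nonneg (Kr_nonneg hl0 hv.1.le),
        mul_comm]
      refine mul_le_mul_of_nonneg_right ((abs_sub _ _).trans ?_) (Kr_nonneg hl0 hv.1.le)
      have := hb v hv.1
      linarith
    have b2 : |∫ v in Ioi V, Kr l v * (Δ v - L)| ≤ ε / 4 * ∫ v in Ioi (0 : ℝ), Kr l v := by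
      have b3 : |∫ v in Ioi V, Kr l v * (Δ v - L)| ≤ ε / 4 * ∫ v in Ioi V, Kr l v := by
        rw [← Real.norm_eq_abs, ← integral_const_mul]
        refine (norm_integral_le_integral_norm _).trans ?_
        refine setIntegral_mono_on (i2.mono_set (Ioi_subset_Ioi hV0)).norm
          ((i0.mono_set (Ioi_subset_Ioi hV0)).const_mul _) measurableSet_Ioi fun v hv => ?_
        have hv1 : V < v := hv
        have hv0 : 0 ≤ v := hV0.trans hv1.le
        rw [norm_mul, Real.norm_eq_abs, Real.norm_eq_abs, abs_of_nonneg (Kr_nonneg hl0 hv0),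
          mul_comm]
        refine mul_le_mul_of_nonneg_right ?_ (Kr_nonneg hl0 hv0)
        have := hV₀ v ((le_max_left _ _).trans hv1.le)
        rw [Real.dist_eq] at this
        exact this.le
      refine b3.trans (mul_le_mul_of_nonneg_left ?_ (by positivity))
      refine setIntegral_mono_set i0 ?_ (ae_of_all _ (Ioi_subset_Ioi hV0))
      filter_upwards [ae_restrict_mem measurableSet_Ioi] with v hv
      exact Kr_nonneg hl0 (le_of_lt hv)
    have hN2 : Real.exp (-l) * ∫ v in Ioi (0 : ℝ), Kr l v ≤ 2 := by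
      have := (abs_lt.1 a2).2
      linarith
    have a3 := (abs_lt.1 a1).2
    rw [e3, abs_mul, Real.abs_exp]
    have hE := Real.exp_pos (-l)
    calc Real.exp (-l) * |(∫ v in Ioc 0 V, Kr l v * (Δ v - L)) + ∫ v in Ioi V, Kr l v * (Δ v - L)| ≤
          Real.exp (-l) * ((M + |L|) * (∫ v in Ioc 0 V, Kr l v) +
            ε / 4 * ∫ v in Ioi (0 : ℝ), Kr l v) := by
          refine mul_le_mul_of_nonneg_left ((abs_add_le _ _).trans (add_le_add b1 b2)) hE.le
      _ = (M + |L|) * (Real.exp (-l) * ∫ v in Ioc 0 V, Kr l v) +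
            ε / 4 * (Real.exp (-l) * ∫ v in Ioi (0 : ℝ), Kr l v) := by ring
      _ ≤ ε / 4 + ε / 4 * 2 := add_le_add a3.le (mul_le_mul_of_nonneg_left hN2 (by positivity))
      _ < ε := by linarith
  have h2 := h1.add (hN.const_mul L)
  rw [zero_add, mul_one] at h2
  refine h2.congr fun l => ?_
  ring

/-- bounded functions have bounded means -/
theorem bdd {M : ℝ} {Δ : ℝ → ℝ} (hm : Measurable Δ) (hb : ∀ v : ℝ, 0 < v → |Δ v| ≤ M) :
    ∀ᶠ l : ℝ in atTop, |Real.exp (-l) * BI Δ l| ≤ 2 * M := by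
  have hM : 0 ≤ M := (abs_nonneg _).trans (hb 1 one_pos)
  obtain ⟨l₂, hl₂⟩ := Metric.tendsto_atTop.1 norm_tendsto 1 one_pos
  filter_upwards [eventually_ge_atTop (max 1 l₂)] with l hl
  have hl0 : 0 < l := by
    have := (le_max_left _ _).trans hl
    linarith
  have a2 := hl₂ l ((le_max_right _ _).trans hl)
  rw [Real.dist_eq] at a2
  have hN2 : Real.exp (-l) * ∫ v in Ioi (0 : ℝ), Kr l v ≤ 2 := by
    have := (abs_lt.1 a2).2
    linarith
  have b1 : |BI Δ l| ≤ (∫ v in Ioi (0 : ℝ), Kr l v) * M := by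
    unfold BI
    rw [← Real.norm_eq_abs, ← integral_mul_const]
    refine (norm_integral_le_integral_norm _).trans ?_
    refine setIntegral_mono_on (kr_mul_int hl0 hm hb).norm
      ((kr_int hl0).mul_const _) measurableSet_Ioi fun v hv => ?_
    have hv0 : (0 : ℝ) < v := hv
    rw [norm_mul, Real.norm_eq_abs, Real.norm_eq_abs, abs_of_nonneg (Kr_nonneg hl0 hv0.le)]
    exact mul_le_mul_of_nonneg_left (hb v hv0) (Kr_nonneg hl0 hv0.le)
  rw [abs_mul, Real.abs_exp]
  have hE := Real.exp_pos (-l)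
  calc Real.exp (-l) * |BI Δ l| ≤ Real.exp (-l) * ((∫ v in Ioi (0 : ℝ), Kr l v) * M) := by gcongr
    _ = (Real.exp (-l) * ∫ v in Ioi (0 : ℝ), Kr l v) * M := by ring
    _ ≤ 2 * M := by gcongr

end Pool.Agent.E8helper66.BM
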