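import Pool.Agent.E8helper66.BM.Ker
import Pool.Agent.TH270.MS.Conv

/-!
# The Borel integral of a function as an integral along a vertical line
-/

set_option autoImplicit false

open MeasureTheory Filter Topology Set Complex
open Pool.Agent.TH942.LS (Dat P P_le)
open Pool.Agent.TH942.SL
open Pool.Agent.TH270.MS (Sh sh_le sh_zero sh_meas sh_lap sh_int)
open Pool.Agent.W263.BSD (LInt lap lapC lapC_ofReal lapC_differentiableAt)

namespace Pool.Agent.E8helper66.BM

/-- functions of at most exponential growth which vanish near `0` -/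
structure Ld (S : ℝ → ℝ) (v₀ b C : ℝ) : Prop where
  meas : Measurable S
  v0 : 0 < v₀
  zero : ∀ v, v < v₀ → S v = 0
  bd : ∀ v, |S v| ≤ C * Real.exp (b * v)

/-- the Borel integral -/
noncomputable def BI (S : ℝ → ℝ) (l : ℝ) : ℝ := ∫ v in Ioi (0 : ℝ), Kr l v * S v

/-- the Mellin type transform -/
noncomputable def Ph (S : ℝ → ℝ) (z : ℂ) : ℂ := ∫ v in Ioi (0 : ℝ), (S v : ℂ) * ek v z

variable {S : ℝ → ℝ} {v₀ b C : ℝ}

lemma Ld.C0 (H : Ld S v₀ b C) : 0 ≤ C := by
  have h := (abs_nonneg _).trans (H.bd 0)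
  rwa [mul_zero, Real.exp_zero, mul_one] at h

/-- the bound of the integrand -/
lemma Ld.bound (H : Ld S v₀ b C) {x : ℝ} (hx : 0 < x) {z : ℂ} (hz : x ≤ ‖z‖) (v : ℝ) :
    ‖(S v : ℂ) * ek v z‖ ≤ C * x ^ v₀ * Real.exp ((b - Real.log x) * v) * ‖z‖ ^ (-(v₀ + 1)) := by
  have hn : 0 < ‖z‖ := hx.trans_le hz
  have hC := H.C0
  rcases lt_or_ge v v₀ with h | h
  · rw [H.zero v h]
    simp only [Complex.ofReal_zero, zero_mul, norm_zero]
    positivity
  · rw [norm_mul, norm_ek v (norm_pos_iff.1 hn), Complex.norm_real, Real.norm_eq_abs]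
    have h1 : ‖z‖ ^ (-v - 1) = ‖z‖ ^ (-(v - v₀)) * ‖z‖ ^ (-(v₀ + 1)) := by
      rw [← Real.rpow_add hn]
      congr 1
      ring
    have h2 : ‖z‖ ^ (-(v - v₀)) ≤ x ^ (-(v - v₀)) :=
      Real.rpow_le_rpow_of_nonpos hx hz (by linarith)
    have h3 : x ^ (-(v - v₀)) = x ^ v₀ * Real.exp (-(Real.log x * v)) := by
      rw [Real.rpow_def_of_pos hx, Real.rpow_def_of_pos hx, ← Real.exp_add]
      congr 1
      ring
    have h4 : Real.exp ((b - Real.log x) * v) = Real.exp (b * v) * Real.exp (-(Real.log x * v)) := by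
      rw [← Real.exp_add]
      congr 1
      ring
    rw [h1, h4]
    calc |S v| * (‖z‖ ^ (-(v - v₀)) * ‖z‖ ^ (-(v₀ + 1))) ≤
          (C * Real.exp (b * v)) * ((x ^ v₀ * Real.exp (-(Real.log x * v))) *
            ‖z‖ ^ (-(v₀ + 1))) := by
          rw [← h3]
          gcongr
          exact H.bd v
      _ = _ := by ring

lemma exp_int {b x : ℝ} (hx : Real.exp b < x) :
    IntegrableOn (fun v : ℝ => Real.exp ((b - Real.log x) * v)) (Ioi 0) := by
  have hx0 : 0 < x := (Real.exp_pos b).trans hx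
  refine integrableOn_exp_mul_Ioi ?_ 0
  have := (Real.lt_log_iff_exp_lt hx0).2 hx
  linarith

lemma Ld.int (H : Ld S v₀ b C) {z : ℂ} (hz : Real.exp b < ‖z‖) :
    IntegrableOn (fun v : ℝ => (S v : ℂ) * ek v z) (Ioi 0) := by
  have hn : 0 < ‖z‖ := (Real.exp_pos b).trans hz
  refine Integrable.mono' (((exp_int hz).const_mul (C * ‖z‖ ^ v₀)).mul_const
    (‖z‖ ^ (-(v₀ + 1)))) ?_ (ae_of_all _ fun v => H.bound hn le_rfl v)
  have h1 : Measurable fun v : ℝ => ek v z := by
    unfold ek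
    fun_prop
  exact ((Complex.measurable_ofReal.comp H.meas).mul h1).aestronglyMeasurable

lemma Ph_bound (H : Ld S v₀ b C) {x : ℝ} (hx : Real.exp b < x) :
    ∃ B : ℝ, 0 ≤ B ∧ ∀ z : ℂ, x ≤ ‖z‖ → ‖Ph S z‖ ≤ B * ‖z‖ ^ (-(v₀ + 1)) := by
  have hx0 : 0 < x := (Real.exp_pos b).trans hx
  have hC := H.C0
  refine ⟨C * x ^ v₀ * ∫ v in Ioi (0 : ℝ), Real.exp ((b - Real.log x) * v), ?_, fun z hz => ?_⟩
  · have : 0 ≤ ∫ v in Ioi (0 : ℝ), Real.exp ((b - Real.log x) * v) :=
      integral_nonneg fun v => (Real.exp_pos _).le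
    positivity
  · have h1 := norm_integral_le_of_norm_le (((exp_int hx).const_mul (C * x ^ v₀)).mul_const
      (‖z‖ ^ (-(v₀ + 1)))) (ae_of_all _ fun v => H.bound hx0 hz v)
    rw [integral_mul_const, integral_const_mul] at h1
    exact h1

/-- **The Borel integral as a line integral.** -/
theorem BI_rep (H : Ld S v₀ b C) {l x : ℝ} (hl : 0 < l) (hx : Real.exp b < x) :
    IntegrableOn (fun v => Kr l v * S v) (Ioi 0) ∧
      ((BI S l : ℝ) : ℂ) = V x (fun z => exp (z * l) * Ph S z) := by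
  have hx0 : 0 < x := (Real.exp_pos b).trans hx
  have hC := H.C0
  have hv0 := H.v0
  have hre : ∀ t : ℝ, ((x : ℂ) + t * I).re = x := fun t => by simp
  have him : ∀ t : ℝ, ((x : ℂ) + t * I).im = t := fun t => by simp
  have hn : ∀ t : ℝ, x ≤ ‖(x : ℂ) + t * I‖ := fun t => by
    have := re_le_norm ((x : ℂ) + t * I)
    rwa [hre] at this
  set F : ℝ → ℝ → ℂ := fun t v => exp (((x : ℂ) + t * I) * l) *
    ((S v : ℂ) * ek v ((x : ℂ) + t * I)) with hF
  set A : ℝ → ℝ := fun t => Real.exp (x * l) * ((1 + 1 / x) ^ (v₀ + 1) * (1 + |t|) ^ (-(v₀ + 1)))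
    with hA
  set B : ℝ → ℝ := fun v => C * x ^ v₀ * Real.exp ((b - Real.log x) * v) with hB
  have hAi : Integrable A := ((decay_int (p := v₀ + 1) (by linarith)).const_mul _).const_mul _
  have hBi : Integrable B (volume.restrict (Ioi 0)) := (exp_int hx).const_mul _
  have hle : ∀ t v : ℝ, ‖F t v‖ ≤ A t * B v := by
    intro t v
    have h1 := H.bound hx0 (hn t) v
    have h2 := nb hx0 (by linarith : 0 ≤ v₀ + 1) (hn t)
    rw [him] at h2
    have h3 : ‖exp (((x : ℂ) + t * I) * l)‖ = Real.exp (x * l) := by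
      rw [Complex.norm_exp, Complex.re_mul_ofReal, hre]
    rw [hF]
    simp only
    rw [norm_mul, h3]
    calc Real.exp (x * l) * ‖(S v : ℂ) * ek v ((x : ℂ) + t * I)‖ ≤
          Real.exp (x * l) * (C * x ^ v₀ * Real.exp ((b - Real.log x) * v) *
            ((1 + 1 / x) ^ (v₀ + 1) * (1 + |t|) ^ (-(v₀ + 1)))) := by
          refine mul_le_mul_of_nonneg_left (h1.trans ?_) (Real.exp_pos _).le
          exact mul_le_mul_of_nonneg_left h2 (by positivity)
      _ = A t * B v := by rw [hA, hB]; ring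
  have hFm : Measurable (Function.uncurry F) := by
    rw [hF]
    unfold ek
    have := H.meas
    fun_prop
  have hprod : Integrable (Function.uncurry F) (volume.prod (volume.restrict (Ioi 0))) := by
    refine (hAi.mul_prod hBi).mono' hFm.aestronglyMeasurable (ae_of_all _ ?_)
    rintro ⟨t, v⟩
    exact hle t v
  -- the inner integrals
  have h1 : ∀ v : ℝ, 0 < v → ∫ t : ℝ, F t v = ((2 * Real.pi * (Kr l v * S v) : ℝ) : ℂ) := by
    intro v hv
    have e1 := ker_inv hv hl hx0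
    unfold V at e1
    have e2 : ∀ t : ℝ, F t v = (S v : ℂ) * (exp (((x : ℂ) + t * I) * l) * ek v ((x : ℂ) + t * I)) :=
      fun t => by rw [hF]; ring
    simp only [e2]
    rw [integral_const_mul]
    have e3 : ((2 * Real.pi)⁻¹ : ℝ) ≠ 0 := by positivity
    have e4 : (∫ t : ℝ, exp (((x : ℂ) + t * I) * l) * ek v ((x : ℂ) + t * I)) =
        ((2 * Real.pi : ℝ) : ℂ) * (Kr l v : ℂ) := by
      rw [← e1, ← mul_assoc, ← Complex.ofReal_mul, mul_inv_cancel₀ (by positivity),
        Complex.ofReal_one, one_mul]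
    rw [e4]
    push_cast
    ring
  have h2 : Integrable (fun v => ∫ t : ℝ, F t v) (volume.restrict (Ioi 0)) := by
    have := hprod.integral_prod_right
    simpa [Function.uncurry] using this
  have h3 : Integrable (fun v => ((2 * Real.pi * (Kr l v * S v) : ℝ) : ℂ))
      (volume.restrict (Ioi 0)) := by
    refine h2.congr ?_
    filter_upwards [ae_restrict_mem measurableSet_Ioi] with v hv
    exact h1 v hv
  have h4 : Integrable (fun v => 2 * Real.pi * (Kr l v * S v)) (volume.restrict (Ioi 0)) := by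
    have := h3.re
    simpa using this
  have hint : IntegrableOn (fun v => Kr l v * S v) (Ioi 0) := by
    refine (h4.const_mul (2 * Real.pi)⁻¹).congr (ae_of_all _ fun v => ?_)
    simp only
    field_simp
  refine ⟨hint, ?_⟩
  have h5 := integral_integral_swap hprod
  have h6 : ∫ v in Ioi (0 : ℝ), ∫ t : ℝ, F t v = ((2 * Real.pi * BI S l : ℝ) : ℂ) := by
    have e1 : ∫ v in Ioi (0 : ℝ), ∫ t : ℝ, F t v =
        ∫ v in Ioi (0 : ℝ), ((2 * Real.pi * (Kr l v * S v) : ℝ) : ℂ) :=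
      setIntegral_congr_fun measurableSet_Ioi fun v hv => h1 v hv
    rw [e1]
    have e2 : ∫ v in Ioi (0 : ℝ), ((2 * Real.pi * (Kr l v * S v) : ℝ) : ℂ) =
        ((∫ v in Ioi (0 : ℝ), 2 * Real.pi * (Kr l v * S v) : ℝ) : ℂ) := integral_ofReal
    rw [e2, integral_const_mul]
    rfl
  rw [h6] at h5
  have h7 : ∫ t : ℝ, ∫ v in Ioi (0 : ℝ), F t v =
      ∫ t : ℝ, exp (((x : ℂ) + t * I) * l) * Ph S ((x : ℂ) + t * I) := by
    congr 1
    funext t
    rw [hF]
    simp only
    rw [integral_const_mul]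
    rfl
  rw [h7] at h5
  unfold V
  rw [h5, ← Complex.ofReal_mul, ← mul_assoc, inv_mul_cancel₀ (by positivity), one_mul]

/-- the transform of the partial sums -/
theorem Ph_Sh {lam c : ℕ → ℝ} {δ σ κ : ℝ} (D : Dat lam c δ σ) (hκ : 0 < κ) {z : ℂ}
    (hz : Real.exp (κ * σ) < ‖z‖) :
    Ph (fun v => Sh lam c (κ * v)) z = DD lam c (log z / κ) / (z * log z) := by
  have hn : 0 < ‖z‖ := (Real.exp_pos _).trans hz
  have hz0 : z ≠ 0 := norm_pos_iff.1 hn
  have hκc : (κ : ℂ) ≠ 0 := by exact_mod_cast hκ.ne'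
  have hlog : κ * σ < Real.log ‖z‖ := (Real.lt_log_iff_exp_lt hn).2 hz
  have hs : σ < (log z / κ).re := by
    rw [Complex.div_ofReal_re, Complex.log_re, lt_div_iff₀ hκ]
    linarith
  have hs0 : 0 < (log z / κ).re := D.σ0.trans hs
  have h1 := sh_lap D hs
  have h2 := Measure.integral_comp_mul_left
    (fun T : ℝ => (Sh lam c T : ℂ) * exp (-(log z / κ * T))) κ
  rw [h1, abs_of_pos (by positivity), Complex.real_smul] at h2
  have h3 : ∫ v : ℝ, (Sh lam c (κ * v) : ℂ) * exp (-(log z / κ * ((κ * v : ℝ) : ℂ))) =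
      ∫ v in Ioi (0 : ℝ), (Sh lam c (κ * v) : ℂ) * exp (-(log z / κ * ((κ * v : ℝ) : ℂ))) := by
    symm
    refine setIntegral_eq_integral_of_forall_compl_eq_zero fun v hv => ?_
    have hv0 : v ≤ 0 := by simpa using hv
    rw [sh_zero D]
    · simp
    · have := D.δ0
      have : κ * v ≤ 0 := mul_nonpos_of_nonneg_of_nonpos hκ.le hv0
      linarith
  rw [h3] at h2
  unfold Ph
  have h4 : ∀ v : ℝ, (Sh lam c (κ * v) : ℂ) * ek v z = z⁻¹ *
      ((Sh lam c (κ * v) : ℂ) * exp (-(log z / κ * ((κ * v : ℝ) : ℂ)))) := by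
    intro v
    unfold ek
    have : log z / κ * ((κ * v : ℝ) : ℂ) = v * log z := by
      push_cast
      field_simp
    rw [this]
    field_simp
  simp only [h4]
  rw [integral_const_mul, h2]
  have hl0 : log z ≠ 0 := by
    intro h
    rw [h] at hs0
    simp at hs0
  push_cast
  field_simp

lemma Ld_Sh {lam c : ℕ → ℝ} {δ σ κ : ℝ} (D : Dat lam c δ σ) (hκ : 0 < κ) :
    Ld (fun v => Sh lam c (κ * v)) (δ / κ) (κ * σ) (S₀ lam c σ) where
  meas := (sh_meas D).comp (measurable_const_mul κ)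
  v0 := div_pos D.δ0 hκ
  zero := fun v hv => sh_zero D (by
    rw [lt_div_iff₀ hκ] at hv
    linarith)
  bd := fun v => by
    refine (sh_le D _).trans (le_of_eq ?_)
    unfold S₀
    rw [mul_comm]
    congr 2
    ring

end Pool.Agent.E8helper66.BM
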