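import Pool.Agent.E8helper66.BM.Prim

/-!
# The upper bound for the Borel integral
-/

set_option autoImplicit false

open MeasureTheory Filter Topology Set Complex
open Pool.Agent.TH942.LS (Dat P P_le)
open Pool.Agent.TH942.SL
open Pool.Agent.TH270.MS (Sh sh_le sh_zero sh_meas sh_lap sh_int)

namespace Pool.Agent.E8helper66.BM

variable {lam c : ℕ → ℝ} {δ σ κ : ℝ} {χ : ℂ → ℂ}

/-- the transform of the integral in terms of the logarithm -/
noncomputable def Ff (f : ℂ → ℂ) (z : ℂ) : ℂ := f z / (z * log z)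

/-- the series in the variable `z` -/
noncomputable def fz (lam c : ℕ → ℝ) (κ : ℝ) (z : ℂ) : ℂ := DD lam c (log z / κ)

/-- the abscissa -/
noncomputable def X₀ (κ σ : ℝ) : ℝ := Real.exp (κ * (σ + 1))

lemma X₀_gt (hκ : 0 < κ) (hσ : 0 < σ) : 1 < X₀ κ σ := by
  unfold X₀
  rw [Real.one_lt_exp_iff]
  positivity

lemma Ff_diff {f : ℂ → ℂ} {z : ℂ} (hz : z ∈ HP) (hf : DifferentiableAt ℂ f z) :
    DifferentiableAt ℂ (Ff f) z := by
  have h1 : DifferentiableAt ℂ (fun z : ℂ => log z) z :=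
    (Complex.hasDerivAt_log (slit (HP_pos hz))).differentiableAt
  exact hf.div (differentiableAt_id.mul h1) (mul_ne_zero (ne_zero' (HP_pos hz))
    (log_ne (HP_norm hz)))

lemma dFf_diff {f : ℂ → ℂ} (hf : ∀ z ∈ HP, DifferentiableAt ℂ f z) {z : ℂ} (hz : z ∈ HP) :
    DifferentiableAt ℂ (fun z => -deriv (Ff f) z) z := by
  have h1 : DifferentiableOn ℂ (Ff f) HP := fun z hz =>
    (Ff_diff hz (hf z hz)).differentiableWithinAt
  exact ((h1.deriv HP_open).differentiableAt (HP_open.mem_nhds hz)).neg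

/-- the derivative -/
lemma Ff_deriv {f : ℂ → ℂ} {f' z : ℂ} (hz : z ∈ HP) (hf : HasDerivAt f f' z) :
    -deriv (Ff f) z = f z * (log z + 1) / (z * log z) ^ 2 - f' / (z * log z) := by
  have hz0 := ne_zero' (HP_pos hz)
  have hl0 := log_ne (HP_norm hz)
  have h1 : HasDerivAt (fun z : ℂ => z * log z) (1 * log z + z * z⁻¹) z :=
    (hasDerivAt_id z).fun_mul (Complex.hasDerivAt_log (slit (HP_pos hz)))
  have h2 : HasDerivAt (Ff f) ((f' * (z * log z) - f z * (1 * log z + z * z⁻¹)) /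
      (z * log z) ^ 2) z := hf.div h1 (mul_ne_zero hz0 hl0)
  rw [h2.deriv]
  field_simp
  ring

/-- the bound far away -/
theorem far_bound (D : Dat lam c δ σ) (hκ : 0 < κ) : ∃ B : ℝ, 0 ≤ B ∧ ∀ f : ℂ → ℂ,
    (∀ z ∈ HP, X₀ κ σ ≤ ‖z‖ → f z = fz lam c κ z) → ∀ z ∈ HP, X₀ κ σ < ‖z‖ →
      ‖deriv (Ff f) z‖ ≤ B * ‖z‖ ^ (-(2 : ℝ)) := by
  have hσ := D.σ0
  have hδ := D.δ0
  have hS := S₀_nonneg lam c σ
  set L : ℝ := κ * (σ + 1) with hL
  have hL0 : 0 < L := by positivity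
  refine ⟨S₀ lam c σ * (1 + 1 / L) / L + 2 / δ * S₀ lam c σ / κ / L, by positivity,
    fun f hff z hz hzX => ?_⟩
  have hn : 0 < ‖z‖ := by linarith [HP_norm hz]
  have hz0 := ne_zero' (HP_pos hz)
  have hX : Real.exp (κ * (σ + 1)) ≤ ‖z‖ := hzX.le
  have hre := far_re hκ hX
  have hlog : L ≤ ‖log z‖ := by
    have h1 := Complex.re_le_norm (log z)
    rw [re_log_div, le_div_iff₀ hκ] at hre
    rw [Complex.log_re] at h1
    rw [hL]
    linarith
  have hln : 0 < ‖log z‖ := hL0.trans_le hlog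
  have hfd : HasDerivAt f (-P lam c (log z / κ) * (z⁻¹ / κ)) z := by
    refine (f₀_hd D hκ hz hX).congr_of_eventuallyEq ?_
    have h3 : ∀ᶠ w in 𝓝 z, X₀ κ σ < ‖w‖ :=
      continuous_norm.continuousAt.eventually (lt_mem_nhds hzX)
    filter_upwards [HP_open.mem_nhds hz, h3] with w h4 h5
    exact hff w h4 h5.le
  have h1 := Ff_deriv hz hfd
  have h2 : ‖deriv (Ff f) z‖ = ‖-deriv (Ff f) z‖ := (norm_neg _).symm
  rw [h2, h1, hff z hz hzX.le]
  have h3 : ‖fz lam c κ z‖ ≤ S₀ lam c σ := by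
    have h4 := dd_le D (s := log z / κ) (by linarith)
    refine h4.trans ?_
    have h5 : Real.exp (-(δ * ((log z / κ).re - σ))) ≤ 1 := Real.exp_le_one_iff.2 (by
      have := mul_nonneg hδ.le (sub_nonneg.2 (show σ ≤ (log z / κ).re by linarith))
      linarith)
    calc _ ≤ (∑' n, |c n| * Real.exp (-(σ * lam n))) * 1 :=
          mul_le_mul_of_nonneg_left h5 (S₀_nonneg lam c σ)
      _ = _ := by rw [mul_one]; rfl
  have h4 := P_bound D hre
  have hr2 : ‖z‖ ^ (-(2 : ℝ)) = (‖z‖ ^ 2)⁻¹ := by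
    rw [Real.rpow_neg hn.le]
    norm_num
  have hc : ‖(κ : ℂ)‖ = κ := by rw [Complex.norm_real, Real.norm_eq_abs, abs_of_pos hκ]
  refine (norm_sub_le _ _).trans ?_
  rw [norm_div, norm_mul, norm_pow, norm_mul, norm_div, norm_mul, norm_mul, norm_neg, norm_div,
    norm_inv, hc, add_mul, hr2]
  refine add_le_add ?_ ?_
  · have h5 : ‖log z + 1‖ ≤ (1 + 1 / L) * ‖log z‖ := by
      refine (norm_add_le _ _).trans ?_
      rw [norm_one]
      have : 1 ≤ 1 / L * ‖log z‖ := by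
        rw [one_div, ← div_eq_inv_mul, le_div_iff₀ hL0, one_mul]
        exact hlog
      linarith
    have h6 : ‖fz lam c κ z‖ * ‖log z + 1‖ ≤ S₀ lam c σ * ((1 + 1 / L) * ‖log z‖) :=
      mul_le_mul h3 h5 (norm_nonneg _) hS
    calc ‖fz lam c κ z‖ * ‖log z + 1‖ / (‖z‖ * ‖log z‖) ^ 2 ≤
          S₀ lam c σ * ((1 + 1 / L) * ‖log z‖) / (‖z‖ * ‖log z‖) ^ 2 := by gcongr
      _ = S₀ lam c σ * (1 + 1 / L) / ‖log z‖ * (‖z‖ ^ 2)⁻¹ := by field_simp
      _ ≤ S₀ lam c σ * (1 + 1 / L) / L * (‖z‖ ^ 2)⁻¹ := by gcongr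
  · calc ‖P lam c (log z / κ)‖ * (‖z‖⁻¹ / κ) / (‖z‖ * ‖log z‖) ≤
          2 / δ * S₀ lam c σ * (‖z‖⁻¹ / κ) / (‖z‖ * ‖log z‖) := by gcongr
      _ = 2 / δ * S₀ lam c σ / κ / ‖log z‖ * (‖z‖ ^ 2)⁻¹ := by field_simp
      _ ≤ 2 / δ * S₀ lam c σ / κ / L * (‖z‖ ^ 2)⁻¹ := by gcongr

/-- **The formula for `l` times the Borel integral.** -/
theorem lBI_eq (D : Dat lam c δ σ) (hκ : 0 < κ) {f : ℂ → ℂ}
    (hf : ∀ z ∈ HP, DifferentiableAt ℂ f z)
    (hff : ∀ z ∈ HP, X₀ κ σ ≤ ‖z‖ → f z = fz lam c κ z) {l x : ℝ} (hl : 0 < l)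
    (hx : X₀ κ σ < x) :
    ((l * BI (fun v => Sh lam c (κ * v)) l : ℝ) : ℂ) =
      V x (fun z => exp (z * l) * -deriv (Ff f) z) := by
  have hσ := D.σ0
  have hX1 := X₀_gt hκ hσ
  have hx1 : 1 < x := hX1.trans hx
  have hx0 : 0 < x := by linarith
  have hre : ∀ t : ℝ, ((x : ℂ) + t * I).re = x := fun t => by simp
  have him : ∀ t : ℝ, ((x : ℂ) + t * I).im = t := fun t => by simp
  have hH := Ld_Sh D hκ
  have hxe : Real.exp (κ * σ) < x := by
    refine lt_of_le_of_lt (Real.exp_le_exp.2 ?_) hx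
    nlinarith
  have hline : ∀ z : ℂ, z.re = x → z ∈ HP ∧ X₀ κ σ < ‖z‖ := fun z hz =>
    ⟨by change 1 < z.re; rw [hz]; exact hx1, by
      have := re_le_norm z
      rw [hz] at this
      linarith⟩
  -- the transform
  have hPh : ∀ z : ℂ, z.re = x → Ph (fun v => Sh lam c (κ * v)) z = Ff f z := by
    intro z hz
    obtain ⟨h1, h2⟩ := hline z hz
    rw [Ph_Sh D hκ (hxe.trans_le (by rw [← hz]; exact re_le_norm z))]
    unfold Ff
    rw [hff z h1 h2.le]
    rfl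
  obtain ⟨-, hrep⟩ := BI_rep hH hl hxe
  have hrep' : ((BI (fun v => Sh lam c (κ * v)) l : ℝ) : ℂ) =
      V x (fun z => exp (z * l) * Ff f z) := by
    rw [hrep]
    unfold V
    congr 2
    funext t
    simp only
    rw [hPh _ (hre t)]
  obtain ⟨B, hB, hBb⟩ := Ph_bound hH hxe
  set p : ℝ := δ / κ + 1 with hp
  have hp1 : 1 < p := by
    rw [hp]
    have := div_pos D.δ0 hκ
    linarith
  have hFb : ∀ z : ℂ, z.re = x → ‖Ff f z‖ ≤ (B * (1 + 1 / x) ^ p) * (1 + |z.im|) ^ (-p) := by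
    intro z hz
    have h0 : x ≤ ‖z‖ := by rw [← hz]; exact re_le_norm z
    have h1 := hBb z h0
    rw [hPh z hz] at h1
    have h2 := nb hx0 (by linarith : 0 ≤ p) h0
    rw [mul_assoc]
    exact h1.trans (mul_le_mul_of_nonneg_left h2 hB)
  have hexp : ∀ z : ℂ, z.re = x → ‖exp (z * l)‖ = Real.exp (x * l) := fun z hz => by
    rw [Complex.norm_exp, Complex.re_mul_ofReal, hz]
  set F : ℂ → ℂ := fun z => exp (z * l) * Ff f z with hF
  set F' : ℂ → ℂ := fun z => l * (exp (z * l) * Ff f z) - exp (z * l) * -deriv (Ff f) z with hF'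
  have hd : ∀ z : ℂ, z.re = x → HasDerivAt F (F' z) z := by
    intro z hz
    have h1 := hline z hz
    have e1 := (Ff_diff h1.1 (hf z h1.1)).hasDerivAt
    have e2 : HasDerivAt (fun z : ℂ => exp (z * l)) (exp (z * l) * (1 * l)) z :=
      ((hasDerivAt_id z).mul_const _).cexp
    refine (e2.mul e1).congr_deriv ?_
    rw [hF']
    ring
  have hFi : Integrable (fun t : ℝ => F (x + t * I)) := by
    refine line_int (H := F) (p := p) (B := Real.exp (x * l) * (B * (1 + 1 / x) ^ p)) hp1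
      (fun s hs => (hd s hs).continuousAt) (fun s hs => ?_)
    rw [hF]
    simp only
    rw [norm_mul, hexp s hs, mul_assoc (Real.exp (x * l))]
    exact mul_le_mul_of_nonneg_left (hFb s hs) (Real.exp_pos _).le
  obtain ⟨B₂, hB₂, hB₂b⟩ := far_bound D hκ
  have hHi : Integrable (fun t : ℝ => exp (((x : ℂ) + t * I) * l) *
      -deriv (Ff f) ((x : ℂ) + t * I)) := by
    refine line_int (H := fun z => exp (z * l) * -deriv (Ff f) z) (p := 2)
      (B := Real.exp (x * l) * (B₂ * (1 + 1 / x) ^ (2 : ℝ))) (by norm_num) (fun s hs => ?_)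
      (fun s hs => ?_)
    · have e1 := dFf_diff hf (hline s hs).1
      have e2 : DifferentiableAt ℂ (fun z : ℂ => exp (z * l)) s := by fun_prop
      exact (e2.mul e1).continuousAt
    · obtain ⟨h2, h3⟩ := hline s hs
      have e1 := hB₂b f hff s h2 h3
      have e2 := nb hx0 (by norm_num : (0 : ℝ) ≤ 2) (z := s) (by rw [← hs]; exact re_le_norm s)
      rw [norm_mul, hexp s hs, norm_neg, mul_assoc (Real.exp (x * l)), mul_assoc B₂]
      exact mul_le_mul_of_nonneg_left (e1.trans (mul_le_mul_of_nonneg_left e2 hB₂))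
        (Real.exp_pos _).le
  set K : ℝ := Real.exp (x * l) * (B * (1 + 1 / x) ^ p) with hK
  have hFb' : ∀ t : ℝ, ‖F (x + t * I)‖ ≤ K * (1 + |t|) ^ (-p) := by
    intro t
    have h1 := hFb (x + t * I) (hre t)
    rw [him] at h1
    rw [hF, hK]
    simp only
    rw [norm_mul, hexp _ (hre t), mul_assoc (Real.exp (x * l))]
    exact mul_le_mul_of_nonneg_left h1 (Real.exp_pos _).le
  have hlim : Tendsto (fun t : ℝ => K * (1 + |t|) ^ (-p)) atTop (𝓝 0) := by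
    have e1 : Tendsto (fun T : ℝ => (1 + |T|)) atTop atTop :=
      tendsto_atTop_add_const_left _ _ tendsto_abs_atTop_atTop
    have e2 := (tendsto_rpow_neg_atTop (y := p) (by linarith)).comp e1
    have e3 := e2.const_mul K
    simpa using e3
  have hlim' : Tendsto (fun t : ℝ => K * (1 + |t|) ^ (-p)) atBot (𝓝 0) := by
    have e1 : Tendsto (fun T : ℝ => (1 + |T|)) atBot atTop :=
      tendsto_atTop_add_const_left _ _ tendsto_abs_atBot_atTop
    have e2 := (tendsto_rpow_neg_atTop (y := p) (by linarith)).comp e1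
    have e3 := e2.const_mul K
    simpa using e3
  have hV := V_deriv (F := F) (F' := F') hd ((hFi.const_mul (l : ℂ)).sub hHi)
    (squeeze_zero_norm hFb' hlim) (squeeze_zero_norm hFb' hlim')
  have hV2 : V x F' = l * V x F - V x (fun z => exp (z * l) * -deriv (Ff f) z) := by
    unfold V
    rw [hF']
    simp only
    rw [integral_sub (hFi.const_mul (l : ℂ)) hHi, integral_const_mul]
    ring
  rw [hV2, sub_eq_zero] at hV
  rw [← hV]
  push_cast
  rw [hrep']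

/-- the bound on strips -/
theorem strip_bound (D : Dat lam c δ σ) (hκ : 0 < κ) {f : ℂ → ℂ}
    (hf : ∀ z ∈ HP, DifferentiableAt ℂ f z)
    (hff : ∀ z ∈ HP, X₀ κ σ ≤ ‖z‖ → f z = fz lam c κ z) {a : ℝ} (ha : 1 < a) :
    ∃ B : ℝ, 0 ≤ B ∧ ∀ z : ℂ, a ≤ z.re → ‖deriv (Ff f) z‖ ≤ B * (1 + |z.im|) ^ (-(2 : ℝ)) := by
  have hσ := D.σ0
  have hX1 := X₀_gt hκ hσ
  obtain ⟨B, hB, hBb⟩ := far_bound D hκ
  set K : Set ℂ := {v : ℂ | a ≤ v.re ∧ ‖v‖ ≤ X₀ κ σ + 1} with hK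
  have hKc : IsCompact K := by
    have hcl : IsClosed K := by
      have e1 : IsClosed {v : ℂ | a ≤ v.re} := isClosed_le continuous_const Complex.continuous_re
      have e3 : IsClosed {v : ℂ | ‖v‖ ≤ X₀ κ σ + 1} := isClosed_le continuous_norm continuous_const
      exact e1.inter e3
    refine (isCompact_closedBall (0 : ℂ) (X₀ κ σ + 1)).of_isClosed_subset hcl ?_
    rintro v ⟨-, h⟩
    rwa [Metric.mem_closedBall, dist_zero_right]
  have hHPa : ∀ v : ℂ, a ≤ v.re → v ∈ HP := fun v hv => lt_of_lt_of_le ha hv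
  obtain ⟨C₁, hC₁⟩ := hKc.exists_bound_of_continuousOn (f := fun z => -deriv (Ff f) z)
    fun v hv => (dFf_diff hf (hHPa v hv.1)).continuousAt.continuousWithinAt
  refine ⟨B * (1 + 1 / 1) ^ (2 : ℝ) + |C₁| * (1 + (X₀ κ σ + 1)) ^ (2 : ℝ), by positivity,
    fun z hz => ?_⟩
  have ht : 0 < 1 + |z.im| := by positivity
  have hn1 := HP_norm (hHPa z hz)
  have hX0 : 0 < X₀ κ σ := by linarith
  rcases lt_or_ge (X₀ κ σ + 1) ‖z‖ with h2 | h2
  · have e1 := hBb f hff z (hHPa z hz) (by linarith)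
    have e2 := nb one_pos (by norm_num : (0 : ℝ) ≤ 2) hn1.le
    calc ‖deriv (Ff f) z‖ ≤ B * ‖z‖ ^ (-(2 : ℝ)) := e1
      _ ≤ B * ((1 + 1 / 1) ^ (2 : ℝ) * (1 + |z.im|) ^ (-(2 : ℝ))) := by gcongr
      _ = (B * (1 + 1 / 1) ^ (2 : ℝ)) * (1 + |z.im|) ^ (-(2 : ℝ)) := by ring
      _ ≤ _ := by
        refine mul_le_mul_of_nonneg_right ?_ (by positivity)
        have : 0 ≤ |C₁| * (1 + (X₀ κ σ + 1)) ^ (2 : ℝ) := by positivity
        linarith
  · have e6 : 1 ≤ (1 + (X₀ κ σ + 1)) ^ (2 : ℝ) * (1 + |z.im|) ^ (-(2 : ℝ)) := by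
      have e7 : 1 + |z.im| ≤ 1 + (X₀ κ σ + 1) := by
        have := abs_im_le_norm z
        linarith
      rw [Real.rpow_neg ht.le, ← div_eq_mul_inv, le_div_iff₀ (by positivity), one_mul]
      exact Real.rpow_le_rpow ht.le e7 (by norm_num)
    have e7 := (hC₁ z ⟨hz, h2⟩).trans (le_abs_self _)
    rw [norm_neg] at e7
    calc ‖deriv (Ff f) z‖ ≤ |C₁| * 1 := by linarith
      _ ≤ |C₁| * ((1 + (X₀ κ σ + 1)) ^ (2 : ℝ) * (1 + |z.im|) ^ (-(2 : ℝ))) := by gcongr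
      _ = (|C₁| * (1 + (X₀ κ σ + 1)) ^ (2 : ℝ)) * (1 + |z.im|) ^ (-(2 : ℝ)) := by ring
      _ ≤ _ := by
        refine mul_le_mul_of_nonneg_right ?_ (by positivity)
        have : 0 ≤ B * (1 + 1 / 1) ^ (2 : ℝ) := by positivity
        linarith

/-- the formula on every line of the half plane -/
theorem lBI_line (D : Dat lam c δ σ) (hκ : 0 < κ) {f : ℂ → ℂ}
    (hf : ∀ z ∈ HP, DifferentiableAt ℂ f z)
    (hff : ∀ z ∈ HP, X₀ κ σ ≤ ‖z‖ → f z = fz lam c κ z) {l a : ℝ} (hl : 0 < l) (ha : 1 < a) :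
    ((l * BI (fun v => Sh lam c (κ * v)) l : ℝ) : ℂ) =
      V a (fun z => exp (z * l) * -deriv (Ff f) z) := by
  set x : ℝ := max a (X₀ κ σ + 1) with hx
  have hxX : X₀ κ σ < x := lt_of_lt_of_le (lt_add_one _) (le_max_right _ _)
  rw [lBI_eq D hκ hf hff hl hxX]
  obtain ⟨B, hB, hBb⟩ := strip_bound D hκ hf hff ha
  refine (shift (p := 2) (B := Real.exp (x * l) * B) (by norm_num) (le_max_left _ _)
    (fun s hs _ => ?_) fun s hs hs2 => ?_).symm
  · exact DifferentiableAt.mul (by fun_prop) (dFf_diff hf (lt_of_lt_of_le ha hs))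
  · rw [norm_mul, Complex.norm_exp, Complex.re_mul_ofReal, norm_neg, mul_assoc]
    refine mul_le_mul (Real.exp_le_exp.2 ?_) (hBb s hs) (norm_nonneg _) (Real.exp_pos _).le
    exact mul_le_mul_of_nonneg_right hs2 hl.le

/-- **The upper bound.** -/
theorem Chi.up (H : Chi lam c δ σ κ χ) {a : ℝ} (ha : 1 < a) :
    ∃ C : ℝ, 0 ≤ C ∧ ∀ l : ℝ, 1 ≤ l → |BI (fun v => Sh lam c (κ * v)) l| ≤ C * Real.exp (a * l) := by
  obtain ⟨f, hf, -, hff⟩ := H.exists_f
  obtain ⟨B, hB, hBb⟩ := strip_bound H.D H.κ0 hf hff ha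
  set Ip : ℝ := ∫ t : ℝ, (1 + |t|) ^ (-(2 : ℝ)) with hIp
  have hIp0 : 0 ≤ Ip := integral_nonneg fun t => by positivity
  refine ⟨(2 * Real.pi)⁻¹ * (B * Ip), by positivity, fun l hl => ?_⟩
  have hl0 : 0 < l := by linarith
  have hre : ∀ t : ℝ, ((a : ℂ) + t * I).re = a := fun t => by simp
  have him : ∀ t : ℝ, ((a : ℂ) + t * I).im = t := fun t => by simp
  have h1 := lBI_line H.D H.κ0 hf hff hl0 ha
  have h2 := norm_V_le (H := fun z => exp (z * l) * -deriv (Ff f) z) (c := a)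
    (g := fun t => (Real.exp (a * l) * B) * (1 + |t|) ^ (-(2 : ℝ)))
    ((decay_int (by norm_num)).const_mul _) fun t => by
      have e1 := hBb (a + t * I) (by rw [hre])
      rw [him] at e1
      rw [norm_mul, Complex.norm_exp, Complex.re_mul_ofReal, hre, norm_neg, mul_assoc]
      exact mul_le_mul_of_nonneg_left e1 (Real.exp_pos _).le
  rw [← h1, Complex.norm_real, Real.norm_eq_abs, abs_mul, abs_of_pos hl0,
    integral_const_mul] at h2
  have h3 : |BI (fun v => Sh lam c (κ * v)) l| ≤ l * |BI (fun v => Sh lam c (κ * v)) l| :=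
    le_mul_of_one_le_left (abs_nonneg _) hl
  refine (h3.trans h2).trans (le_of_eq ?_)
  rw [hIp]
  ring

end Pool.Agent.E8helper66.BM
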